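import Pool.Agent.BF.Defs

set_option autoImplicit false

/-!
# Base: elementary lemmas on words, values, types, cells
-/

namespace Pool.Agent.BF

open Pool.Agent.H56 Relation
open Pool.Agent.WFC (Atom amap EntG Small ElimSys AncA)

variable {k : ℕ} {ar : Fin k → ℕ} {T : List (Rule ar)} {D : Type}

/-! ### Words -/

section

variable {G : Pat T D}

@[simp] theorem ext_nil (x : Wd G) : ext x [] = x := rfl

theorem ext_ext (x : Wd G) (z z' : Pth T) : ext (ext x z) z' = ext x (z' ++ z) := by
  simp [ext]

theorem ext_cons (x : Wd G) (p : Fin (mm T)) (z : Pth T) : ext (ext x z) [p] = ext x (p :: z) := rfl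

@[simp] theorem ext_fst (x : Wd G) (z : Pth T) : (ext x z).1 = x.1 := rfl

@[simp] theorem ext_snd (x : Wd G) (z : Pth T) : (ext x z).2 = z ++ x.2 := rfl

@[simp] theorem ow_none (ρ : Rw G) : ow ((ρ, none) : Oc G) = (ρ, []) := rfl

@[simp] theorem ow_some (ρ : Rw G) (p : Fin (mm T)) : ow ((ρ, some p) : Oc G) = (ρ, [p]) := rfl

theorem ow_len (o : Oc G) : (ow o).2.length ≤ 1 := by
  rcases o with ⟨ρ, _ | p⟩ <;> simp

@[simp] theorem ow_fst (o : Oc G) : (ow o).1 = o.1 := rfl

end

@[simp] theorem up_nil (e : Tm T D) : up ([] : Pth T) e = some e := rfl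

theorem up_cons (p : Fin (mm T)) (w : Pth T) (e : Tm T D) : up (p :: w) e = (up w e).bind (up1 p) := rfl

@[simp] theorem up1_f (p : Fin (mm T)) (r : Fin T.length) (a : Fin (mm T) → Tm T D) :
    up1 p (.f r a) = some (a p) := rfl

@[simp] theorem up1_c (p : Fin (mm T)) (d : D) : up1 p (.c d : Tm T D) = none := rfl

theorem up_single (p : Fin (mm T)) (e : Tm T D) : up [p] e = up1 p e := rfl

theorem up_append (z w : Pth T) (e : Tm T D) : up (z ++ w) e = (up w e).bind (up z) := by
  induction z with
  | nil => cases h : up w e <;> simp [h]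
  | cons p z ih =>
    rw [List.cons_append, up_cons, ih]
    cases h : up w e <;> simp [up_cons]

/-- Nothing is below a constant. -/
theorem up_c {z : Pth T} (hz : z ≠ []) (d : D) : up z (.c d : Tm T D) = none := by
  induction z with
  | nil => exact absurd rfl hz
  | cons p z ih =>
    rw [up_cons]
    by_cases h0 : z = []
    · subst h0
      rfl
    · rw [ih h0]
      rfl

/-- Inversion of a defined step. -/
theorem up_cons_some {p : Fin (mm T)} {w : Pth T} {e t : Tm T D} (h : up (p :: w) e = some t) :
    ∃ r a, up w e = some (.f r a) ∧ a p = t := by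
  rw [up_cons] at h
  rcases hw : up w e with _ | s
  · rw [hw] at h
    cases h
  · rw [hw, Option.bind_some] at h
    cases s with
    | c d => cases h
    | f r a =>
      rw [up1_f] at h
      exact ⟨r, a, rfl, Option.some.inj h⟩

theorem up_cons_f {p : Fin (mm T)} {w : Pth T} {e : Tm T D} {r : Fin T.length} {a : Fin (mm T) → Tm T D}
    (h : up w e = some (.f r a)) : up (p :: w) e = some (a p) := by
  rw [up_cons, h]
  rfl

section

variable {G : Pat T D}

theorem val_ext (x : Wd G) (z : Pth T) : val (ext x z) = (val x).bind (up z) := up_append z x.2 x.1.1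

theorem val_top (e : Rw G) : val ((e, []) : Wd G) = some e.1 := rfl

theorem val_ow_none (ρ : Rw G) : val (ow ((ρ, none) : Oc G)) = some ρ.1 := rfl

theorem val_ow_some (ρ : Rw G) (p : Fin (mm T)) : val (ow ((ρ, some p) : Oc G)) = up1 p ρ.1 := rfl

end

/-- Values of prefixes of defined words are defined. -/
theorem up_tail_ne {z w : Pth T} {e : Tm T D} (h : up (z ++ w) e ≠ none) : up w e ≠ none := by
  intro h'
  rw [up_append, h'] at h
  exact h rfl

theorem val_tail_ne {G : Pat T D} {x : Wd G} {z : Pth T} (h : val (ext x z) ≠ none) : val x ≠ none :=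
  up_tail_ne h

/-! ### Depths, subterms, legal terms -/

theorem dep_arg (r : Fin T.length) (a : Fin (mm T) → Tm T D) (p : Fin (mm T)) : dep (a p) < dep (.f r a) := by
  have h : dep (a p) ≤ Finset.univ.sup (fun p => dep (a p)) :=
    Finset.le_sup (f := fun p => dep (a p)) (Finset.mem_univ p)
  change dep (a p) < Finset.univ.sup (fun p => dep (a p)) + 1
  omega

theorem dep_up {w : Pth T} {e e' : Tm T D} (h : up w e = some e') : dep e' + w.length ≤ dep e := by
  induction w generalizing e' with
  | nil =>
    rw [up_nil] at h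
    cases h
    simp
  | cons p w ih =>
    obtain ⟨r, a, h1, rfl⟩ := up_cons_some h
    have h2 := ih h1
    have h3 := dep_arg r a p
    simp only [List.length_cons]
    omega

theorem dep_up_lt {w : Pth T} {e e' : Tm T D} (hw : w ≠ []) (h : up w e = some e') : dep e' < dep e := by
  have h1 := dep_up h
  have h2 := List.length_pos_iff.2 hw
  omega

theorem sub_self {V : Set (Tm T D)} : V ⊆ Sub V := fun t ht => ⟨t, ht, [], rfl⟩

theorem sub_mono {V V' : Set (Tm T D)} (h : V ⊆ V') : Sub V ⊆ Sub V' := by
  rintro t ⟨s, hs, w, hw⟩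
  exact ⟨s, h hs, w, hw⟩

theorem sub_sub {V V' : Set (Tm T D)} (h : V ⊆ Sub V') : Sub V ⊆ Sub V' := by
  rintro t ⟨s, hs, w, hw⟩
  obtain ⟨s', hs', w', hw'⟩ := h hs
  refine ⟨s', hs', w ++ w', ?_⟩
  rw [up_append, hw']
  exact hw

theorem mem_sub_of_up {V : Set (Tm T D)} {s t : Tm T D} {w : Pth T} (hs : s ∈ Sub V) (h : up w s = some t) :
    t ∈ Sub V := sub_sub (V := Sub V) (fun _ hx => hx) ⟨s, hs, w, h⟩

theorem val_mem_sub {G : Pat T D} {x : Wd G} {t : Tm T D} (h : val x = some t) : t ∈ Sub G.V :=
  ⟨x.1.1, x.1.2, x.2, h⟩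

section

variable {C : Type} {t0 : Tm T D → C} {J : Inst ar D} {N' : ℕ}

theorem Leg.arg {r : Fin T.length} {a : Fin (mm T) → Tm T D} (h : Leg t0 J N' (.f r a)) (p : Fin (mm T)) :
    Leg t0 J N' (a p) := by
  cases h with
  | f _ _ h1 _ => exact h1 p

theorem Leg.body {r : Fin T.length} {a : Fin (mm T) → Tm T D} (h : Leg t0 J N' (.f r a))
    (j : Fin (bd r).length) : BodyOk t0 J N' r a j := by
  cases h with
  | f _ _ _ h2 => exact h2 j

theorem Leg.up {w : Pth T} {e e' : Tm T D} (he : Leg t0 J N' e) (h : up w e = some e') : Leg t0 J N' e' := by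
  induction w generalizing e' with
  | nil =>
    rw [up_nil] at h
    cases h
    exact he
  | cons p w ih =>
    obtain ⟨r, a, h1, rfl⟩ := up_cons_some h
    exact (ih h1).arg p

theorem Leg.sub {V : Set (Tm T D)} (hV : ∀ t ∈ V, Leg t0 J N' t) {t : Tm T D} (ht : t ∈ Sub V) :
    Leg t0 J N' t := by
  obtain ⟨s, hs, w, hw⟩ := ht
  exact (hV s hs).up hw

/-! ### Types -/

theorem Veq.refl (l : ℕ) (x : Option (Tm T D)) : Veq t0 l x x := fun _ _ => rfl

theorem Veq.symm {l : ℕ} {x y : Option (Tm T D)} (h : Veq t0 l x y) : Veq t0 l y x := fun w hw => (h w hw).symm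

theorem Veq.trans {l : ℕ} {x y z : Option (Tm T D)} (h : Veq t0 l x y) (h' : Veq t0 l y z) : Veq t0 l x z :=
  fun w hw => (h w hw).trans (h' w hw)

theorem Veq.mono {l l' : ℕ} {x y : Option (Tm T D)} (h : Veq t0 l x y) (hl : l' ≤ l) : Veq t0 l' x y :=
  fun w hw => h w (hw.trans hl)

theorem Veq.of_eq {l : ℕ} {x y : Option (Tm T D)} (h : x = y) : Veq t0 l x y := by
  rw [h]
  exact Veq.refl l y

theorem bind_up_append (z w : Pth T) (x : Option (Tm T D)) : x.bind (up (z ++ w)) = (x.bind (up w)).bind (up z) := by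
  cases x with
  | none => rfl
  | some e => exact up_append z w e

theorem Veq.bind {l l' : ℕ} {x y : Option (Tm T D)} (h : Veq t0 l x y) (z : Pth T) (hl : l' + z.length ≤ l) :
    Veq t0 l' (x.bind (Pool.Agent.BF.up z)) (y.bind (Pool.Agent.BF.up z)) := by
  intro w hw
  rw [← bind_up_append, ← bind_up_append]
  apply h
  rw [List.length_append]
  omega

theorem Veq.lb {l : ℕ} {x y : Option (Tm T D)} (h : Veq t0 l x y) : x.map t0 = y.map t0 := by
  have h1 := h [] (Nat.zero_le _)
  cases x <;> cases y <;> simpa using h1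

theorem Veq.none_iff {l : ℕ} {x y : Option (Tm T D)} (h : Veq t0 l x y) : x = none ↔ y = none := by
  have h1 := h.lb
  cases x <;> cases y <;> simp_all

theorem Veq.ne_none {l : ℕ} {x y : Option (Tm T D)} (h : Veq t0 l x y) (hx : x ≠ none) : y ≠ none :=
  fun hy => hx (h.none_iff.2 hy)

variable {N V Mx : ℕ} (ht : GoodTab t0 N V Mx)

include ht

theorem Veq.lab {l : ℕ} {s t : Tm T D} (h : Veq t0 l (some s) (some t)) : lab s = lab t := by
  have h1 := h.lb
  simp only [Option.map_some, Option.some.injEq] at h1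
  exact ht.lab s t h1

/-- Only the constant itself has the type of a constant. -/
theorem Veq.cst {l : ℕ} {d : D} {y : Option (Tm T D)} (h : Veq t0 l (some (.c d)) y) : y = some (.c d) := by
  rcases y with _ | t
  · exact absurd (h.none_iff.2 rfl) (by simp)
  · have h1 := h.lab ht
    cases t with
    | c d' =>
      simp only [Pool.Agent.BF.lab, Sum.inl.injEq] at h1
      rw [h1]
    | f r a =>
      simp only [Pool.Agent.BF.lab] at h1
      cases h1

/-- Terms of the same type have the same rule. -/
theorem Veq.rule {l : ℕ} {r : Fin T.length} {a : Fin (mm T) → Tm T D} {y : Option (Tm T D)}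
    (h : Veq t0 l (some (.f r a)) y) : ∃ a', y = some (.f r a') := by
  rcases y with _ | t
  · exact absurd (h.none_iff.2 rfl) (by simp)
  · have h1 := h.lab ht
    cases t with
    | c d' =>
      simp only [Pool.Agent.BF.lab] at h1
      cases h1
    | f r' a' =>
      simp only [Pool.Agent.BF.lab, Sum.inr.injEq] at h1
      subst h1
      exact ⟨a', rfl⟩

omit ht

/-- The arguments of terms of the same type. -/
theorem Veq.arg {l : ℕ} {r r' : Fin T.length} {a a' : Fin (mm T) → Tm T D}
    (h : Veq t0 (l + 1) (some (.f r a)) (some (.f r' a'))) (p : Fin (mm T)) :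
    Veq t0 l (some (a p)) (some (a' p)) := by
  have h1 := h.bind [p] (l' := l) (by simp)
  exact h1

end

/-! ### Cells -/

theorem cell_snd_none {X : Type} {r : Fin T.length} {top : X} {arg : Fin (mm T) → X} {p : Fin (ar (symOf r))}
    (h : headOf r p = none) : (cell (ar := ar) r top arg).2 p = top := by
  change (match headOf r p with | none => top | some x => arg (vl r x)) = top
  rw [h]

theorem cell_snd_some {X : Type} {r : Fin T.length} {top : X} {arg : Fin (mm T) → X} {p : Fin (ar (symOf r))}
    {x : Fin (nv r)} (h : headOf r p = some x) : (cell (ar := ar) r top arg).2 p = arg (vl r x) := by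
  change (match headOf r p with | none => top | some x => arg (vl r x)) = arg (vl r x)
  rw [h]

theorem amap_cell {X Y : Type} (g : X → Y) (r : Fin T.length) (top : X) (arg : Fin (mm T) → X) :
    amap g (cell (ar := ar) r top arg) = cell r (g top) (fun p => g (arg p)) := by
  unfold amap cell
  congr 1
  funext p
  simp only [Function.comp]
  rcases headOf r p with _ | x <;> rfl

/-- Two cells of the same rule with related nodes are related position by position. -/
theorem cell_rel {X : Type} {Q : X → X → Prop} {r : Fin T.length} {top top' : X} {arg arg' : Fin (mm T) → X}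
    (h1 : Q top top') (h2 : ∀ p, Q (arg p) (arg' p)) (i : Fin (ar (symOf r))) :
    Q ((cell (ar := ar) r top arg).2 i) ((cell (ar := ar) r top' arg').2 i) := by
  rcases h : headOf r i with _ | x
  · rw [cell_snd_none h, cell_snd_none h]
    exact h1
  · rw [cell_snd_some h, cell_snd_some h]
    exact h2 _

theorem tcells_mono {X : Type} (g : Tm T D → X) {V V' : Set (Tm T D)} (h : V ⊆ V') :
    tcells (ar := ar) g V ⊆ tcells g V' := by
  rintro α ⟨r, a, hr, rfl⟩
  exact ⟨r, a, h hr, rfl⟩

theorem tcells_finite {X : Type} (g : Tm T D → X) {V : Set (Tm T D)} (h : V.Finite) :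
    (tcells (ar := ar) g V).Finite := by
  classical
  let F : Tm T D → Set (Atom ar X) := fun t => match t with
    | .c _ => ∅
    | .f r a => {cell r (g (.f r a)) (fun p => g (a p))}
  have hF : ∀ t, (F t).Finite := by
    intro t
    cases t with
    | c d => exact Set.finite_empty
    | f r a => exact Set.finite_singleton _
  refine (h.biUnion (fun t _ => hF t)).subset ?_
  rintro α ⟨r, a, hr, rfl⟩
  exact Set.mem_biUnion hr rfl

end Pool.Agent.BF
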