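import Pool.Agent.BF.Base

set_option autoImplicit false

/-!
# CL: the equivalences of words, the class lemma
-/

namespace Pool.Agent.BF

open Pool.Agent.H56 Relation
open Pool.Agent.WFC (Atom amap EntG Small ElimSys AncA)

variable {k : ℕ} {ar : Fin k → ℕ} {T : List (Rule ar)} {D : Type} {𝔠 : Ctx T D} {𝔽 : Fr 𝔠} {E E' : St 𝔽} {B : ℕ}

theorem Eqw.refl (x : Wd 𝔽.G) : Eqw 𝔽 E x x := EqvGen.refl x

theorem Eqw.symm {x y : Wd 𝔽.G} (h : Eqw 𝔽 E x y) : Eqw 𝔽 E y x := EqvGen.symm _ _ h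

theorem Eqw.trans {x y z : Wd 𝔽.G} (h : Eqw 𝔽 E x y) (h' : Eqw 𝔽 E y z) : Eqw 𝔽 E x z :=
  EqvGen.trans _ _ _ h h'

theorem Eqw.of_gen {x y : Wd 𝔽.G} (h : Gen 𝔽 E x y) : Eqw 𝔽 E x y := EqvGen.rel _ _ ⟨x, y, [], h, rfl, rfl⟩

/-- The equivalence is a congruence for extensions. -/
theorem Eqw.ext {x y : Wd 𝔽.G} (h : Eqw 𝔽 E x y) (z : Pth T) : Eqw 𝔽 E (BF.ext x z) (BF.ext y z) := by
  induction h with
  | rel x y h =>
    obtain ⟨g, g', z0, hg, rfl, rfl⟩ := h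
    exact EqvGen.rel _ _ ⟨g, g', z ++ z0, hg, ext_ext g z0 z, ext_ext g' z0 z⟩
  | refl x => exact EqvGen.refl _
  | symm x y _ ih => exact EqvGen.symm _ _ ih
  | trans x y z' _ _ ih1 ih2 => exact EqvGen.trans _ _ _ ih1 ih2

theorem cl_mono {α : Type} {r r' : α → α → Prop} (hr : ∀ a b, r a b → r' a b) {x y : α}
    (h : EqvGen r x y) : EqvGen r' x y := by
  induction h with
  | rel x y h => exact EqvGen.rel _ _ (hr _ _ h)
  | refl x => exact EqvGen.refl _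
  | symm x y _ ih => exact EqvGen.symm _ _ ih
  | trans x y z' _ _ ih1 ih2 => exact EqvGen.trans _ _ _ ih1 ih2

theorem Gen.mono (hE : E ⊆ E') {x y : Wd 𝔽.G} (h : Gen 𝔽 E x y) : Gen 𝔽 E' x y := by
  cases h with
  | tr h1 => exact Gen.tr h1
  | eq h1 h2 h3 => exact Gen.eq h1 h2 h3
  | mg h1 => exact Gen.mg (hE h1)

theorem Stp.mono (hE : E ⊆ E') {x y : Wd 𝔽.G} (h : Stp 𝔽 E x y) : Stp 𝔽 E' x y := by
  obtain ⟨g, g', z, hg, h1, h2⟩ := h
  exact ⟨g, g', z, hg.mono hE, h1, h2⟩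

/-- More pairs: a coarser equivalence. -/
theorem Eqw.mono (hE : E ⊆ E') {x y : Wd 𝔽.G} (h : Eqw 𝔽 E x y) : Eqw 𝔽 E' x y :=
  cl_mono (fun _ _ h' => h'.mono hE) h

theorem EqB.eqw {b : ℕ} {x y : Wd 𝔽.G} (h : EqB 𝔽 E b x y) : Eqw 𝔽 E x y :=
  cl_mono (fun _ _ h' => h'.1) h

theorem EqB.mono {b b' : ℕ} (hb : b ≤ b') {x y : Wd 𝔽.G} (h : EqB 𝔽 E b x y) : EqB 𝔽 E b' x y :=
  cl_mono (fun _ _ h' => ⟨h'.1, lt_of_lt_of_le h'.2.1 hb, lt_of_lt_of_le h'.2.2 hb⟩) h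

theorem EqB.monoE (hE : E ⊆ E') {b : ℕ} {x y : Wd 𝔽.G} (h : EqB 𝔽 E b x y) : EqB 𝔽 E' b x y :=
  cl_mono (fun _ _ h' => ⟨h'.1.mono hE, h'.2⟩) h

theorem eqw_clm {o o' : Oc 𝔽.G} (h : Veq 𝔠.t0 𝔽.mu (val (ow o)) (val (ow o'))) : Eqw 𝔽 E (ow o) (ow o') :=
  Eqw.of_gen (Gen.tr h)

/-! ### Levels -/

theorem mu_le_lN : 𝔽.mu ≤ 𝔠.lN := by
  have h1 := 𝔽.hs
  have h2 := 𝔽.hl
  have h3 : 𝔽.s * bDel T 𝔠.K (Nat.card D) ≤ (bS T 𝔠.K (Nat.card D) + 1) * bDel T 𝔠.K (Nat.card D) :=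
    Nat.mul_le_mul_right _ (by omega)
  unfold Fr.mu Ctx.lN bN' bMx
  omega

theorem three_bN_le_mu : 3 * bN T 𝔠.K ≤ 𝔽.mu := by
  unfold Fr.mu
  omega

theorem bR_lt_bN : bR T 𝔠.K < bN T 𝔠.K := by
  unfold bN
  omega

theorem one_le_bR : 1 ≤ bR T 𝔠.K := by
  unfold bR
  omega

/-! ### Short words -/

theorem finite_rw (𝔽 : Fr 𝔠) : Finite (Rw 𝔽.G) := 𝔽.ok.finV

theorem card_rw (𝔽 : Fr 𝔠) : Nat.card (Rw 𝔽.G) ≤ 𝔠.K := by
  have h := 𝔽.ok.cardV
  rwa [← Nat.card_coe_set_eq] at h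

theorem finite_lists (n R : ℕ) : {w : List (Fin n) | w.length ≤ R}.Finite :=
  List.finite_length_le (Fin n) R

theorem card_lists (n R : ℕ) : {w : List (Fin n) | w.length ≤ R}.ncard ≤ (n + 1) ^ R := by
  classical
  -- encode a list of length at most `R` as a list of length exactly `R` over `Option (Fin n)`
  let f : List (Fin n) → (Fin R → Option (Fin n)) := fun w i => w[i.1]?
  have hinj : Set.InjOn f {w : List (Fin n) | w.length ≤ R} := by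
    intro w hw w' hw' h
    apply List.ext_getElem?
    intro i
    by_cases hi : i < R
    · exact congrFun h ⟨i, hi⟩
    · rw [List.getElem?_eq_none (le_trans hw (not_lt.1 hi)), List.getElem?_eq_none (le_trans hw' (not_lt.1 hi))]
  have h1 := Set.ncard_le_ncard_of_injOn (t := (Set.univ : Set (Fin R → Option (Fin n)))) f
    (fun _ _ => Set.mem_univ _) hinj Set.finite_univ
  refine h1.trans ?_
  rw [Set.ncard_univ, Nat.card_eq_fintype_card, Fintype.card_fun, Fintype.card_option, Fintype.card_fin,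
    Fintype.card_fin]

theorem finite_sh (𝔽 : Fr 𝔠) : {x : Wd 𝔽.G | 𝔽.sh x}.Finite := by
  haveI := finite_rw 𝔽
  have h1 : {x : Wd 𝔽.G | 𝔽.sh x} = Set.univ ×ˢ {w : Pth T | w.length ≤ bR T 𝔠.K} := by
    ext x
    simp [Fr.sh]
  rw [h1]
  exact Set.finite_univ.prod (finite_lists _ _)

theorem card_sh (𝔽 : Fr 𝔠) : {x : Wd 𝔽.G | 𝔽.sh x}.ncard ≤ bNsh T 𝔠.K := by
  haveI := finite_rw 𝔽
  have h1 : {x : Wd 𝔽.G | 𝔽.sh x} = Set.univ ×ˢ {w : Pth T | w.length ≤ bR T 𝔠.K} := by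
    ext x
    simp [Fr.sh]
  rw [h1, Set.ncard_prod, Set.ncard_univ]
  exact Nat.mul_le_mul (card_rw 𝔽) (card_lists _ _)

/-! ### Generators in valid states -/

theorem cl_short {x : Wd 𝔽.G} (h : 𝔽.sh x) : ∀ w', w' <:+ x.2 →
    ∃ y : Wd 𝔽.G, 𝔽.sh y ∧ EqB 𝔽 E (2 * bN T 𝔠.K + 1) (x.1, w') y := by
  intro w' hw'
  exact ⟨(x.1, w'), le_trans hw'.length_le h, EqvGen.refl _⟩

theorem sh_ow (o : Oc 𝔽.G) : 𝔽.sh (ow o) := (ow_len o).trans one_le_bR

/-- In a valid state every generator has length at most `N`, strength `mu`, and all its path positions are connected to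
short words. -/
theorem gen_ok (hv : Valid 𝔽 E B) {g g' : Wd 𝔽.G} (h : Gen 𝔽 E g g') :
    g.2.length ≤ bN T 𝔠.K ∧ g'.2.length ≤ bN T 𝔠.K ∧ Veq 𝔠.t0 𝔽.mu (val g) (val g') ∧
      (∀ w', w' <:+ g.2 → ∃ x : Wd 𝔽.G, 𝔽.sh x ∧ EqB 𝔽 E (2 * bN T 𝔠.K + 1) (g.1, w') x) ∧
      (∀ w', w' <:+ g'.2 → ∃ x : Wd 𝔽.G, 𝔽.sh x ∧ EqB 𝔽 E (2 * bN T 𝔠.K + 1) (g'.1, w') x) := by
  have hRN := bR_lt_bN (𝔠 := 𝔠)
  cases h with
  | @tr o o' hc =>
    have h1 := sh_ow o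
    have h2 := sh_ow o'
    unfold Fr.sh at h1 h2
    exact ⟨by omega, by omega, hc, cl_short (sh_ow o), cl_short (sh_ow o')⟩
  | @eq x y hx hy hxy =>
    have h1 := hx
    have h2 := hy
    unfold Fr.sh at h1 h2
    exact ⟨by omega, by omega, hxy.mono mu_le_lN, cl_short hx, cl_short hy⟩
  | @mg x y hxy =>
    obtain ⟨h1, h2⟩ := hv.wok _ _ hxy
    exact ⟨h1.len.le, h2.len.le, (hv.veq _ _ hxy).mono hv.mu_le, h1.tails, h2.tails⟩

/-- The type of an extension of a generator. -/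
theorem gen_ext (hv : Valid 𝔽 E B) {g g' : Wd 𝔽.G} (h : Gen 𝔽 E g g') (z : Pth T) {l : ℕ}
    (hl : l + z.length ≤ 𝔽.mu) : Veq 𝔠.t0 l (val (ext g z)) (val (ext g' z)) := by
  rw [val_ext, val_ext]
  exact (gen_ok hv h).2.2.1.bind z hl

/-- Words connected through words of length at most `2 N` have the same type of level `mu - 2 N`. -/
theorem eqB_veq (hv : Valid 𝔽 E B) {x y : Wd 𝔽.G} (h : EqB 𝔽 E (2 * bN T 𝔠.K + 1) x y) :
    Veq 𝔠.t0 (𝔽.mu - 2 * bN T 𝔠.K) (val x) (val y) := by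
  have h3 := three_bN_le_mu (𝔽 := 𝔽)
  induction h with
  | rel x y h =>
    obtain ⟨⟨g, g', z, hg, rfl, rfl⟩, hx, -⟩ := h
    refine gen_ext hv hg z ?_
    rw [ext_snd, List.length_append] at hx
    omega
  | refl x => exact Veq.refl _ _
  | symm x y _ ih => exact ih.symm
  | trans x y z' _ _ ih1 ih2 => exact ih1.trans ih2

/-! ### The class lemma -/

/-- The property of the words in the class lemma. -/
def clP (𝔽 : Fr 𝔠) (E : St 𝔽) (x : Wd 𝔽.G) : Prop :=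
  x.2.length < bN T 𝔠.K ∧ val x ≠ none ∧
    ∀ w', w' <:+ x.2 → ∃ y : Wd 𝔽.G, 𝔽.sh y ∧ EqB 𝔽 E (2 * bN T 𝔠.K + 1) (x.1, w') y

/-- A defined word whose path positions are connected with short words has length less than `N`. -/
theorem cl_len (hv : Valid 𝔽 E B) {y : Wd 𝔽.G} (hd : val y ≠ none)
    (ht : ∀ w', w' <:+ y.2 → ∃ y' : Wd 𝔽.G, 𝔽.sh y' ∧ EqB 𝔽 E (2 * bN T 𝔠.K + 1) (y.1, w') y') :
    y.2.length < bN T 𝔠.K := by
  by_contra hlen
  have hlen' : bN T 𝔠.K ≤ y.2.length := by omega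
  have hsuf : ∀ i : ℕ, y.2.drop (y.2.length - i) <:+ y.2 := fun i => List.drop_suffix _ _
  choose f hf1 hf2 using ht
  let g : ℕ → Wd 𝔽.G := fun i => f (y.2.drop (y.2.length - i)) (hsuf i)
  have hfin := finite_sh 𝔽
  have hcard : hfin.toFinset.card < (Finset.range (bN T 𝔠.K + 1)).card := by
    rw [Finset.card_range, ← Set.ncard_eq_toFinset_card _ hfin]
    have := card_sh 𝔽
    unfold bN
    omega
  have hmaps : ∀ i ∈ Finset.range (bN T 𝔠.K + 1), g i ∈ hfin.toFinset := by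
    intro i _
    rw [Set.Finite.mem_toFinset]
    exact hf1 _ (hsuf i)
  obtain ⟨i, hi, j, hj, hij, hgij⟩ := Finset.exists_ne_map_eq_of_card_lt_of_maps_to hcard hmaps
  have key : ∀ i j : ℕ, i < j → j < bN T 𝔠.K + 1 → g i = g j → False := by
    intro i j hij hj hg
    have h1 : EqB 𝔽 E (2 * bN T 𝔠.K + 1) (y.1, y.2.drop (y.2.length - i)) (g i) := hf2 _ (hsuf i)
    have h2 : EqB 𝔽 E (2 * bN T 𝔠.K + 1) (y.1, y.2.drop (y.2.length - j)) (g j) := hf2 _ (hsuf j)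
    rw [← hg] at h2
    have h3 := (eqB_veq hv h1).trans (eqB_veq hv h2).symm
    have hle : y.2.length - j ≤ y.2.length - i := by omega
    have h4 : y.2.drop (y.2.length - i) <:+ y.2.drop (y.2.length - j) := by
      have h5 : y.2.drop (y.2.length - i) =
          (y.2.drop (y.2.length - j)).drop (y.2.length - i - (y.2.length - j)) := by
        rw [List.drop_drop]
        congr 1
        omega
      rw [h5]
      exact List.drop_suffix _ _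
    obtain ⟨z, hz⟩ := h4
    have hzlen : z.length = j - i := by
      have h6 := congrArg List.length hz
      rw [List.length_append, List.length_drop, List.length_drop] at h6
      omega
    have hz0 : z ≠ [] := by
      intro h6
      rw [h6] at hzlen
      simp only [List.length_nil] at hzlen
      omega
    obtain ⟨t, ht⟩ := hsuf j
    have hdj : up (y.2.drop (y.2.length - j)) y.1.1 ≠ none := by
      refine up_tail_ne (z := t) ?_
      rw [ht]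
      exact hd
    rw [← hz] at hdj
    have hdi := up_tail_ne hdj
    obtain ⟨e, he⟩ := Option.ne_none_iff_exists'.mp hdi
    obtain ⟨e', he'⟩ := Option.ne_none_iff_exists'.mp hdj
    have h7 : up z e = some e' := by
      rw [up_append, he] at he'
      exact he'
    have h8 : val ((y.1, y.2.drop (y.2.length - i)) : Wd 𝔽.G) = some e := he
    have h9 : val ((y.1, y.2.drop (y.2.length - j)) : Wd 𝔽.G) = some e' := by
      change up (y.2.drop (y.2.length - j)) y.1.1 = _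
      rw [← hz, he']
    rw [h8, h9] at h3
    have h10 := h3.lb
    simp only [Option.map_some, Option.some.injEq] at h10
    exact 𝔠.tab.acyc z e e' hz0 (by omega) h7 h10
  rw [Finset.mem_range] at hi hj
  rcases lt_or_gt_of_ne hij with h | h
  · exact key i j h hj hgij
  · exact key j i h hi hgij.symm

/-- One step. -/
theorem cl_step (hv : Valid 𝔽 E B) {g g' : Wd 𝔽.G} {z : Pth T}
    (hs : ∀ z : Pth T, (ext g z).2.length < 2 * bN T 𝔠.K + 1 → (ext g' z).2.length < 2 * bN T 𝔠.K + 1 →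
      EqB 𝔽 E (2 * bN T 𝔠.K + 1) (ext g z) (ext g' z))
    (hg : g.2.length ≤ bN T 𝔠.K) (hg' : g'.2.length ≤ bN T 𝔠.K)
    (hl : Veq 𝔠.t0 𝔽.mu (val g) (val g'))
    (ht : ∀ w', w' <:+ g'.2 → ∃ x : Wd 𝔽.G, 𝔽.sh x ∧ EqB 𝔽 E (2 * bN T 𝔠.K + 1) (g'.1, w') x)
    (hP : clP 𝔽 E (ext g z)) : clP 𝔽 E (ext g' z) := by
  obtain ⟨h1, h2, h3⟩ := hP
  have hmu := three_bN_le_mu (𝔽 := 𝔽)
  rw [ext_snd, List.length_append] at h1
  have hd : val (ext g' z) ≠ none := by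
    rw [val_ext] at h2 ⊢
    exact (hl.bind z (l' := 0) (by omega)).ne_none h2
  have ht' : ∀ w', w' <:+ (ext g' z).2 → ∃ y : Wd 𝔽.G, 𝔽.sh y ∧
      EqB 𝔽 E (2 * bN T 𝔠.K + 1) ((ext g' z).1, w') y := by
    intro w' hw'
    rcases List.suffix_or_suffix_of_suffix hw' (List.suffix_append z g'.2) with h | h
    · exact ht w' h
    · obtain ⟨z', rfl⟩ := h
      have hz' : z' <:+ z := by
        obtain ⟨t, ht⟩ := hw'
        rw [ext_snd, ← List.append_assoc] at ht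
        exact ⟨t, List.append_cancel_right ht⟩
      have h4 : z' ++ g.2 <:+ (ext g z).2 := by
        obtain ⟨t, rfl⟩ := hz'
        exact ⟨t, by rw [ext_snd, List.append_assoc]⟩
      obtain ⟨y, hy1, hy2⟩ := h3 _ h4
      have h5 := hz'.length_le
      refine ⟨y, hy1, EqvGen.trans _ _ _ (EqvGen.symm _ _ (hs z' ?_ ?_)) hy2⟩
      · rw [ext_snd, List.length_append]
        omega
      · rw [ext_snd, List.length_append]
        omega
  exact ⟨cl_len hv hd ht', hd, ht'⟩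

theorem cl_main (hv : Valid 𝔽 E B) {x y : Wd 𝔽.G} (h : Eqw 𝔽 E x y) :
    (clP 𝔽 E x ↔ clP 𝔽 E y) ∧ (clP 𝔽 E x → EqB 𝔽 E (bN T 𝔠.K) x y) := by
  induction h with
  | rel x y h =>
    have h' := h
    obtain ⟨g, g', z, hg, rfl, rfl⟩ := h
    obtain ⟨h1, h2, h4, h5, h6⟩ := gen_ok hv hg
    have hiff : clP 𝔽 E (ext g z) ↔ clP 𝔽 E (ext g' z) := by
      constructor
      · exact cl_step hv (fun z h7 h8 => EqvGen.rel _ _ ⟨⟨g, g', z, hg, rfl, rfl⟩, h7, h8⟩) h1 h2 h4 h6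
      · exact cl_step hv (fun z h7 h8 => EqvGen.symm _ _
          (EqvGen.rel _ _ ⟨⟨g, g', z, hg, rfl, rfl⟩, h8, h7⟩)) h2 h1 h4.symm h5
    exact ⟨hiff, fun hP => EqvGen.rel _ _ ⟨h', hP.1, (hiff.mp hP).1⟩⟩
  | refl x => exact ⟨Iff.rfl, fun _ => EqvGen.refl _⟩
  | symm x y _ ih => exact ⟨ih.1.symm, fun hP => EqvGen.symm _ _ (ih.2 (ih.1.mpr hP))⟩
  | trans x y z' _ _ ih1 ih2 =>
    exact ⟨ih1.1.trans ih2.1, fun hP => EqvGen.trans _ _ _ (ih1.2 hP) (ih2.2 (ih1.1.mp hP))⟩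

/-- THE CLASS LEMMA, first form. -/
theorem class_EqB (hv : Valid 𝔽 E B) {x₀ x : Wd 𝔽.G} (h₀ : 𝔽.sh x₀) (hd : val x₀ ≠ none)
    (h : Eqw 𝔽 E x₀ x) : clP 𝔽 E x ∧ EqB 𝔽 E (bN T 𝔠.K) x₀ x := by
  have hRN := bR_lt_bN (𝔠 := 𝔠)
  have h₀' := h₀
  unfold Fr.sh at h₀'
  have hP : clP 𝔽 E x₀ := ⟨by omega, hd, cl_short h₀⟩
  obtain ⟨h1, h2⟩ := cl_main hv h
  exact ⟨h1.mp hP, h2 hP⟩

/-- THE CLASS LEMMA. Let `x₀` be a defined short word and `x₀ ~ x`. Then `x` has length less than `N`, it is defined, it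
has the type of `x₀` of level `mu - N`, and all path positions of `x` are connected to short words. -/
theorem class_lemma (hv : Valid 𝔽 E B) {x₀ x : Wd 𝔽.G} (h₀ : 𝔽.sh x₀) (hd : val x₀ ≠ none) (h : Eqw 𝔽 E x₀ x) :
    x.2.length < bN T 𝔠.K ∧ val x ≠ none ∧ Veq 𝔠.t0 (𝔽.mu - bN T 𝔠.K) (val x₀) (val x) ∧
      ∀ w', w' <:+ x.2 → ∃ y : Wd 𝔽.G, 𝔽.sh y ∧ EqB 𝔽 E (2 * bN T 𝔠.K + 1) (x.1, w') y := by
  obtain ⟨⟨h1, h2, h3⟩, h4⟩ := class_EqB hv h₀ hd h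
  refine ⟨h1, h2, ?_, h3⟩
  have hmu := three_bN_le_mu (𝔽 := 𝔽)
  clear h h₀ hd h1 h2 h3
  induction h4 with
  | rel x y h =>
    obtain ⟨⟨g, g', z, hg, rfl, rfl⟩, hx, -⟩ := h
    refine gen_ext hv hg z ?_
    rw [ext_snd, List.length_append] at hx
    omega
  | refl x => exact Veq.refl _ _
  | symm x y _ ih => exact ih.symm
  | trans x y z' _ _ ih1 ih2 => exact ih1.trans ih2

/-- The class lemma for the types of level `mu - N` only. -/
theorem class_veq (hv : Valid 𝔽 E B) {x₀ x : Wd 𝔽.G} (h₀ : 𝔽.sh x₀) (hd : val x₀ ≠ none) (h : Eqw 𝔽 E x₀ x) :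
    Veq 𝔠.t0 (𝔽.mu - bN T 𝔠.K) (val x₀) (val x) := (class_lemma hv h₀ hd h).2.2.1

/-- A short word equivalent to a defined short word is defined. -/
theorem class_dom (hv : Valid 𝔽 E B) {x₀ x : Wd 𝔽.G} (h₀ : 𝔽.sh x₀) (hx : 𝔽.sh x) (h : Eqw 𝔽 E x₀ x) :
    val x₀ = none ↔ val x = none := by
  constructor
  · intro h1
    by_contra h2
    exact (class_lemma hv hx h2 h.symm).2.1 h1
  · intro h1
    by_contra h2
    exact (class_lemma hv h₀ h2 h).2.1 h1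

/-- Two short words which are equivalent have the same type of level `mu - N`. -/
theorem sh_veq (hv : Valid 𝔽 E B) {x₀ x : Wd 𝔽.G} (h₀ : 𝔽.sh x₀) (hx : 𝔽.sh x) (h : Eqw 𝔽 E x₀ x) :
    Veq 𝔠.t0 (𝔽.mu - bN T 𝔠.K) (val x₀) (val x) := by
  by_cases h1 : val x₀ = none
  · rw [h1, (class_dom hv h₀ hx h).1 h1]
    exact Veq.refl _ _
  · exact class_veq hv h₀ h1 h

/-- Words equivalent to a short cell word are cell words with the same rule. -/
theorem class_rule (hv : Valid 𝔽 E B) {x₀ x : Wd 𝔽.G} (h₀ : 𝔽.sh x₀) {r : Fin T.length} {a : Fin (mm T) → Tm T D}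
    (hr : val x₀ = some (.f r a)) (h : Eqw 𝔽 E x₀ x) : ∃ a', val x = some (.f r a') := by
  have hd : val x₀ ≠ none := by rw [hr]; simp
  have h1 := class_veq hv h₀ hd h
  rw [hr] at h1
  exact h1.rule 𝔠.tab

/-- Words equivalent to a short word whose value is a constant have the same value. -/
theorem class_cst (hv : Valid 𝔽 E B) {x₀ x : Wd 𝔽.G} (h₀ : 𝔽.sh x₀) {d : D}
    (hr : val x₀ = some (.c d)) (h : Eqw 𝔽 E x₀ x) : val x = some (.c d) := by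
  have hd : val x₀ ≠ none := by rw [hr]; simp
  have h1 := class_veq hv h₀ hd h
  rw [hr] at h1
  exact h1.cst 𝔠.tab

end Pool.Agent.BF
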