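import Pool.Agent.BF.EV

set_option autoImplicit false

/-!
# US: the one-step descent at an untouched word which is not anchored
-/

namespace Pool.Agent.BF

open Pool.Agent.H56 Relation
open Pool.Agent.WFC (Atom amap EntG Small ElimSys AncA)

variable {k : ℕ} {ar : Fin k → ℕ} {T : List (Rule ar)} {D : Type} {𝔠 : Ctx T D} {𝔽 : Fr 𝔠} {E E' : St 𝔽} {B : ℕ}

theorem bR1_add : bR1 T 𝔠.K + 2 * 𝔠.K + 6 = bR T 𝔠.K := rfl

/-- The class of the node of a short cell word which is not equivalent to a root word consists of short equivalent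
words. -/
theorem vrel_pure (hv : Valid 𝔽 E B) {P : Set ((𝔽.G.X ⊕ Tm T D) × (𝔽.G.X ⊕ Tm T D))} {x : Wd 𝔽.G} (hx : 𝔽.sh x)
    (hc : 𝔽.cw x) (hr : ∀ t, rtw 𝔽 t → ¬ Eqw 𝔽 E x t) {n : (𝔽.G.X ⊕ Tm T D) ⊕ Wd 𝔽.G}
    (h : EqvGen (VRel 𝔽 E P) (.inr x) n) : ∃ y, n = .inr y ∧ 𝔽.sh y ∧ Eqw 𝔽 E x y := by
  obtain ⟨r, a, hra⟩ := hc
  have key : ∀ u v, VRel 𝔽 E P u v →
      ((∃ y, u = .inr y ∧ 𝔽.sh y ∧ Eqw 𝔽 E x y) ↔ (∃ y, v = .inr y ∧ 𝔽.sh y ∧ Eqw 𝔽 E x y)) := by
    intro u v huv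
    cases huv with
    | gl h => simp
    | @wd x' y' h1 h2 h3 =>
      constructor
      · rintro ⟨y, h4, -, h6⟩
        cases h4
        exact ⟨_, rfl, h2, h6.trans h3⟩
      · rintro ⟨y, h4, -, h6⟩
        cases h4
        exact ⟨_, rfl, h1, h6.trans h3.symm⟩
    | @root o t h1 h2 =>
      constructor
      · rintro ⟨y, h4, -, h6⟩
        cases h4
        exact absurd h6 (hr _ ⟨o, ⟨t, h1, h2⟩, rfl⟩)
      · rintro ⟨y, h4, -, -⟩
        cases h4
    | @base y' d h1 h2 =>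
      constructor
      · rintro ⟨y, h4, -, h6⟩
        cases h4
        obtain ⟨a', ha'⟩ := class_rule hv hx hra h6
        rw [h2] at ha'
        cases ha'
      · rintro ⟨y, h4, -, -⟩
        cases h4
  have key2 : ∀ u v, EqvGen (VRel 𝔽 E P) u v →
      ((∃ y, u = .inr y ∧ 𝔽.sh y ∧ Eqw 𝔽 E x y) ↔ (∃ y, v = .inr y ∧ 𝔽.sh y ∧ Eqw 𝔽 E x y)) := by
    intro u v huv
    induction huv with
    | rel u v h => exact key u v h
    | refl u => exact Iff.rfl
    | symm u v _ ih => exact ih.symm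
    | trans u v w _ _ ih1 ih2 => exact ih1.trans ih2
  exact (key2 _ _ h).1 ⟨x, rfl, hx, Eqw.refl x⟩

/-- Transfer of the head atom of a cell. -/
theorem cell_transfer {N : Type} {I : Inst ar N} {r' : Fin T.length} {top : Tm T D} {arg : Fin (mm T) → Tm T D}
    {i : Fin k} {s : Fin (ar i) → Tm T D} (h : cell r' top arg = (⟨i, s⟩ : Atom ar (Tm T D))) (topN : N)
    (argN : Fin (mm T) → N) (hI : I (symOf r') (fun p => (cell (ar := ar) r' topN argN).2 p)) (g : Tm T D → N → Prop)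
    (h1 : g top topN) (h2 : ∀ p, g (arg p) (argN p)) : ∃ u : Fin (ar i) → N, I i u ∧ ∀ p, g (s p) (u p) := by
  unfold cell at h
  cases h
  refine ⟨_, hI, ?_⟩
  intro p
  rcases hp : headOf r' p with _ | x
  · rw [cell_snd_none hp]
    simpa [hp] using h1
  · rw [cell_snd_some hp]
    simpa [hp] using h2 _

/-- The one-step descent. -/
theorem us_step (hv : Valid 𝔽 E B) {V : Finset (Wd 𝔽.G)} (hV : ∀ y ∈ V, 𝔽.cw y ∧ y.2.length ≤ bR1 T 𝔠.K)
    (hE : EntV 𝔽 E ↑V) {x : Wd 𝔽.G} (hx : x ∈ V) (hna : ¬ Anc 𝔽 E ↑V x)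
    (hun : ∀ y ∈ V, ∀ p, ¬ Eqw 𝔽 E x (ext y [p])) :
    ∃ S : Finset (Wd 𝔽.G), S.card ≤ 𝔠.K ∧
      (∀ s ∈ S, 𝔽.cw s ∧ s.2.length ≤ x.2.length + 𝔠.K ∧ ((∃ p, s = ext x [p]) ∨ ∃ s' ∈ S, ∃ p, s = ext s' [p])) ∧
      EntV 𝔽 E ((↑V \ {y | Eqw 𝔽 E x y}) ∪ ↑S) := by
  classical
  obtain ⟨⟨r, a, hra⟩, hxl⟩ := hV x hx
  have hK := 𝔠.hK
  have hR := bR1_add (𝔠 := 𝔠)
  have hsx : 𝔽.sh x := by unfold Fr.sh; omega
  have hroot : ∀ t, rtw 𝔽 t → ¬ Eqw 𝔽 E x t := fun t ht h => hna (AncA.root ht h)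
  have hpure : ∀ n, EqvGen (VRel 𝔽 E 𝔽.G.P) (.inr x) n → ∃ y, n = .inr y ∧ 𝔽.sh y ∧ Eqw 𝔽 E x y :=
    fun n h => vrel_pure hv hsx ⟨r, a, hra⟩ hroot h
  -- words with larger paths are not equivalent to `x`
  have hshp : ∀ p, 𝔽.sh (ext x [p]) := fun p => sh_app (by omega) p
  have hshpp : ∀ p p', 𝔽.sh (ext (ext x [p]) [p']) := by
    intro p p'
    refine sh_app ?_ p'
    rw [ext_snd, List.length_append, List.length_singleton]
    omega
  have hn1 : ∀ p, ¬ Eqw 𝔽 E x (ext x [p]) := by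
    intro p h
    have h1 := rkw_app hv hsx ⟨r, a, hra⟩ p
    rw [← rkw_eqw h] at h1
    exact lt_irrefl _ h1
  have hn2 : ∀ p, 𝔽.cw (ext x [p]) → ∀ p', ¬ Eqw 𝔽 E x (ext (ext x [p]) [p']) := by
    intro p hp p' h
    have h1 := rkw_app hv hsx ⟨r, a, hra⟩ p
    have h2 := rkw_app hv (hshp p) hp p'
    rw [← rkw_eqw h] at h2
    omega
  let S : Finset (Wd 𝔽.G) := (Finset.univ.image (fun j : Fin (bd r).length => ext x [bl r j])).filter (fun y => 𝔽.cw y)
  have hS : ∀ s ∈ S, 𝔽.cw s ∧ ∃ p, s = ext x [p] := by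
    intro s hs
    obtain ⟨h1, h2⟩ := Finset.mem_filter.1 hs
    obtain ⟨j, -, rfl⟩ := Finset.mem_image.1 h1
    exact ⟨h2, bl r j, rfl⟩
  refine ⟨S, ?_, ?_, ?_⟩
  · refine (Finset.card_filter_le _ _).trans (Finset.card_image_le.trans ?_)
    rw [Finset.card_univ, Fintype.card_fin]
    have h1 := le_mm r
    have h2 := 𝔠.hm
    omega
  · intro s hs
    obtain ⟨h1, p, rfl⟩ := hS s hs
    refine ⟨h1, ?_, Or.inl ⟨p, rfl⟩⟩
    rw [ext_snd, List.length_append, List.length_singleton]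
    omega
  -- the cell at `x` on top of the remaining cells
  set F₀ : Set (Atom ar ((𝔽.G.X ⊕ Tm T D) ⊕ Wd 𝔽.G)) := fcells 𝔽 ∪ vcells 𝔽 ((↑V \ {y | Eqw 𝔽 E x y}) ∪ ↑S) with hF₀
  have hcell : hdAtom r (Sum.inr x : (𝔽.G.X ⊕ Tm T D) ⊕ Wd 𝔽.G) (fun v => .inr (ext x [vl r v])) =
      cell r (.inr x) (fun p => .inr (ext x [p])) := by
    unfold hdAtom cell
    congr 1
    funext p
    rcases headOf r p with _ | v <;> rfl
  have hins : EntG T 𝔠.J 𝔠.q (VRel 𝔽 E 𝔽.G.P) (fun d => .inl (.inl (𝔽.G.cD d)))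
      (insert (hdAtom r (Sum.inr x : (𝔽.G.X ⊕ Tm T D) ⊕ Wd 𝔽.G) (fun v => .inr (ext x [vl r v]))) F₀) := by
    refine Pool.Agent.WFC.EntG.map hE id (fun x y hxy => EqvGen.rel _ _ hxy) (fun d => EqvGen.refl _) ?_
    rintro α (hα | ⟨y, hy, r', a', hr', rfl⟩)
    · exact ⟨α.2, Or.inr (Or.inl hα), fun p => EqvGen.refl _⟩
    · by_cases hxy : Eqw 𝔽 E x y
      · obtain ⟨a'', ha''⟩ := class_rule hv hsx hra hxy
        rw [hr'] at ha''
        simp only [Option.some.injEq, Tm.f.injEq] at ha''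
        obtain ⟨rfl, -⟩ := ha''
        refine ⟨(cell r' (.inr x) (fun p => .inr (ext x [p])) : Atom ar ((𝔽.G.X ⊕ Tm T D) ⊕ Wd 𝔽.G)).2,
          Or.inl hcell.symm, ?_⟩
        intro i
        have hyl := (hV y hy).2
        refine cell_rel (Q := EqvGen (VRel 𝔽 E 𝔽.G.P)) ?_ ?_ i
        · exact EqvGen.symm _ _ (EqvGen.rel _ _ (.wd hsx (by unfold Fr.sh; omega) hxy))
        · intro p
          exact EqvGen.symm _ _ (EqvGen.rel _ _ (.wd (hshp p) (sh_app (by omega) p) (hxy.ext [p])))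
      · exact ⟨(cell r' (.inr y) (fun p => .inr (ext y [p])) : Atom ar ((𝔽.G.X ⊕ Tm T D) ⊕ Wd 𝔽.G)).2,
          Or.inr (Or.inr ⟨y, Or.inl ⟨hy, hxy⟩, r', a', hr', rfl⟩), fun p => EqvGen.refl _⟩
  refine Pool.Agent.WFC.EntG.descent r (Sum.inr x) (fun v => .inr (ext x [vl r v])) ?_ ?_ ?_ ?_ hins
  · -- the atoms do not touch `x`
    rintro α (⟨β, hβ, rfl⟩ | ⟨y, hy, r', a', hr', rfl⟩) p hp
    · obtain ⟨y, h1, -⟩ := hpure _ hp
      cases h1
    · obtain ⟨z, hz, -, hxz⟩ := hpure _ hp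
      have h3 : z = y ∨ ∃ p', z = ext y [p'] := by
        rcases hq : headOf r' p with _ | v
        · rw [cell_snd_none hq] at hz
          exact Or.inl (Sum.inr.inj hz).symm
        · rw [cell_snd_some hq] at hz
          exact Or.inr ⟨_, (Sum.inr.inj hz).symm⟩
      rcases hy with ⟨hy, hxy⟩ | hy
      · rcases h3 with rfl | ⟨p', rfl⟩
        · exact hxy hxz
        · exact hun y hy p' hxz
      · obtain ⟨h4, p'', rfl⟩ := hS y hy
        rcases h3 with rfl | ⟨p', rfl⟩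
        · exact hn1 _ hxz
        · exact hn2 _ h4 _ hxz
  · intro d hd
    obtain ⟨y, h1, -⟩ := hpure _ hd
    cases h1
  · intro v hp
    obtain ⟨y, h1, -, h2⟩ := hpure _ hp
    cases h1
    exact hn1 _ h2
  · -- the body holds
    intro N I hI h hR hJ hF b hb
    obtain ⟨j, rfl⟩ := List.get_of_mem hb
    have hleg : Leg 𝔠.t0 𝔠.J 𝔠.lN (.f r a) := Leg.sub 𝔽.ok.leg (val_mem_sub hra)
    have hvp : ∀ p, val (ext x [p]) = some (a p) := by
      intro p
      rw [val_ext, hra, Option.bind_some]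
      rfl
    rcases hleg.body j with ⟨s, hs1, hs2⟩ | ⟨r', a', s, hs1, hs2, hs3⟩
    · have h1 : (fun p => h (.inr (ext x [vl r (((bd r).get j).2 p)]))) =
          (fun d => h (.inl (.inl (𝔽.G.cD d)))) ∘ s := by
        funext p
        refine hR _ _ (.base (hshp _) ?_)
        rw [hvp, hs2]
      have h2 := hJ _ s hs1
      rw [← h1] at h2
      exact h2
    · have hval : val (ext x [bl r j]) = some (.f r' a') := by rw [hvp, hs1]
      have hyS : ext x [bl r j] ∈ S :=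
        Finset.mem_filter.2 ⟨Finset.mem_image.2 ⟨j, Finset.mem_univ _, rfl⟩, r', a', hval⟩
      have hfact := hF _ (Or.inr ⟨ext x [bl r j], Or.inr hyS, r', a', hval, rfl⟩)
      obtain ⟨u, hu1, hu2⟩ := cell_transfer (I := I) hs2 (h (.inr (ext x [bl r j])))
        (fun p => h (.inr (ext (ext x [bl r j]) [p]))) (by
          have h3 := amap_cell (ar := ar) h r' (.inr (ext x [bl r j])) (fun p => .inr (ext (ext x [bl r j]) [p]))
          have h4 : I (amap h (cell (ar := ar) r' (.inr (ext x [bl r j]))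
            (fun p => .inr (ext (ext x [bl r j]) [p])))).1 (amap h (cell (ar := ar) r' (.inr (ext x [bl r j]))
            (fun p => .inr (ext (ext x [bl r j]) [p])))).2 := hfact
          rw [h3] at h4
          exact h4)
        (fun t n => ∀ z : Wd 𝔽.G, 𝔽.sh z → Veq 𝔠.t0 𝔠.lN (val z) (some t) → h (.inr z) = n)
        (by
          intro z hz hzt
          refine hR _ _ (.wd hz (hshp _) (Eqw.of_gen (Gen.eq hz (hshp _) ?_)))
          rw [hval]
          exact hzt)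
        (by
          intro p z hz hzt
          refine hR _ _ (.wd hz (hshpp _ _) (Eqw.of_gen (Gen.eq hz (hshpp _ _) ?_)))
          rw [val_ext, hval, Option.bind_some]
          exact hzt)
      have h5 : (fun p => h (.inr (ext x [vl r (((bd r).get j).2 p)]))) = u := by
        funext p
        refine hu2 p _ (hshp _) ?_
        rw [hvp]
        exact (hs3 p).symm
      rw [← h5] at hu1
      exact hu1

end Pool.Agent.BF
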