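import Pool.Agent.BF.EV
import Pool.Agent.BF.US

set_option autoImplicit false

/-!
# CO: the certificate of a valid state all of whose tasks are solved
-/

namespace Pool.Agent.BF

open Pool.Agent.H56 Relation
open Pool.Agent.WFC (Atom amap EntG Small ElimSys AncA)

variable {k : ℕ} {ar : Fin k → ℕ} {T : List (Rule ar)} {D : Type} {𝔠 : Ctx T D} {𝔽 : Fr 𝔠} {E E' : St 𝔽} {B : ℕ}

theorem co_sh {x : Wd 𝔽.G} (h : x.2.length ≤ bR1 T 𝔠.K + 𝔠.K) : 𝔽.sh x := by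
  unfold Fr.sh
  have h1 : bR1 T 𝔠.K + 2 * 𝔠.K + 6 = bR T 𝔠.K := rfl
  omega

/-- The elimination system of a valid state all of whose tasks are solved. -/
noncomputable def elimSys (hv : Valid 𝔽 E B) (hsol : ∀ W M, TOk 𝔽 E W M → Solved 𝔽 E W M) :
    ElimSys 𝔠.K (mm T) where
  W := Wd 𝔽.G
  O := Oc 𝔽.G
  app := fun x p => ext x [p]
  len := fun x => x.2.length
  eqv := Eqw 𝔽 E
  X := XX 𝔽 E
  X' := XX' 𝔽 E
  cw := 𝔽.cw
  rt := rtw 𝔽
  rk := rkw 𝔽 E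
  E := EntV 𝔽 E
  R1 := bR1 T 𝔠.K
  finO := finite_oc 𝔽
  eqv_equiv := ⟨Eqw.refl, Eqw.symm, Eqw.trans⟩
  len_app := fun x p => by simp [ext]
  len_rt := by
    rintro t ⟨o, -, rfl⟩
    exact ow_len o
  app_eqv := fun x y p h => h.ext [p]
  X_eqv := fun x y h => XX_eqw h
  X'_eqv := fun x y h => XX'_eqw h
  X'_sub := XX'_sub
  X_app := XX_app
  cw_eqv := by
    rintro x y hl ⟨r, a, hr⟩ h
    obtain ⟨a', ha'⟩ := class_rule hv (co_sh (hl.trans (Nat.le_add_right _ _))) hr h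
    exact ⟨r, a', ha'⟩
  rk_eqv := fun x y h => rkw_eqw h
  rk_app := fun x p hl hx _ => rkw_app hv (co_sh hl) hx p
  E_mono := fun V V' h hE => hE.mono h
  E_small := fun V hE => hE.small V
  E_ren := by
    intro V V' hV hV' hVV hE
    have h1 : bR1 T 𝔠.K + 2 * 𝔠.K + 6 = bR T 𝔠.K := rfl
    refine EntV.ren hv (fun x hx => ⟨(hV x hx).1, ?_⟩) (fun x hx => ?_) hVV hE
    · have h2 := (hV x hx).2
      omega
    · have h2 := hV' x hx
      omega
  solveS := by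
    intro V M P hP hV hE hne hun
    subst hP
    exact hsol V M ⟨fun x hx => (hV x hx).1, fun x hx => (hV x hx).2, hE, hne, hun⟩
  solveU := by
    intro V x hV hE hx hna _ hun
    exact us_step hv hV hE hx hna hun

/-- Names as pairs of a root occurrence and a path, closed under predecessors. -/
theorem co_names (V : Finset (Wd 𝔽.G)) (f : Wd 𝔽.G → Wd 𝔽.G) (lv : Wd 𝔽.G → ℕ)
    (h : ∀ x ∈ V, (lv x = 0 ∧ rtw 𝔽 (f x)) ∨ ∃ y ∈ V, ∃ p, lv y + 1 = lv x ∧ f x = ext (f y) [p]) :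
    ∃ g : Wd 𝔽.G → Oc 𝔽.G × Pth T, ∀ x ∈ V, Rt 𝔽 (g x).1 ∧ f x = ext (ow (g x).1) (g x).2 ∧
      ∀ p z, (g x).2 = p :: z → ∃ y ∈ V, g y = ((g x).1, z) := by
  classical
  rcases V.eq_empty_or_nonempty with rfl | ⟨x₀, hx₀⟩
  · rcases isEmpty_or_nonempty (Wd 𝔽.G) with hW | ⟨⟨w⟩⟩
    · exact ⟨fun x => (hW.elim x), by simp⟩
    · exact ⟨fun _ => ((w.1, none), []), by simp⟩
  have key : ∀ n : ℕ, ∃ g : Wd 𝔽.G → Oc 𝔽.G × Pth T, ∀ x ∈ V, lv x < n → Rt 𝔽 (g x).1 ∧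
      f x = ext (ow (g x).1) (g x).2 ∧ ∀ p z, (g x).2 = p :: z → ∃ y ∈ V, lv y < n ∧ g y = ((g x).1, z) := by
    intro n
    induction n with
    | zero => exact ⟨fun _ => ((x₀.1, none), []), fun x _ h => absurd h (Nat.not_lt_zero _)⟩
    | succ n ih =>
      obtain ⟨g, hg⟩ := ih
      have hex : ∀ x, ∃ c : Oc 𝔽.G × Pth T, (x ∈ V → lv x < n → c = g x) ∧ (x ∈ V → lv x = n →
          Rt 𝔽 c.1 ∧ f x = ext (ow c.1) c.2 ∧
          ∀ p z, c.2 = p :: z → ∃ y ∈ V, lv y < n ∧ g y = (c.1, z)) := by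
        intro x
        by_cases hx : x ∈ V ∧ lv x = n
        · obtain ⟨hx, hxn⟩ := hx
          rcases h x hx with ⟨h0, o, ho, hfo⟩ | ⟨y, hy, p, h1, h2⟩
          · refine ⟨(o, []), fun _ hlt => absurd hxn (by omega), fun _ _ => ⟨ho, ?_, ?_⟩⟩
            · rw [hfo]
              rfl
            · intro p z hpz
              cases hpz
          · have hyn : lv y < n := by omega
            obtain ⟨a1, a2, -⟩ := hg y hy hyn
            refine ⟨((g y).1, p :: (g y).2), fun _ hlt => absurd hxn (by omega), fun _ _ => ⟨a1, ?_, ?_⟩⟩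
            · rw [h2, a2]
              exact ext_cons _ _ _
            · intro p' z hpz
              cases hpz
              exact ⟨y, hy, hyn, rfl⟩
        · exact ⟨g x, fun _ _ => rfl, fun h1 h2 => absurd ⟨h1, h2⟩ hx⟩
      choose g' hg1 hg2 using hex
      refine ⟨g', fun x hx hlt => ?_⟩
      have hlift : ∀ (c : Oc 𝔽.G) (z : Pth T), (∃ y ∈ V, lv y < n ∧ g y = (c, z)) →
          ∃ y ∈ V, lv y < n + 1 ∧ g' y = (c, z) := by
        rintro c z ⟨y, hy, hyn, hgy⟩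
        exact ⟨y, hy, by omega, by rw [hg1 y hy hyn, hgy]⟩
      rcases Nat.lt_or_eq_of_le (Nat.lt_succ_iff.1 hlt) with hlt' | heq
      · obtain ⟨a1, a2, a3⟩ := hg x hx hlt'
        rw [hg1 x hx hlt']
        exact ⟨a1, a2, fun p z hpz => hlift _ _ (a3 p z hpz)⟩
      · obtain ⟨a1, a2, a3⟩ := hg2 x hx heq
        exact ⟨a1, a2, fun p z hpz => hlift _ _ (a3 p z hpz)⟩
  obtain ⟨g, hg⟩ := key (V.sup lv + 1)
  refine ⟨g, fun x hx => ?_⟩
  obtain ⟨a1, a2, a3⟩ := hg x hx (Nat.lt_succ_of_le (Finset.le_sup (f := lv) hx))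
  refine ⟨a1, a2, fun p z hpz => ?_⟩
  obtain ⟨y, hy, -, hgy⟩ := a3 p z hpz
  exact ⟨y, hy, hgy⟩

/-- The map of the nodes and words to the nodes: words go to their values. -/
theorem co_map (𝔽 : Fr 𝔠) : ∃ g : (𝔽.G.X ⊕ Tm T D) ⊕ Wd 𝔽.G → 𝔽.G.X ⊕ Tm T D, (∀ a, g (.inl a) = a) ∧
    (∀ w t, val w = some t → g (.inr w) = .inr t) ∧
    ∀ w w' : Wd 𝔽.G, val w = none → val w' = none → g (.inr w) = g (.inr w') := by
  rcases isEmpty_or_nonempty (Tm T D) with hT | ⟨⟨t₀⟩⟩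
  · have hW : IsEmpty (Wd 𝔽.G) := ⟨fun w => hT.elim w.1.1⟩
    exact ⟨fun n => match n with
      | .inl a => a
      | .inr w => hW.elim w, fun _ => rfl, fun w => hW.elim w, fun w => hW.elim w⟩
  · refine ⟨fun n => match n with
      | .inl a => a
      | .inr w => (val w).elim (.inr t₀) .inr, fun _ => rfl, fun w t h => ?_, fun w w' h h' => ?_⟩
    · simp only [h, Option.elim_some]
    · simp only [h, h', Option.elim_none]

/-- Renaming of anchored names to words below the terms of `P`. -/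
theorem co_cert (hv : Valid 𝔽 E B) (V : Finset (Wd 𝔽.G)) (hc : V.card ≤ 𝔠.K)
    (hV : ∀ x ∈ V, 𝔽.cw x ∧ x.2.length ≤ bR1 T 𝔠.K) (hE : EntV 𝔽 E ↑V) (g : Wd 𝔽.G → Oc 𝔽.G × Pth T)
    (hg : ∀ x ∈ V, Rt 𝔽 (g x).1 ∧ Eqw 𝔽 E x (ext (ow (g x).1) (g x).2) ∧ (g x).2.length ≤ 𝔠.K ∧
      ∀ p z, (g x).2 = p :: z → ∃ y ∈ V, g y = ((g x).1, z)) : 𝔠.Cert 𝔽.G 𝔽.l := by
  classical
  have hKN : 𝔠.K + 2 ≤ bN T 𝔠.K := by
    unfold bN
    omega
  have hmu : 𝔽.mu = 𝔽.l + 3 * bN T 𝔠.K := rfl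
  -- the terms of the root occurrences
  have hT : ∀ o : Oc 𝔽.G, ∃ t : Tm T D, Rt 𝔽 o → OccP 𝔽.G.P t ∧ Veq 𝔠.t0 𝔽.mu (val (ow o)) (some t) := by
    intro o
    by_cases ho : Rt 𝔽 o
    · obtain ⟨t, ht⟩ := ho
      exact ⟨t, fun _ => ht⟩
    · exact ⟨o.1.1, fun h => absurd h ho⟩
  choose τ hτ using hT
  -- the value of a name
  have hval : ∀ x ∈ V, ∀ r a, val x = some (.f r a) → ∃ a', up (g x).2 (τ (g x).1) = some (.f r a') ∧
      Veq 𝔠.t0 (𝔽.l + 1) (some (.f r a)) (some (.f r a')) := by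
    intro x hx r a hra
    obtain ⟨h1, h2, h3, -⟩ := hg x hx
    obtain ⟨-, h4⟩ := hτ _ h1
    have hsx : 𝔽.sh x := co_sh ((hV x hx).2.trans (Nat.le_add_right _ _))
    have h5 := class_veq hv hsx (by rw [hra]; simp) h2
    have h6 : Veq 𝔠.t0 (𝔽.l + 1) (val (ext (ow (g x).1) (g x).2)) (up (g x).2 (τ (g x).1)) := by
      rw [val_ext]
      exact h4.bind (g x).2 (by omega)
    have h7 : Veq 𝔠.t0 (𝔽.l + 1) (some (.f r a)) (up (g x).2 (τ (g x).1)) := by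
      rw [← hra]
      exact (h5.mono (by omega)).trans h6
    obtain ⟨a', ha'⟩ := h7.rule 𝔠.tab
    rw [ha'] at h7
    exact ⟨a', ha', h7⟩
  refine ⟨V.image (fun x => (τ (g x).1, (g x).2)), Finset.card_image_le.trans hc, ?_, ?_⟩
  · intro y hy
    obtain ⟨x, hx, rfl⟩ := Finset.mem_image.1 hy
    obtain ⟨h1, -, h3, h4⟩ := hg x hx
    obtain ⟨r, a, hra⟩ := (hV x hx).1
    obtain ⟨a', ha', -⟩ := hval x hx r a hra
    refine ⟨(hτ _ h1).1, h3, ⟨r, a', ha'⟩, fun p z hpz => ?_⟩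
    obtain ⟨y, hy, hgy⟩ := h4 p z hpz
    exact Finset.mem_image.2 ⟨y, hy, by rw [hgy]⟩
  · obtain ⟨φ, hφ1, hφ2, hφ3⟩ := co_map 𝔽
    refine Pool.Agent.WFC.EntG.map hE φ ?_ (fun d => ?_) ?_
    · intro u v huv
      cases huv with
      | @gl a b h =>
        rw [hφ1, hφ1]
        refine EqvGen.rel _ _ ?_
        cases h with
        | nd h => exact .nd h
        | ty h => exact .ty (h.mono (by omega))
        | cst d => exact .cst d
        | id h => exact .id h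
      | @wd x y hx hy hxy =>
        rcases hvx : val x with _ | s
        · have hvy : val y = none := by
            by_contra hvy
            exact (class_veq hv hy hvy hxy.symm).ne_none hvy hvx
          rw [hφ3 x y hvx hvy]
          exact EqvGen.refl _
        · have h1 := class_veq hv hx (by rw [hvx]; simp) hxy
          obtain ⟨t, ht⟩ := Option.ne_none_iff_exists'.1 (h1.ne_none (by rw [hvx]; simp))
          rw [hφ2 x s hvx, hφ2 y t ht]
          rw [hvx, ht] at h1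
          exact EqvGen.rel _ _ (.ty (h1.mono (by omega)))
      | @root o t h1 h2 =>
        obtain ⟨s, hs⟩ := Option.ne_none_iff_exists'.1 (h2.symm.ne_none (by simp))
        rw [hφ2 _ s hs, hφ1]
        rw [hs] at h2
        exact EqvGen.rel _ _ (.ty (h2.mono (by omega)))
      | @base x d h1 h2 =>
        rw [hφ2 _ _ h2, hφ1]
        exact EqvGen.symm _ _ (EqvGen.rel _ _ (.cst d))
    · rw [hφ1]
      exact EqvGen.refl _
    · rintro α (⟨β, hβ, rfl⟩ | ⟨x, hx, r, a, hra, rfl⟩)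
      · exact ⟨fun p => .inl (β.2 p), Or.inl ⟨β, hβ, rfl⟩, fun p => by
          rw [show (amap (fun n => Sum.inl (Sum.inl n)) β : Atom ar ((𝔽.G.X ⊕ Tm T D) ⊕ Wd 𝔽.G)).2 p =
            Sum.inl (Sum.inl (β.2 p)) from rfl, hφ1]
          exact EqvGen.refl _⟩
      · obtain ⟨a', ha', h7⟩ := hval x hx r a hra
        refine ⟨(cell r (.inr (.f r a')) (fun p => .inr (a' p)) : Atom ar (𝔽.G.X ⊕ Tm T D)).2,
          Or.inr ⟨r, a', ⟨_, Finset.mem_image.2 ⟨x, hx, rfl⟩, ha'⟩, rfl⟩, ?_⟩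
        intro i
        have h8 : EqvGen (Gl 𝔠.t0 𝔽.G.R 𝔽.G.cD 𝔽.l 𝔽.G.P) (φ (.inr x)) (.inr (.f r a')) := by
          rw [hφ2 x _ hra]
          exact EqvGen.rel _ _ (.ty (h7.mono (Nat.le_succ _)))
        have h9 : ∀ p, EqvGen (Gl 𝔠.t0 𝔽.G.R 𝔽.G.cD 𝔽.l 𝔽.G.P) (φ (.inr (ext x [p]))) (.inr (a' p)) := by
          intro p
          rw [hφ2 (ext x [p]) (a p) (by rw [val_ext, hra, Option.bind_some]; rfl)]
          exact EqvGen.rel _ _ (.ty (h7.arg p))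
        rcases h : headOf r i with _ | y
        · rw [cell_snd_none h, cell_snd_none h]
          exact h8
        · rw [cell_snd_some h, cell_snd_some h]
          exact h9 _

/-- THE COMBINATORIAL LEMMA. -/
theorem comb (hv : Valid 𝔽 E B) (hsol : ∀ W M, TOk 𝔽 E W M → Solved 𝔽 E W M) : 𝔠.Cert 𝔽.G 𝔽.l := by
  classical
  have := finite_rw 𝔽
  let _ := Fintype.ofFinite (Rw 𝔽.G)
  obtain ⟨V₀, hc₀, hV₀, hE₀⟩ : ∃ V₀ : Finset (Wd 𝔽.G), V₀.card ≤ 𝔠.K ∧ (∀ x ∈ V₀, 𝔽.cw x ∧ x.2.length ≤ 1) ∧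
      EntV 𝔽 E ↑V₀ := by
    refine ⟨Finset.univ.image (fun e : Rw 𝔽.G => ((e, []) : Wd 𝔽.G)), ?_, ?_, ?_⟩
    · refine Finset.card_image_le.trans ?_
      rw [Finset.card_univ, ← Nat.card_eq_fintype_card]
      exact card_rw 𝔽
    · intro x hx
      obtain ⟨e, -, rfl⟩ := Finset.mem_image.1 hx
      obtain ⟨r, a, h⟩ := 𝔽.ok.nc e.1 e.2
      exact ⟨⟨r, a, by rw [val_top, h]⟩, Nat.zero_le _⟩
    · have hcoe : (↑(Finset.univ.image (fun e : Rw 𝔽.G => ((e, []) : Wd 𝔽.G))) : Set (Wd 𝔽.G)) =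
          {x | x.2 = []} := by
        ext x
        simp only [Finset.coe_image, Finset.coe_univ, Set.image_univ, Set.mem_range, Set.mem_ofPred_eq]
        constructor
        · rintro ⟨e, rfl⟩
          rfl
        · intro h
          exact ⟨x.1, Prod.ext rfl h.symm⟩
      rw [hcoe]
      exact entV_init
  obtain ⟨V, hc, hV, hE⟩ := (elimSys hv hsol).final (ω := bω T 𝔠.K) (card_oc 𝔽) (le_refl _) V₀ hc₀ hV₀ hE₀
  obtain ⟨f, lv, hf⟩ := (elimSys hv hsol).names V (fun x hx => (hV x hx).2.2)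
  have hlen := WFC.EL4_len (elimSys hv hsol) V hf
  obtain ⟨g, hg⟩ := co_names V f lv (fun x hx => (hf x hx).2)
  refine co_cert hv V hc (fun x hx => ⟨(hV x hx).1, (hV x hx).2.1⟩) hE g (fun x hx => ?_)
  obtain ⟨h1, h2, h3⟩ := hg x hx
  have h4 : (f x).2.length ≤ V.card := hlen x hx
  refine ⟨h1, ?_, ?_, h3⟩
  · have h5 : Eqw 𝔽 E x (f x) := (hf x hx).1
    rwa [h2] at h5
  · rw [h2, ext_snd, List.length_append] at h4
    omega

end Pool.Agent.BF
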