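import Mathlib
import Pool.Agent.WFC.SM
import Pool.Agent.WFC.EL5

set_option autoImplicit false

/-!
# Finite controllability for rewritable queries: definitions

See `/team-store/notes_MP_46e064_lc_full_helper39.md` for the whole proof on paper.
-/

namespace Pool.Agent.BF

open Pool.Agent.H56 Relation
open Pool.Agent.WFC (Atom amap EntG Small ElimSys AncA)

variable {k : ℕ} {ar : Fin k → ℕ}

/-! ### Letters, terms, paths -/

/-- The number of letters: enough for the body variables and the body atoms of every rule. -/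
def mm (T : List (Rule ar)) : ℕ := (T.map (fun r => r.1 + r.2.1.length)).sum + 1

variable {T : List (Rule ar)} {D : Type}

/-- The number of body variables of a rule. -/
abbrev nv (r : Fin T.length) : ℕ := (T.get r).1

/-- The body of a rule. -/
abbrev bd (r : Fin T.length) : List (Σ i : Fin k, Fin (ar i) → Fin (nv r)) := (T.get r).2.1

theorem le_mm (r : Fin T.length) : nv r + (bd r).length + 1 ≤ mm T := by
  have h : nv r + (bd r).length ≤ (T.map (fun r => r.1 + r.2.1.length)).sum :=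
    List.le_sum_of_mem (List.mem_map.mpr ⟨T.get r, List.get_mem T r, rfl⟩)
  unfold mm
  omega

/-- The letter of a body variable. -/
def vl (r : Fin T.length) (x : Fin (nv r)) : Fin (mm T) :=
  ⟨x.1, lt_of_lt_of_le x.2 (le_trans (Nat.le_add_right _ _) ((Nat.le_succ _).trans (le_mm r)))⟩

/-- The letter of a body atom. -/
def bl (r : Fin T.length) (j : Fin (bd r).length) : Fin (mm T) :=
  ⟨nv r + j.1, lt_of_lt_of_le (Nat.add_lt_add_left j.2 _) ((Nat.le_succ _).trans (le_mm r))⟩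

/-- Paths. LAST STEP FIRST: the path `p :: w` is the path `w` followed by the step `p`. -/
abbrev Pth (T : List (Rule ar)) : Type := List (Fin (mm T))

/-- Terms: constants, and `f r a` with arguments `a` (the values of the body variables and one term for every body
atom; the other arguments are padded). -/
inductive Tm (T : List (Rule ar)) (D : Type) : Type
  | c : D → Tm T D
  | f : Fin T.length → (Fin (mm T) → Tm T D) → Tm T D

/-- The constant or the rule of a term. -/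
def lab : Tm T D → D ⊕ Fin T.length
  | .c d => .inl d
  | .f r _ => .inr r

/-- One step. -/
def up1 (p : Fin (mm T)) : Tm T D → Option (Tm T D)
  | .c _ => none
  | .f _ a => some (a p)

/-- The subterm along a path (last step first). -/
def up : Pth T → Tm T D → Option (Tm T D)
  | [], e => some e
  | p :: w, e => (up w e).bind (up1 p)

/-- The depth of a term. -/
def dep : Tm T D → ℕ
  | .c _ => 0
  | .f _ a => Finset.univ.sup (fun p => dep (a p)) + 1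

/-- The head atom of the rule `r` with `top` at the positions of the existential variable and `arg (vl r x)` at the
positions of the body variable `x`. -/
def cell {X : Type} (r : Fin T.length) (top : X) (arg : Fin (mm T) → X) : Atom ar X :=
  ⟨symOf r, fun p => match headOf r p with
    | none => top
    | some x => arg (vl r x)⟩

/-- The cells of the terms of `V`, over the nodes `g t`. -/
def tcells {X : Type} (g : Tm T D → X) (V : Set (Tm T D)) : Set (Atom ar X) :=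
  {α | ∃ r a, Tm.f r a ∈ V ∧ α = cell r (g (.f r a)) (fun p => g (a p))}

/-- All subterms of the terms of `V`. -/
def Sub (V : Set (Tm T D)) : Set (Tm T D) := {t | ∃ s ∈ V, ∃ w, up w s = some t}

/-! ### Tables, types -/

section

variable {C : Type} (t0 : Tm T D → C)

/-- Optional terms with the same labels along all paths of length at most `l`. -/
def Veq (l : ℕ) (x y : Option (Tm T D)) : Prop :=
  ∀ w : Pth T, w.length ≤ l → (x.bind (up w)).map t0 = (y.bind (up w)).map t0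

/-- Terms of the same type of level `l`. -/
abbrev Teq (l : ℕ) (s t : Tm T D) : Prop := Veq t0 l (some s) (some t)

/-- Good tables: labels, acyclicity, recharging. -/
structure GoodTab (N V Mx : ℕ) : Prop where
  lab : ∀ s t, t0 s = t0 t → lab s = lab t
  acyc : ∀ (z : Pth T) (s t : Tm T D), z ≠ [] → z.length ≤ N → up z s = some t → t0 s ≠ t0 t
  rech : ∀ M ≤ Mx, ∀ (O : Type) [Finite O] [Nonempty O], Nat.card O ≤ V → ∀ (b : O → Tm T D)
    (pi : O → Pth T → Pth T → Prop) (cl : O → O → Prop),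
    (∀ o o', cl o o' → (∀ z z', pi o z z' ↔ pi o' z z') ∧ t0 (b o) = t0 (b o')) →
    (∀ o z z', pi o z z' → (z ≠ [] ∧ z.length < N) ∧ (z' ≠ [] ∧ z'.length < N)) →
    (∀ o z z', pi o z z' → EqvGen (fun p q : O × Pth T =>
      (p.2 ≠ [] ∧ p.2.length < N) ∧ (q.2 ≠ [] ∧ q.2.length < N) ∧
      ((p.2 = q.2 ∧ cl p.1 q.1) ∨ Veq t0 M (up p.2 (b p.1)) (up q.2 (b q.1)))) (o, z) (o, z')) →
    ∃ o, ∀ z z', pi o z z' → Veq t0 M (up z (b o)) (up z' (b o))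

/-- The body atom `j` of `r` holds at the arguments `a`: either it is a fact of `J`, or the argument `a (bl r j)` has a
head atom with the same symbol whose arguments are, up to the level `N'`, the values of the variables. -/
def BodyOk (J : Inst ar D) (N' : ℕ) (r : Fin T.length) (a : Fin (mm T) → Tm T D) (j : Fin (bd r).length) : Prop :=
  (∃ s : Fin (ar ((bd r).get j).1) → D, J ((bd r).get j).1 s ∧ ∀ i, a (vl r (((bd r).get j).2 i)) = .c (s i)) ∨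
  (∃ (r' : Fin T.length) (a' : Fin (mm T) → Tm T D) (s : Fin (ar ((bd r).get j).1) → Tm T D),
    a (bl r j) = .f r' a' ∧ cell r' (.f r' a') a' = (⟨((bd r).get j).1, s⟩ : Atom ar (Tm T D)) ∧
    ∀ i, Teq t0 N' (s i) (a (vl r (((bd r).get j).2 i))))

/-- Legal terms. -/
inductive Leg (J : Inst ar D) (N' : ℕ) : Tm T D → Prop
  | c (d : D) : Leg J N' (.c d)
  | f (r : Fin T.length) (a : Fin (mm T) → Tm T D) : (∀ p, Leg J N' (a p)) → (∀ j, BodyOk t0 J N' r a j) →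
      Leg J N' (.f r a)

/-! ### Patterns -/

/-- The identifications of level `l` on `X ⊕ Tm`: the free ones (`R`, equal types, constants) and the costly ones
(`P`). -/
inductive Gl {X : Type} (R : X → X → Prop) (cD : D → X) (l : ℕ) (P : Set ((X ⊕ Tm T D) × (X ⊕ Tm T D))) :
    X ⊕ Tm T D → X ⊕ Tm T D → Prop
  | nd {a b : X} : R a b → Gl R cD l P (.inl a) (.inl b)
  | ty {s t : Tm T D} : Teq t0 l s t → Gl R cD l P (.inr s) (.inr t)
  | cst (d : D) : Gl R cD l P (.inl (cD d)) (.inr (.c d))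
  | id {α β : X ⊕ Tm T D} : (α, β) ∈ P → Gl R cD l P α β

/-- The context atoms `F` and the cells of the terms of `V`, with the identifications of level `l`, entail `q`. -/
def Bad (J : Inst ar D) (q : CQ ar) {X : Type} (R : X → X → Prop) (cD : D → X) (l : ℕ) (F : Set (Atom ar X))
    (V : Set (Tm T D)) (P : Set ((X ⊕ Tm T D) × (X ⊕ Tm T D))) : Prop :=
  EntG T J q (Gl t0 R cD l P) (fun d => .inl (cD d)) ((amap Sum.inl) '' F ∪ tcells Sum.inr V)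

end

/-- A term occurs in a pair of `P`. -/
def OccP {X : Type} (P : Set ((X ⊕ Tm T D) × (X ⊕ Tm T D))) (t : Tm T D) : Prop :=
  ∃ p ∈ P, p.1 = .inr t ∨ p.2 = .inr t

/-- A pattern. -/
structure Pat (T : List (Rule ar)) (D : Type) : Type 1 where
  X : Type
  R : X → X → Prop
  cD : D → X
  F : Set (Atom ar X)
  V : Set (Tm T D)
  P : Set ((X ⊕ Tm T D) × (X ⊕ Tm T D))

/-! ### Constants -/

/-- The bound for the number of occurrences. -/
def bω (T : List (Rule ar)) (K : ℕ) : ℕ := K * (mm T + 1)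

/-- The bound for the length of the words in a big round (as in `WFC.ElimSys.final`). -/
def bR1 (T : List (Rule ar)) (K : ℕ) : ℕ :=
  (K + K * (K * (K + 1) ^ (2 * bω T K + 1))) + 1 + (K + 1) * (K * (K + 1) ^ (2 * bω T K + 1))

/-- Short words have length at most `bR`. -/
def bR (T : List (Rule ar)) (K : ℕ) : ℕ := bR1 T K + 2 * K + 6

/-- The bound for the number of short words. -/
def bNsh (T : List (Rule ar)) (K : ℕ) : ℕ := K * (mm T + 1) ^ bR T K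

/-- Words equivalent to short words have length less than `bN`. -/
def bN (T : List (Rule ar)) (K : ℕ) : ℕ := bNsh T K + bR T K + K + 2

/-- The bound for the number of pairs of short words. -/
def bP (T : List (Rule ar)) (K : ℕ) : ℕ := bNsh T K ^ 2

/-- The bound for the minimal sizes (`d` is the number of constants). -/
def bS (_ : List (Rule ar)) (K d : ℕ) : ℕ := K + (K * Finset.univ.sup ar + d) ^ 2

/-- The levels used by one task. -/
def bSt (T : List (Rule ar)) (K d : ℕ) : ℕ := 3 * bN T K * (bS T K d + 1) + bN T K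

/-- The levels used by one size. -/
def bDel (T : List (Rule ar)) (K d : ℕ) : ℕ := 3 * bN T K + (bP T K + 1) * bSt T K d

/-- The highest level. -/
def bMx (T : List (Rule ar)) (K d : ℕ) : ℕ := (bS T K d + 1) * bDel T K d

/-- The level of the model. -/
def bN' (T : List (Rule ar)) (K d : ℕ) : ℕ := bMx T K d + 3 * bN T K

/-! ### The fixed data -/

/-- The fixed data: an instance, a query, the bound `K` for small supports, a good table. -/
structure Ctx (T : List (Rule ar)) (D : Type) : Type 1 where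
  J : Inst ar D
  q : CQ ar
  K : ℕ
  hK : 1 ≤ K
  hm : mm T ≤ K
  sm : Small T J q K
  C : Type
  t0 : Tm T D → C
  tab : GoodTab t0 (bN T K) (bω T K) (bMx T K (Nat.card D))

namespace Ctx

variable (𝔠 : Ctx T D)

/-- The level of the model. -/
noncomputable def lN : ℕ := bN' T 𝔠.K (Nat.card D)

/-- The entailment of level `l`. -/
abbrev Bd {X : Type} (R : X → X → Prop) (cD : D → X) (l : ℕ) (F : Set (Atom ar X)) (V : Set (Tm T D))
    (P : Set ((X ⊕ Tm T D) × (X ⊕ Tm T D))) : Prop := Bad 𝔠.t0 𝔠.J 𝔠.q R cD l F V P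

/-- A pattern has no bad sub-pattern of level `l` of size less than `s`. -/
def Tight (G : Pat T D) (l s : ℕ) : Prop :=
  ∀ (F : Set (Atom ar G.X)) (V : Set (Tm T D)) (P : Set ((G.X ⊕ Tm T D) × (G.X ⊕ Tm T D))),
    F ⊆ G.F → V ⊆ Sub G.V → V.Finite → P.Finite → (∀ p ∈ P, EqvGen (Gl 𝔠.t0 G.R G.cD l G.P) p.1 p.2) →
    𝔠.Bd G.R G.cD l F V P → s ≤ F.ncard + P.ncard

/-- Certificates: a prefix-closed set of at most `K` words below the terms of `P`, bad at the level `l`. -/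
def Cert (G : Pat T D) (l : ℕ) : Prop :=
  ∃ S : Finset (Tm T D × Pth T), S.card ≤ 𝔠.K ∧
    (∀ x ∈ S, OccP G.P x.1 ∧ x.2.length ≤ 𝔠.K ∧ (∃ r a, up x.2 x.1 = some (.f r a)) ∧
      ∀ p z, x.2 = p :: z → (x.1, z) ∈ S) ∧
    𝔠.Bd G.R G.cD l G.F {t | ∃ x ∈ S, up x.2 x.1 = some t} G.P

/-- The requirements for a pattern (depths less than `n`, size at most `s`, level `l`). -/
structure POk (G : Pat T D) (n s l : ℕ) : Prop where
  finF : G.F.Finite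
  finV : G.V.Finite
  finP : G.P.Finite
  cardF : G.F.ncard ≤ 𝔠.K
  cardV : G.V.ncard ≤ 𝔠.K
  leg : ∀ t ∈ G.V, Leg 𝔠.t0 𝔠.J 𝔠.lN t
  nc : ∀ t ∈ G.V, ∃ r a, t = .f r a
  dep : ∀ t ∈ G.V, dep t < n
  size : G.F.ncard + G.P.ncard ≤ s
  bad : 𝔠.Bd G.R G.cD (l + 3 * bN T 𝔠.K) G.F G.V G.P
  tight : 𝔠.Tight G l s

/-- The induction statement. -/
def PP (n s l : ℕ) : Prop := ∀ G : Pat T D, 𝔠.POk G n s l → 𝔠.Cert G l

end Ctx

/-! ### Frames: a fixed pattern -/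

/-- A frame: a pattern which satisfies the requirements. -/
structure Fr (𝔠 : Ctx T D) : Type 1 where
  G : Pat T D
  n : ℕ
  s : ℕ
  l : ℕ
  ok : 𝔠.POk G n s l
  hs : s ≤ bS T 𝔠.K (Nat.card D)
  hl : l ≤ s * bDel T 𝔠.K (Nat.card D)

section

variable {𝔠 : Ctx T D}

/-- The rows of a pattern. -/
abbrev Rw (G : Pat T D) : Type := {e : Tm T D // e ∈ G.V}

/-- Words: a row and a path. -/
abbrev Wd (G : Pat T D) : Type := Rw G × Pth T

/-- Occurrences: a row and `none` (its top) or `some p` (its argument `p`). -/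
abbrev Oc (G : Pat T D) : Type := Rw G × Option (Fin (mm T))

/-- The word of an occurrence: length 0 or 1. -/
def ow {G : Pat T D} (o : Oc G) : Wd G := (o.1, o.2.toList)

/-- Extension of a word by a path (which follows the word). -/
def ext {G : Pat T D} (x : Wd G) (z : Pth T) : Wd G := (x.1, z ++ x.2)

/-- The value of a word. -/
def val {G : Pat T D} (x : Wd G) : Option (Tm T D) := up x.2 x.1.1

/-- A state: a set of pairs of words. -/
abbrev St (𝔽 : Fr 𝔠) : Type := Set (Wd 𝔽.G × Wd 𝔽.G)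

/-- The level of the claims. -/
def Fr.mu (𝔽 : Fr 𝔠) : ℕ := 𝔽.l + 3 * bN T 𝔠.K

/-- Short words. -/
def Fr.sh (𝔽 : Fr 𝔠) (x : Wd 𝔽.G) : Prop := x.2.length ≤ bR T 𝔠.K

/-- Cell words: their value is not a constant. -/
def Fr.cw (𝔽 : Fr 𝔠) (x : Wd 𝔽.G) : Prop := ∃ r a, val x = some (.f r a)

/-- Generators: claims, equal values of short words at the level of the model, pairs of the state. -/
inductive Gen (𝔽 : Fr 𝔠) (E : St 𝔽) : Wd 𝔽.G → Wd 𝔽.G → Prop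
  | tr {o o' : Oc 𝔽.G} : Veq 𝔠.t0 𝔽.mu (val (ow o)) (val (ow o')) → Gen 𝔽 E (ow o) (ow o')
  | eq {x y : Wd 𝔽.G} : 𝔽.sh x → 𝔽.sh y → Veq 𝔠.t0 𝔠.lN (val x) (val y) → Gen 𝔽 E x y
  | mg {x y : Wd 𝔽.G} : (x, y) ∈ E → Gen 𝔽 E x y

/-- One step: an extension of a generator. -/
def Stp (𝔽 : Fr 𝔠) (E : St 𝔽) (x y : Wd 𝔽.G) : Prop :=
  ∃ g g' z, Gen 𝔽 E g g' ∧ x = ext g z ∧ y = ext g' z

/-- The equivalence of words. -/
def Eqw (𝔽 : Fr 𝔠) (E : St 𝔽) : Wd 𝔽.G → Wd 𝔽.G → Prop := EqvGen (Stp 𝔽 E)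

/-- The equivalence of words through words of length less than `B`. -/
def EqB (𝔽 : Fr 𝔠) (E : St 𝔽) (B : ℕ) : Wd 𝔽.G → Wd 𝔽.G → Prop :=
  EqvGen (fun x y => Stp 𝔽 E x y ∧ x.2.length < B ∧ y.2.length < B)

/-- The requirements for a word of a pair of the state. -/
structure WOk (𝔽 : Fr 𝔠) (E : St 𝔽) (w : Wd 𝔽.G) : Prop where
  len : w.2.length < bN T 𝔠.K
  dom : val w ≠ none
  tails : ∀ w', w' <:+ w.2 → ∃ x : Wd 𝔽.G, 𝔽.sh x ∧ EqB 𝔽 E (2 * bN T 𝔠.K + 1) (w.1, w') x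

/-- Valid states with strength `B`. -/
structure Valid (𝔽 : Fr 𝔠) (E : St 𝔽) (B : ℕ) : Prop where
  mu_le : 𝔽.mu ≤ B
  wok : ∀ x y, (x, y) ∈ E → WOk 𝔽 E x ∧ WOk 𝔽 E y
  veq : ∀ x y, (x, y) ∈ E → Veq 𝔠.t0 B (val x) (val y)

/-- `X(x)`: the occurrences which see the class of `x`. -/
def XX (𝔽 : Fr 𝔠) (E : St 𝔽) (x : Wd 𝔽.G) : Set (Oc 𝔽.G) := {o | ∃ z, Eqw 𝔽 E (ext (ow o) z) x}

/-- `X'(x)`: the occurrences which see the class of `x` properly. -/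
def XX' (𝔽 : Fr 𝔠) (E : St 𝔽) (x : Wd 𝔽.G) : Set (Oc 𝔽.G) := {o | ∃ z, z ≠ [] ∧ Eqw 𝔽 E (ext (ow o) z) x}

/-- The rank of the class of a word. -/
noncomputable def rkw (𝔽 : Fr 𝔠) (E : St 𝔽) (x : Wd 𝔽.G) : ℕ :=
  sInf {n | ∃ y e, Eqw 𝔽 E x y ∧ val y = some e ∧ dep e = n}

/-- Root occurrences. -/
def Rt (𝔽 : Fr 𝔠) (o : Oc 𝔽.G) : Prop := ∃ t, OccP 𝔽.G.P t ∧ Veq 𝔠.t0 𝔽.mu (val (ow o)) (some t)

/-- Root words. -/
def rtw (𝔽 : Fr 𝔠) (x : Wd 𝔽.G) : Prop := ∃ o, Rt 𝔽 o ∧ x = ow o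

/-- The identifications of the nodes `X ⊕ Tm` and of the words; `P` are the costly identifications. -/
inductive VRel (𝔽 : Fr 𝔠) (E : St 𝔽) (P : Set ((𝔽.G.X ⊕ Tm T D) × (𝔽.G.X ⊕ Tm T D))) :
    (𝔽.G.X ⊕ Tm T D) ⊕ Wd 𝔽.G → (𝔽.G.X ⊕ Tm T D) ⊕ Wd 𝔽.G → Prop
  | gl {a b : 𝔽.G.X ⊕ Tm T D} : Gl 𝔠.t0 𝔽.G.R 𝔽.G.cD 𝔽.mu P a b → VRel 𝔽 E P (.inl a) (.inl b)
  | wd {x y : Wd 𝔽.G} : 𝔽.sh x → 𝔽.sh y → Eqw 𝔽 E x y → VRel 𝔽 E P (.inr x) (.inr y)
  | root {o : Oc 𝔽.G} {t : Tm T D} : OccP 𝔽.G.P t → Veq 𝔠.t0 𝔽.mu (val (ow o)) (some t) →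
      VRel 𝔽 E P (.inr (ow o)) (.inl (.inr t))
  | base {x : Wd 𝔽.G} {d : D} : 𝔽.sh x → val x = some (.c d) → VRel 𝔽 E P (.inr x) (.inl (.inl (𝔽.G.cD d)))

/-- The cells at the words of `W`. -/
def vcells (𝔽 : Fr 𝔠) (W : Set (Wd 𝔽.G)) : Set (Atom ar ((𝔽.G.X ⊕ Tm T D) ⊕ Wd 𝔽.G)) :=
  {α | ∃ x ∈ W, ∃ r a, val x = some (.f r a) ∧ α = cell r (.inr x) (fun p => .inr (ext x [p]))}

/-- The context atoms over the nodes and words. -/
def fcells (𝔽 : Fr 𝔠) : Set (Atom ar ((𝔽.G.X ⊕ Tm T D) ⊕ Wd 𝔽.G)) := (amap (fun n => Sum.inl (Sum.inl n))) '' 𝔽.G.F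

/-- Entailment from the cells at the words of `W` (and the context of the pattern). -/
def EntV (𝔽 : Fr 𝔠) (E : St 𝔽) (W : Set (Wd 𝔽.G)) : Prop :=
  EntG T 𝔠.J 𝔠.q (VRel 𝔽 E 𝔽.G.P) (fun d => .inl (.inl (𝔽.G.cD d))) (fcells 𝔽 ∪ vcells 𝔽 W)

/-- Anchored words: equivalent to a root word, or to an argument of an anchored word of `W`. -/
abbrev Anc (𝔽 : Fr 𝔠) (E : St 𝔽) (W : Set (Wd 𝔽.G)) (x : Wd 𝔽.G) : Prop :=
  AncA (rtw 𝔽) (Eqw 𝔽 E) (fun x (p : Fin (mm T)) => ext x [p]) W x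

/-! ### Tasks -/

/-- The words of `W` which are to be eliminated. -/
def P1 (𝔽 : Fr 𝔠) (E : St 𝔽) (W : Finset (Wd 𝔽.G)) (M : Set (Oc 𝔽.G)) : Set (Wd 𝔽.G) :=
  {x | x ∈ W ∧ ¬ Anc 𝔽 E ↑W x ∧ XX 𝔽 E x = M ∧ XX' 𝔽 E x = M}

/-- The requirements for a task. -/
structure TOk (𝔽 : Fr 𝔠) (E : St 𝔽) (W : Finset (Wd 𝔽.G)) (M : Set (Oc 𝔽.G)) : Prop where
  cw : ∀ x ∈ W, 𝔽.cw x
  len : ∀ x ∈ W, x.2.length ≤ bR1 T 𝔠.K
  ent : EntV 𝔽 E ↑W
  ne : (P1 𝔽 E W M).Nonempty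
  unt : ∀ x ∈ P1 𝔽 E W M, ∀ y ∈ W, y ∉ P1 𝔽 E W M → ¬ Eqw 𝔽 E x y ∧ ∀ p, ¬ Eqw 𝔽 E x (ext y [p])

/-- Allowed words (as roots of a solution). -/
def Alw (𝔽 : Fr 𝔠) (E : St 𝔽) (W : Finset (Wd 𝔽.G)) (M : Set (Oc 𝔽.G)) (x : Wd 𝔽.G) : Prop :=
  XX 𝔽 E x ≠ M ∨ (∃ t, rtw 𝔽 t ∧ Eqw 𝔽 E x t) ∨
    ∃ y ∈ W, y ∉ P1 𝔽 E W M ∧ (Eqw 𝔽 E x y ∨ ∃ p', Eqw 𝔽 E x (ext y [p']))

/-- A task is solved by a set of words `S` below the allowed arguments of the words of `P1`. -/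
def Solved (𝔽 : Fr 𝔠) (E : St 𝔽) (W : Finset (Wd 𝔽.G)) (M : Set (Oc 𝔽.G)) : Prop :=
  ∃ S : Finset (Wd 𝔽.G), S.card ≤ 𝔠.K ∧
    (∀ s ∈ S, 𝔽.cw s ∧ (∃ x ∈ P1 𝔽 E W M, s.2.length ≤ x.2.length + 𝔠.K) ∧
      ((∃ x ∈ P1 𝔽 E W M, ∃ p, s = ext x [p] ∧ Alw 𝔽 E W M s) ∨ ∃ s' ∈ S, ∃ p, s = ext s' [p])) ∧
    EntV 𝔽 E ((↑W \ P1 𝔽 E W M) ∪ ↑S)

/-! ### The lower problem -/

/-- A task with a view `o ∈ M` in which all copies of the classes seen exactly by `M` agree up to the level `Mk`, and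
with chosen copies `cp u` of the words of `P1` in this view. -/
structure Low (𝔽 : Fr 𝔠) (E : St 𝔽) (Mk : ℕ) : Type where
  W : Finset (Wd 𝔽.G)
  M : Set (Oc 𝔽.G)
  tok : TOk 𝔽 E W M
  o : Oc 𝔽.G
  ho : o ∈ M
  b : Tm T D
  cp : Wd 𝔽.G → Pth T
  hb : val (ow o) = some b
  hcp : ∀ u ∈ P1 𝔽 E W M, cp u ≠ [] ∧ Eqw 𝔽 E (ext (ow o) (cp u)) u
  non : ∀ y, 𝔽.sh y → val y ≠ none → XX 𝔽 E y = M → XX' 𝔽 E y = M →
    ∀ z z', Eqw 𝔽 E (ext (ow o) z) y → Eqw 𝔽 E (ext (ow o) z') y → Veq 𝔠.t0 Mk (up z b) (up z' b)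

namespace Low

variable {𝔽 : Fr 𝔠} {E : St 𝔽} {Mk : ℕ} (L : Low 𝔽 E Mk)

/-- The words to be eliminated. -/
abbrev Q1 : Set (Wd 𝔽.G) := P1 𝔽 E L.W L.M

/-- The nodes of the lower patterns. -/
abbrev X1 (_ : Low 𝔽 E Mk) : Type := (𝔽.G.X ⊕ Tm T D) ⊕ Wd 𝔽.G

/-- The free identifications of the lower patterns. -/
abbrev R1 (_ : Low 𝔽 E Mk) : (𝔽.G.X ⊕ Tm T D) ⊕ Wd 𝔽.G → (𝔽.G.X ⊕ Tm T D) ⊕ Wd 𝔽.G → Prop := VRel 𝔽 E ∅

/-- The constants of the lower patterns. -/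
abbrev cD1 (_ : Low 𝔽 E Mk) : D → (𝔽.G.X ⊕ Tm T D) ⊕ Wd 𝔽.G := fun d => .inl (.inl (𝔽.G.cD d))

/-- The context atoms of the lower patterns: those of the pattern and the kept cells. -/
def F1 : Set (Atom ar ((𝔽.G.X ⊕ Tm T D) ⊕ Wd 𝔽.G)) := fcells 𝔽 ∪ vcells 𝔽 (↑L.W \ L.Q1)

/-- The real cells of the full lower pattern. -/
def V1 : Set (Tm T D) := {t | ∃ u ∈ L.Q1, up (L.cp u) L.b = some t}

/-- The costly identifications: those of the pattern, and the position links. -/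
inductive Eb : Set ((((𝔽.G.X ⊕ Tm T D) ⊕ Wd 𝔽.G) ⊕ Tm T D) × (((𝔽.G.X ⊕ Tm T D) ⊕ Wd 𝔽.G) ⊕ Tm T D))
  | old {α β : 𝔽.G.X ⊕ Tm T D} : (α, β) ∈ 𝔽.G.P → Eb (.inl (.inl α), .inl (.inl β))
  | pos {u : Wd 𝔽.G} {p : Fin (mm T)} {t : Tm T D} : u ∈ L.Q1 → Alw 𝔽 E L.W L.M (ext u [p]) →
      up (p :: L.cp u) L.b = some t → Eb (.inr t, .inl (.inr (ext u [p])))

/-- The identifications which are available for the lower patterns of level `l`. -/
def Cl (l : ℕ) : ((𝔽.G.X ⊕ Tm T D) ⊕ Wd 𝔽.G) ⊕ Tm T D → ((𝔽.G.X ⊕ Tm T D) ⊕ Wd 𝔽.G) ⊕ Tm T D → Prop :=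
  EqvGen (Gl 𝔠.t0 L.R1 L.cD1 l L.Eb)

/-- Bad lower patterns of level `l`. -/
structure BC (l : ℕ) (F : Set (Atom ar ((𝔽.G.X ⊕ Tm T D) ⊕ Wd 𝔽.G))) (V : Set (Tm T D))
    (P : Set ((((𝔽.G.X ⊕ Tm T D) ⊕ Wd 𝔽.G) ⊕ Tm T D) × (((𝔽.G.X ⊕ Tm T D) ⊕ Wd 𝔽.G) ⊕ Tm T D))) : Prop where
  hF : F ⊆ L.F1
  hV : V ⊆ Sub L.V1
  finV : V.Finite
  finP : P.Finite
  hP : ∀ p ∈ P, L.Cl l p.1 p.2
  bad : 𝔠.Bd L.R1 L.cD1 l F V P

/-- There is a bad lower pattern of level `l` and size `s`. -/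
def Has (l s : ℕ) : Prop := ∃ F V P, L.BC l F V P ∧ F.ncard + P.ncard = s

/-- The map of the nodes of the lower patterns to the nodes of the pattern. -/
noncomputable def phi (d₀ : D) : ((𝔽.G.X ⊕ Tm T D) ⊕ Wd 𝔽.G) ⊕ Tm T D → 𝔽.G.X ⊕ Tm T D
  | .inl (.inl α) => α
  | .inl (.inr w) => (val w).elim (.inl (𝔽.G.cD d₀)) .inr
  | .inr t => .inr t

/-- The lower pattern as a pattern. -/
def pat (F : Set (Atom ar ((𝔽.G.X ⊕ Tm T D) ⊕ Wd 𝔽.G))) (V : Set (Tm T D))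
    (P : Set ((((𝔽.G.X ⊕ Tm T D) ⊕ Wd 𝔽.G) ⊕ Tm T D) × (((𝔽.G.X ⊕ Tm T D) ⊕ Wd 𝔽.G) ⊕ Tm T D))) : Pat T D :=
  ⟨(𝔽.G.X ⊕ Tm T D) ⊕ Wd 𝔽.G, L.R1, L.cD1, F, V, P⟩

end Low

/-- The number of equivalent pairs of short words. -/
noncomputable def npr (𝔽 : Fr 𝔠) (E : St 𝔽) : ℕ :=
  {p : Wd 𝔽.G × Wd 𝔽.G | 𝔽.sh p.1 ∧ 𝔽.sh p.2 ∧ Eqw 𝔽 E p.1 p.2}.ncard

end

end Pool.Agent.BF
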