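import Pool.Agent.WFC.SM

set_option autoImplicit false

/-!
# Entailment over nodes: maps, restriction of the identifications, one-step descent

Three general facts on `EntG` (see `Pool.Agent.WFC.Defs`).
-/

namespace Pool.Agent.BF

open Pool.Agent.H56 Pool.Agent.WFC

variable {k : ℕ} {ar : Fin k → ℕ} {T : List (Rule ar)} {D : Type} {J : Inst ar D} {q : CQ ar}

/-- A map which respects the generators respects the generated equivalence. -/
theorem eqvGen_map {X X' : Type} {R : X → X → Prop} {R' : X' → X' → Prop} (g : X → X')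
    (hR : ∀ x y, R x y → Relation.EqvGen R' (g x) (g y)) {x y : X} (h : Relation.EqvGen R x y) :
    Relation.EqvGen R' (g x) (g y) := by
  induction h with
  | rel x y h => exact hR x y h
  | refl x => exact Relation.EqvGen.refl _
  | symm x y _ ih => exact Relation.EqvGen.symm _ _ ih
  | trans x y z _ _ ih1 ih2 => exact Relation.EqvGen.trans _ _ _ ih1 ih2

/-- A function which is constant on related pairs is constant on classes. -/
theorem eqvGen_eq {X N : Type} {R : X → X → Prop} {h : X → N} (hR : ∀ x y, R x y → h x = h y) {x y : X}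
    (hxy : Relation.EqvGen R x y) : h x = h y := by
  induction hxy with
  | rel x y h => exact hR x y h
  | refl x => rfl
  | symm x y _ ih => exact ih.symm
  | trans x y z _ _ ih1 ih2 => exact ih1.trans ih2

theorem eqvGen_mono {X : Type} {R R' : X → X → Prop} (hR : ∀ x y, R x y → Relation.EqvGen R' x y) {x y : X}
    (h : Relation.EqvGen R x y) : Relation.EqvGen R' x y :=
  eqvGen_map id hR h

/-- (B1) Entailment is preserved by maps of the nodes (up to the identifications of the target). -/
theorem _root_.Pool.Agent.WFC.EntG.map {X X' : Type} {R : X → X → Prop} {R' : X' → X' → Prop} {cD : D → X}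
    {cD' : D → X'} {F : Set (Atom ar X)} {F' : Set (Atom ar X')} (h : EntG T J q R cD F) (g : X → X')
    (hR : ∀ x y, R x y → Relation.EqvGen R' (g x) (g y))
    (hc : ∀ d, Relation.EqvGen R' (g (cD d)) (cD' d))
    (hF : ∀ α ∈ F, ∃ s, (⟨α.1, s⟩ : Atom ar X') ∈ F' ∧ ∀ p, Relation.EqvGen R' (g (α.2 p)) (s p)) :
    EntG T J q R' cD' F' := by
  intro N I hI h' hR' hJ hF'
  refine h N I hI (fun x => h' (g x)) (fun x y hxy => eqvGen_eq hR' (hR x y hxy)) ?_ ?_
  · have h1 : (fun d => h' (g (cD d))) = fun d => h' (cD' d) := funext fun d => eqvGen_eq hR' (hc d)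
    rw [h1]
    exact hJ
  · intro α hα
    obtain ⟨s, hs, hs'⟩ := hF α hα
    have h1 : (fun p => h' (g (α.2 p))) = fun p => h' (s p) := funext fun p => eqvGen_eq hR' (hs' p)
    rw [h1]
    exact hF' _ hs

/-- (B4) Only the identifications of the nodes of atoms and constants matter. -/
theorem _root_.Pool.Agent.WFC.EntG.restrict {X : Type} {R : X → X → Prop} {cD : D → X} {F : Set (Atom ar X)}
    (h : EntG T J q R cD F) (Nd : Set X) (hc : ∀ d, cD d ∈ Nd) (hF : ∀ α ∈ F, ∀ p, α.2 p ∈ Nd) :
    EntG T J q (fun x y => Relation.EqvGen R x y ∧ x ∈ Nd ∧ y ∈ Nd) cD F := by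
  classical
  intro N I hI h' hR' hJ hF'
  rcases isEmpty_or_nonempty X with hX | ⟨⟨x₀⟩⟩
  · exact h N I hI h' (fun x => hX.elim x) hJ hF'
  let g : X → N := fun x =>
    if hx : ∃ y, y ∈ Nd ∧ Relation.EqvGen R x y then h' hx.choose else h' x₀
  have hg : ∀ x ∈ Nd, g x = h' x := by
    intro x hx
    have hx' : ∃ y, y ∈ Nd ∧ Relation.EqvGen R x y := ⟨x, hx, Relation.EqvGen.refl _⟩
    have h1 : g x = h' hx'.choose := dif_pos hx'
    rw [h1]
    exact (hR' _ _ ⟨hx'.choose_spec.2, hx, hx'.choose_spec.1⟩).symm
  have hgR : ∀ x y, R x y → g x = g y := by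
    intro x y hxy
    by_cases hx : ∃ z, z ∈ Nd ∧ Relation.EqvGen R x z
    · have hy : ∃ z, z ∈ Nd ∧ Relation.EqvGen R y z :=
        ⟨hx.choose, hx.choose_spec.1, Relation.EqvGen.trans _ _ _
          (Relation.EqvGen.symm _ _ (Relation.EqvGen.rel _ _ hxy)) hx.choose_spec.2⟩
      have h1 : g x = h' hx.choose := dif_pos hx
      have h2 : g y = h' hy.choose := dif_pos hy
      rw [h1, h2]
      exact hR' _ _ ⟨Relation.EqvGen.trans _ _ _ (Relation.EqvGen.symm _ _ hx.choose_spec.2)
        (Relation.EqvGen.trans _ _ _ (Relation.EqvGen.rel _ _ hxy) hy.choose_spec.2),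
        hx.choose_spec.1, hy.choose_spec.1⟩
    · have hy : ¬ ∃ z, z ∈ Nd ∧ Relation.EqvGen R y z := by
        rintro ⟨z, hz, hyz⟩
        exact hx ⟨z, hz, Relation.EqvGen.trans _ _ _ (Relation.EqvGen.rel _ _ hxy) hyz⟩
      have h1 : g x = h' x₀ := dif_neg hx
      have h2 : g y = h' x₀ := dif_neg hy
      rw [h1, h2]
  refine h N I hI g hgR ?_ ?_
  · have h1 : (fun d => g (cD d)) = fun d => h' (cD d) := funext fun d => hg _ (hc d)
    rw [h1]
    exact hJ
  · intro α hα
    have h1 : (fun p => g (α.2 p)) = fun p => h' (α.2 p) := funext fun p => hg _ (hF α hα p)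
    rw [h1]
    exact hF' α hα

/-- The head atom of the rule `r` with `x₀` at the positions of the existential variable and `args x` at the positions
of the body variable `x`. -/
def hdAtom {X : Type} (r : Fin T.length) (x₀ : X) (args : Fin (T.get r).1 → X) : Atom ar X :=
  ⟨symOf r, fun p => (headOf r p).elim x₀ args⟩

/-- (B3) One-step descent: the head atom of `r` at `x₀`, `args` can be dropped if the node `x₀` is fresh and the body of
`r` holds at `args`. -/
theorem _root_.Pool.Agent.WFC.EntG.descent {X : Type} {R : X → X → Prop} {cD : D → X} {F₀ : Set (Atom ar X)}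
    (r : Fin T.length) (x₀ : X) (args : Fin (T.get r).1 → X)
    (hF : ∀ α ∈ F₀, ∀ p, ¬ Relation.EqvGen R x₀ (α.2 p)) (hc : ∀ d, ¬ Relation.EqvGen R x₀ (cD d))
    (ha : ∀ x, ¬ Relation.EqvGen R x₀ (args x))
    (hb : ∀ (N : Type) (I : Inst ar N), IsModel T I → ∀ h : X → N, (∀ x y, R x y → h x = h y) →
      IsHom J I (fun d => h (cD d)) → (∀ α ∈ F₀, I α.1 (fun p => h (α.2 p))) →
      ∀ b ∈ (T.get r).2.1, I b.1 (fun p => h (args (b.2 p))))
    (h : EntG T J q R cD (insert (hdAtom r x₀ args) F₀)) : EntG T J q R cD F₀ := by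
  classical
  intro N I hI g hR hJ hF'
  obtain ⟨w, hw1, hw2, hw3⟩ := hI (T.get r) (List.get_mem T r) (fun x => g (args x))
    (fun b hbm => hb N I hI g hR hJ hF' b hbm)
  by_cases hj : ∃ j, headOf r j = none
  · obtain ⟨j₀, hj₀⟩ := hj
    let g' : X → N := fun x => if Relation.EqvGen R x₀ x then w j₀ else g x
    have hg1 : ∀ x, ¬ Relation.EqvGen R x₀ x → g' x = g x := fun x hx => if_neg hx
    have hgR : ∀ x y, R x y → g' x = g' y := by
      intro x y hxy
      by_cases hx : Relation.EqvGen R x₀ x
      · have hy : Relation.EqvGen R x₀ y := Relation.EqvGen.trans _ _ _ hx (Relation.EqvGen.rel _ _ hxy)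
        have h1 : g' x = w j₀ := if_pos hx
        have h2 : g' y = w j₀ := if_pos hy
        rw [h1, h2]
      · have hy : ¬ Relation.EqvGen R x₀ y := fun hy => hx
          (Relation.EqvGen.trans _ _ _ hy (Relation.EqvGen.symm _ _ (Relation.EqvGen.rel _ _ hxy)))
        rw [hg1 x hx, hg1 y hy]
        exact hR x y hxy
    refine h N I hI g' hgR ?_ ?_
    · have h1 : (fun d => g' (cD d)) = fun d => g (cD d) := funext fun d => hg1 _ (hc d)
      rw [h1]
      exact hJ
    · rintro α (rfl | hα)
      · have h1 : (fun p => g' ((hdAtom r x₀ args).2 p)) = w := by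
          funext p
          change g' ((headOf r p).elim x₀ args) = w p
          cases hp : headOf r p with
          | none =>
            have h2 : g' x₀ = w j₀ := if_pos (Relation.EqvGen.refl _)
            rw [Option.elim_none, h2]
            exact hw2 j₀ p hj₀ hp
          | some x =>
            rw [Option.elim_some, hg1 _ (ha x)]
            exact (hw1 p x hp).symm
        rw [h1]
        exact hw3
      · have h1 : (fun p => g' (α.2 p)) = fun p => g (α.2 p) := funext fun p => hg1 _ (hF α hα p)
        rw [h1]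
        exact hF' α hα
  · refine h N I hI g hR hJ ?_
    rintro α (rfl | hα)
    · have h1 : (fun p => g ((hdAtom r x₀ args).2 p)) = w := by
        funext p
        change g ((headOf r p).elim x₀ args) = w p
        cases hp : headOf r p with
        | none => exact absurd ⟨p, hp⟩ hj
        | some x =>
          rw [Option.elim_some]
          exact (hw1 p x hp).symm
      rw [h1]
      exact hw3
    · exact hF' α hα

end Pool.Agent.BF
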