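import Pool.Agent.BF.XL
import Pool.Agent.BF.Ent

set_option autoImplicit false

/-!
# EV: entailment from words
-/

namespace Pool.Agent.BF

open Pool.Agent.H56 Relation
open Pool.Agent.WFC (Atom amap EntG Small ElimSys AncA)

variable {k : ℕ} {ar : Fin k → ℕ} {T : List (Rule ar)} {D : Type} {𝔠 : Ctx T D} {𝔽 : Fr 𝔠} {E E' : St 𝔽} {B : ℕ}

theorem vcells_mono {V V' : Set (Wd 𝔽.G)} (hV : V ⊆ V') : vcells 𝔽 V ⊆ vcells 𝔽 V' := by
  rintro α ⟨x, hx, r, a, h1, h2⟩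
  exact ⟨x, hV hx, r, a, h1, h2⟩

theorem EntV.mono {V V' : Set (Wd 𝔽.G)} (h : EntV 𝔽 E V) (hV : V ⊆ V') : EntV 𝔽 E V' :=
  Pool.Agent.WFC.EntG.mono h (fun _ _ h => h) (Set.union_subset_union_right _ (vcells_mono hV))

theorem VRel.monoE (hE : E ⊆ E') {P : Set ((𝔽.G.X ⊕ Tm T D) × (𝔽.G.X ⊕ Tm T D))}
    {a b : (𝔽.G.X ⊕ Tm T D) ⊕ Wd 𝔽.G} (h : VRel 𝔽 E P a b) : VRel 𝔽 E' P a b := by
  cases h with
  | gl h => exact .gl h
  | wd h1 h2 h3 => exact .wd h1 h2 (h3.mono hE)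
  | root h1 h2 => exact .root h1 h2
  | base h1 h2 => exact .base h1 h2

theorem EntV.monoE (hE : E ⊆ E') {V : Set (Wd 𝔽.G)} (h : EntV 𝔽 E V) : EntV 𝔽 E' V :=
  Pool.Agent.WFC.EntG.mono h (fun _ _ h => h.monoE hE) (Set.Subset.refl _)

/-- The atom of a cell word. -/
theorem vcells_finite {V : Set (Wd 𝔽.G)} (hV : V.Finite) : (vcells 𝔽 V).Finite := by
  classical
  let f : Wd 𝔽.G → Set (Atom ar ((𝔽.G.X ⊕ Tm T D) ⊕ Wd 𝔽.G)) := fun x => match val x with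
    | some (.f r _) => {cell r (.inr x) (fun p => .inr (ext x [p]))}
    | _ => ∅
  have hf : ∀ x, (f x).Finite := by
    intro x
    simp only [f]
    split
    · exact Set.finite_singleton _
    · exact Set.finite_empty
  refine (hV.biUnion (fun x _ => hf x)).subset ?_
  rintro α ⟨x, hx, r, a, h1, rfl⟩
  refine Set.mem_biUnion hx ?_
  simp only [f, h1]
  exact Set.mem_singleton _

theorem fcells_finite (𝔽 : Fr 𝔠) : (fcells 𝔽).Finite := 𝔽.ok.finF.image _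

/-- Small supports: at most `K` words are needed. -/
theorem EntV.small (V : Finset (Wd 𝔽.G)) (h : EntV 𝔽 E ↑V) :
    ∃ V' ⊆ V, V'.card ≤ 𝔠.K ∧ EntV 𝔽 E ↑V' := by
  classical
  obtain ⟨F', h1, h2, h3⟩ := 𝔠.sm _ _ _ _ ((fcells_finite 𝔽).union (vcells_finite V.finite_toSet)) h
  have hfin : F'.Finite := ((fcells_finite 𝔽).union (vcells_finite V.finite_toSet)).subset h1
  -- choose a word for every atom of `F'` which is a cell at a word of `V`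
  have hch : ∀ α ∈ F', α ∉ fcells 𝔽 → ∃ x ∈ V, ∃ r a, val x = some (.f r a) ∧
      α = cell r (.inr x) (fun p => .inr (ext x [p])) := by
    intro α hα hn
    rcases h1 hα with h | ⟨x, hx, r, a, h4, h5⟩
    · exact absurd h hn
    · exact ⟨x, hx, r, a, h4, h5⟩
  choose g hg1 hg2 using hch
  let A : Finset (Atom ar ((𝔽.G.X ⊕ Tm T D) ⊕ Wd 𝔽.G)) := hfin.toFinset.filter (fun α => α ∉ fcells 𝔽)
  have hA : ∀ α ∈ A, α ∈ F' ∧ α ∉ fcells 𝔽 := by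
    intro α hα
    obtain ⟨h4, h5⟩ := Finset.mem_filter.1 hα
    exact ⟨hfin.mem_toFinset.1 h4, h5⟩
  let V' : Finset (Wd 𝔽.G) := A.attach.image (fun α => g α.1 (hA _ α.2).1 (hA _ α.2).2)
  refine ⟨V', ?_, ?_, ?_⟩
  · intro x hx
    obtain ⟨α, -, rfl⟩ := Finset.mem_image.1 hx
    exact hg1 _ _ _
  · refine Finset.card_image_le.trans ?_
    rw [Finset.card_attach]
    refine (Finset.card_filter_le _ _).trans ?_
    rw [← Set.ncard_eq_toFinset_card _ hfin]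
    exact h2
  · refine Pool.Agent.WFC.EntG.mono h3 (fun _ _ h => h) ?_
    intro α hα
    by_cases hn : α ∈ fcells 𝔽
    · exact Or.inl hn
    · obtain ⟨r, a, h4, h5⟩ := hg2 α hα hn
      have h6 : α ∈ A := Finset.mem_filter.2 ⟨hfin.mem_toFinset.2 hα, hn⟩
      exact Or.inr ⟨g α hα hn, Finset.mem_coe.2 (Finset.mem_image.2 ⟨⟨α, h6⟩, Finset.mem_attach _ _, rfl⟩),
        r, a, h4, h5⟩

theorem sh_app {x : Wd 𝔽.G} (h : x.2.length + 1 ≤ bR T 𝔠.K) (p : Fin (mm T)) : 𝔽.sh (ext x [p]) := by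
  unfold Fr.sh
  rw [ext_snd, List.length_append, List.length_singleton]
  omega

/-- Renaming of the words. -/
theorem EntV.ren (hv : Valid 𝔽 E B) {V V' : Set (Wd 𝔽.G)} (hV : ∀ x ∈ V, 𝔽.cw x ∧ x.2.length + 1 ≤ bR T 𝔠.K)
    (hV' : ∀ x ∈ V', x.2.length + 1 ≤ bR T 𝔠.K) (h : ∀ x ∈ V, ∃ y ∈ V', Eqw 𝔽 E x y) (hE : EntV 𝔽 E V) :
    EntV 𝔽 E V' := by
  refine Pool.Agent.WFC.EntG.map hE id (fun x y hxy => EqvGen.rel _ _ hxy) (fun d => EqvGen.refl _) ?_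
  rintro α (hα | ⟨x, hx, r, a, hr, rfl⟩)
  · exact ⟨α.2, Or.inl hα, fun p => EqvGen.refl _⟩
  · obtain ⟨y, hy, hxy⟩ := h x hx
    have hxl := (hV x hx).2
    have hyl := hV' y hy
    have hsx : 𝔽.sh x := (Nat.le_succ _).trans hxl
    have hsy : 𝔽.sh y := (Nat.le_succ _).trans hyl
    obtain ⟨a', ha'⟩ := class_rule hv hsx hr hxy
    refine ⟨(cell r (.inr y) (fun p => .inr (ext y [p])) : Atom ar ((𝔽.G.X ⊕ Tm T D) ⊕ Wd 𝔽.G)).2,
      Or.inr ⟨y, hy, r, a', ha', rfl⟩, ?_⟩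
    intro i
    refine cell_rel (Q := EqvGen (VRel 𝔽 E 𝔽.G.P)) ?_ ?_ i
    · exact EqvGen.rel _ _ (.wd hsx hsy hxy)
    · intro p
      exact EqvGen.rel _ _ (.wd (sh_app hxl p) (sh_app hyl p) (hxy.ext [p]))

open Classical in
/-- The tops of the rows: the initial set of words. -/
theorem entV_init : EntV 𝔽 E {x | x.2 = []} := by
  classical
  -- the map of the nodes
  let g : 𝔽.G.X ⊕ Tm T D → (𝔽.G.X ⊕ Tm T D) ⊕ Wd 𝔽.G := fun n => match n with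
    | .inl a => .inl (.inl a)
    | .inr t => if h : ∃ o : Oc 𝔽.G, Veq 𝔠.t0 𝔽.mu (val (ow o)) (some t) then .inr (ow h.choose) else .inl (.inr t)
  have g1 : ∀ a, g (.inl a) = .inl (.inl a) := fun a => rfl
  have g2 : ∀ t, (∃ o : Oc 𝔽.G, Veq 𝔠.t0 𝔽.mu (val (ow o)) (some t)) →
      ∃ o : Oc 𝔽.G, Veq 𝔠.t0 𝔽.mu (val (ow o)) (some t) ∧ g (.inr t) = .inr (ow o) := by
    intro t h
    refine ⟨h.choose, h.choose_spec, ?_⟩
    simp only [g]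
    rw [dif_pos h]
  have g3 : ∀ t, (¬ ∃ o : Oc 𝔽.G, Veq 𝔠.t0 𝔽.mu (val (ow o)) (some t)) → g (.inr t) = .inl (.inr t) := by
    intro t h
    simp only [g]
    rw [dif_neg h]
  -- the node of an occurrence
  have g4 : ∀ (o : Oc 𝔽.G) (t : Tm T D), Veq 𝔠.t0 𝔽.mu (val (ow o)) (some t) →
      EqvGen (VRel 𝔽 E 𝔽.G.P) (g (.inr t)) (.inr (ow o)) := by
    intro o t h
    obtain ⟨o', h1, h2⟩ := g2 t ⟨o, h⟩
    rw [h2]
    exact EqvGen.rel _ _ (.wd (sh_ow o') (sh_ow o) (eqw_clm (h1.trans h.symm)))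
  -- the terms of `P`
  have g5 : ∀ t, OccP 𝔽.G.P t → EqvGen (VRel 𝔽 E 𝔽.G.P) (g (.inr t)) (.inl (.inr t)) := by
    intro t ht
    by_cases h : ∃ o : Oc 𝔽.G, Veq 𝔠.t0 𝔽.mu (val (ow o)) (some t)
    · obtain ⟨o', h1, h2⟩ := g2 t h
      rw [h2]
      exact EqvGen.rel _ _ (.root ht h1)
    · rw [g3 t h]
      exact EqvGen.refl _
  have g6 : ∀ p ∈ 𝔽.G.P, EqvGen (VRel 𝔽 E 𝔽.G.P) (g p.1) (.inl p.1) ∧
      EqvGen (VRel 𝔽 E 𝔽.G.P) (g p.2) (.inl p.2) := by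
    rintro ⟨α, β⟩ hp
    constructor
    · rcases α with a | t
      · exact EqvGen.refl _
      · exact g5 t ⟨_, hp, Or.inl rfl⟩
    · rcases β with a | t
      · exact EqvGen.refl _
      · exact g5 t ⟨_, hp, Or.inr rfl⟩
  refine Pool.Agent.WFC.EntG.map 𝔽.ok.bad g ?_ (fun d => EqvGen.refl _) ?_
  · intro x y hxy
    cases hxy with
    | nd h => exact EqvGen.rel _ _ (.gl (.nd h))
    | @ty s t h =>
      by_cases hs : ∃ o : Oc 𝔽.G, Veq 𝔠.t0 𝔽.mu (val (ow o)) (some s)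
      · obtain ⟨o, h1, h2⟩ := g2 s hs
        rw [h2]
        exact EqvGen.symm _ _ (g4 o t (h1.trans h))
      · have ht : ¬ ∃ o : Oc 𝔽.G, Veq 𝔠.t0 𝔽.mu (val (ow o)) (some t) := by
          rintro ⟨o, ho⟩
          exact hs ⟨o, ho.trans h.symm⟩
        rw [g3 s hs, g3 t ht]
        exact EqvGen.rel _ _ (.gl (.ty h))
    | cst d =>
      by_cases hs : ∃ o : Oc 𝔽.G, Veq 𝔠.t0 𝔽.mu (val (ow o)) (some (.c d))
      · obtain ⟨o, h1, h2⟩ := g2 _ hs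
        rw [h2]
        have h3 := h1.symm.cst 𝔠.tab
        exact EqvGen.symm _ _ (EqvGen.rel _ _ (.base (sh_ow o) h3))
      · rw [g3 _ hs]
        exact EqvGen.rel _ _ (.gl (.cst d))
    | id h =>
      obtain ⟨h1, h2⟩ := g6 _ h
      exact EqvGen.trans _ _ _ h1 (EqvGen.trans _ _ _ (EqvGen.rel _ _ (.gl (.id h))) (EqvGen.symm _ _ h2))
  · rintro α (⟨β, hβ, rfl⟩ | ⟨r, a, hr, rfl⟩)
    · refine ⟨fun p => .inl (.inl (β.2 p)), Or.inl ⟨β, hβ, rfl⟩, fun p => EqvGen.refl _⟩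
    · let x : Wd 𝔽.G := (⟨.f r a, hr⟩, [])
      refine ⟨(cell r (.inr x) (fun p => .inr (ext x [p])) : Atom ar ((𝔽.G.X ⊕ Tm T D) ⊕ Wd 𝔽.G)).2,
        Or.inr ⟨x, rfl, r, a, rfl, rfl⟩, ?_⟩
      intro i
      have h1 : EqvGen (VRel 𝔽 E 𝔽.G.P) (g (.inr (.f r a))) (.inr x) :=
        g4 ((⟨.f r a, hr⟩, none) : Oc 𝔽.G) (.f r a) (Veq.refl _ _)
      have h2 : ∀ p, EqvGen (VRel 𝔽 E 𝔽.G.P) (g (.inr (a p))) (.inr (ext x [p])) :=
        fun p => g4 ((⟨.f r a, hr⟩, some p) : Oc 𝔽.G) (a p) (Veq.refl _ _)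
      rcases h : headOf r i with _ | y
      · have h3 : (cell (ar := ar) r (Sum.inr (.f r a) : 𝔽.G.X ⊕ Tm T D) (fun p => .inr (a p))).2 i = .inr (.f r a) :=
          cell_snd_none h
        rw [h3, cell_snd_none h]
        exact h1
      · have h3 : (cell (ar := ar) r (Sum.inr (.f r a) : 𝔽.G.X ⊕ Tm T D) (fun p => .inr (a p))).2 i =
          .inr (a (vl r y)) := cell_snd_some h
        rw [h3, cell_snd_some h]
        exact h2 _

end Pool.Agent.BF
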