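import Pool.Agent.BF.HM

set_option autoImplicit false

/-!
# Fin: finite controllability from the main proposition and the existence of good tables
-/

namespace Pool.Agent.BF

open Pool.Agent.H56 Relation
open Pool.Agent.WFC (Atom amap EntG Small small_of_rewritable)

variable {k : ℕ} {ar : Fin k → ℕ}

/-- The statement of the main proposition. -/
def MainProp (T : List (Rule ar)) (D : Type) : Prop :=
  ∀ (𝔠 : Ctx T D) (n s l : ℕ), s ≤ bS T 𝔠.K (Nat.card D) → l ≤ s * bDel T 𝔠.K (Nat.card D) → 𝔠.PP n s l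

/-- The statement of the existence of good tables. -/
def TabEx (T : List (Rule ar)) (D : Type) : Prop :=
  ∀ N V Mx : ℕ, ∃ (C : Type) (_ : Finite C) (t0 : Tm T D → C), GoodTab t0 N V Mx

/-- The conclusion: a finite countermodel. -/
def FinCM (T : List (Rule ar)) {D : Type} (J : Inst ar D) (q : CQ ar) : Prop :=
  ∃ (M : Type) (_ : Finite M) (I : Inst ar M), IsModel T I ∧ (∃ f : D → M, IsHom J I f) ∧ ¬ Sat I q

theorem fc_nonempty {T : List (Rule ar)} {D : Type} [Finite D] [Nonempty D] (hmain : MainProp T D)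
    (htab : TabEx T D) {q : CQ ar} (hq : Rewritable T q) (J : Inst ar D) (h : ¬ Entails T J q) : FinCM T J q := by
  classical
  obtain ⟨Φ', hΦ'⟩ := hq
  let K₀ : ℕ := (Φ'.map (fun p => p.2.length)).sum
  let K : ℕ := K₀ + mm T + q.2.length + 1
  obtain ⟨C, hC, t0, hgt⟩ := htab (bN T K) (bω T K) (bMx T K (Nat.card D))
  let 𝔠 : Ctx T D :=
    { J := J
      q := q
      K := K
      hK := by simp only [K]; omega
      hm := by simp only [K]; omega
      sm := (small_of_rewritable hΦ' J).mono (by simp only [K, K₀]; omega)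
      C := C
      t0 := t0
      tab := hgt }
  have hlab := hgt.lab
  refine ⟨LgH t0 J 𝔠.lN, inferInstance, lgI t0 J 𝔠.lN, lg_isModel hlab, ⟨_, lg_isHom⟩, ?_⟩
  intro hsat
  apply h
  obtain ⟨V, hVc, hVl, hVb⟩ := lg_match hlab hsat
  let G : Pat T D := ⟨D, fun _ _ => False, fun d => d, ∅, ↑V, ∅⟩
  have hOk : 𝔠.POk G (V.sup dep + 1) 0 0 := by
    refine ⟨Set.finite_empty, V.finite_toSet, Set.finite_empty, ?_, ?_, ?_, ?_, ?_, ?_, ?_, ?_⟩
    · show (∅ : Set (Atom ar D)).ncard ≤ K
      rw [Set.ncard_empty]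
      exact Nat.zero_le _
    · show (↑V : Set (Tm T D)).ncard ≤ K
      rw [Set.ncard_coe_finset]
      simp only [K]
      omega
    · exact fun t ht => (hVl t ht).1
    · exact fun t ht => (hVl t ht).2
    · intro t ht
      exact Nat.lt_succ_of_le (Finset.le_sup (f := dep) ht)
    · show (∅ : Set (Atom ar D)).ncard + (∅ : Set ((D ⊕ Tm T D) × (D ⊕ Tm T D))).ncard ≤ 0
      rw [Set.ncard_empty, Set.ncard_empty]
    · refine lg_bad_mono ?_ hVb
      show 0 + 3 * bN T K ≤ bN' T K (Nat.card D)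
      unfold bN'
      omega
    · intro F' V' P' _ _ _ _ _ _
      exact Nat.zero_le _
  obtain ⟨S, -, hS, hb⟩ := hmain 𝔠 (V.sup dep + 1) 0 0 (Nat.zero_le _) (Nat.zero_le _) G hOk
  have hSe : {t : Tm T D | ∃ x ∈ S, up x.2 x.1 = some t} = ∅ := by
    rw [Set.eq_empty_iff_forall_notMem]
    rintro t ⟨x, hx, -⟩
    obtain ⟨⟨p, hp, -⟩, -⟩ := hS x hx
    exact absurd hp (Set.notMem_empty _)
  rw [hSe] at hb
  exact lg_cert hlab hb

/-- Finite controllability for a single rewritable query. -/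
theorem fc_all {T : List (Rule ar)} (hmain : ∀ D : Type, Finite D → Nonempty D → MainProp T D)
    (htab : ∀ D : Type, Finite D → TabEx T D) {q : CQ ar} (hq : Rewritable T q) (D : Type) [Finite D]
    (J : Inst ar D) (h : ¬ Entails T J q) : FinCM T J q := by
  classical
  rcases isEmpty_or_nonempty D with hD | hD
  swap
  · exact fc_nonempty (hmain D inferInstance hD) (htab D inferInstance) hq J h
  by_contra hcon
  apply h
  rintro M I hI ⟨f, hf⟩
  by_contra hns
  rcases isEmpty_or_nonempty M with hM | ⟨⟨m₀⟩⟩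
  · exact hcon ⟨M, inferInstance, I, hI, ⟨f, hf⟩, hns⟩
  -- add an isolated element to the database
  let J' : Inst ar (Option D) := fun i t => ∃ t₀ : Fin (ar i) → D, J i t₀ ∧ t = fun p => some (t₀ p)
  have h1 : ¬ Entails T J' q := by
    intro hent
    refine hns (hent M I hI ⟨fun o => o.elim m₀ f, ?_⟩)
    rintro i t ⟨t₀, ht₀, rfl⟩
    exact hf i t₀ ht₀
  obtain ⟨M', hM', I', hI', ⟨f', hf'⟩, hns'⟩ :=
    fc_nonempty (hmain (Option D) inferInstance inferInstance) (htab (Option D) inferInstance) hq J' h1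
  exact hcon ⟨M', hM', I', hI', ⟨fun d => f' (some d), fun i t ht => hf' i _ ⟨t, ht, rfl⟩⟩, hns'⟩

end Pool.Agent.BF
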