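import Pool.Agent.BF.LowN

set_option autoImplicit false

/-!
# Nent: the entailment in the new state
-/

namespace Pool.Agent.BF

open Pool.Agent.H56 Relation
open Pool.Agent.WFC (Atom amap EntG Small ElimSys AncA)

variable {k : ℕ} {ar : Fin k → ℕ} {T : List (Rule ar)} {D : Type} {𝔠 : Ctx T D} {𝔽 : Fr 𝔠} {E : St 𝔽} {B B' Mk l' : ℕ}

namespace Low

variable (L : Low 𝔽 E Mk)

/-- A position of the view with a value of the type of `s` (of level `l'`). -/
private def Nent_pos (l' : ℕ) (s : Tm T D) (w : Wd 𝔽.G) : Prop :=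
  ∃ u ∈ L.Q1, ∃ z : Pth T, z.length ≤ 𝔠.K + 2 ∧ ∃ s₀, up (z ++ L.cp u) L.b = some s₀ ∧ Teq 𝔠.t0 l' s s₀ ∧ w = ext u z

open Classical in
/-- The map of the nodes. -/
private noncomputable def Nent_g (l' : ℕ) : ((𝔽.G.X ⊕ Tm T D) ⊕ Wd 𝔽.G) ⊕ Tm T D → (𝔽.G.X ⊕ Tm T D) ⊕ Wd 𝔽.G
  | .inl x => x
  | .inr (.c d) => .inl (.inl (𝔽.G.cD d))
  | .inr (.f r a) => if h : ∃ w, Nent_pos L l' (.f r a) w then .inr h.choose else .inl (.inr (.f r a))

/-- the key property of the map -/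
private theorem Nent_key (hv : Valid 𝔽 E B) {s : Tm T D} {w : Wd 𝔽.G} (h : Nent_pos L l' s w) :
    EqvGen (VRel 𝔽 (L.newE l') 𝔽.G.P) (Nent_g L l' (.inr s)) (.inr w) := by
  obtain ⟨u, hu, z, hz, s₀, hs₀, hT, rfl⟩ := h
  cases s with
  | c d =>
    have h1 := Veq.cst 𝔠.tab hT
    have h2 := L.pos_veq hv hu hz
    rw [hs₀, h1] at h2
    have h3 := Veq.cst 𝔠.tab h2.symm
    exact EqvGen.symm _ _ (EqvGen.rel _ _ (VRel.base (L.sh_pos hu hz) h3))
  | f r a =>
    have hex : ∃ w, Nent_pos L l' (.f r a) w := ⟨_, u, hu, z, hz, s₀, hs₀, hT, rfl⟩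
    have hg : Nent_g L l' (.inr (.f r a)) = .inr hex.choose := by
      simp only [Nent_g]
      exact dif_pos hex
    rw [hg]
    obtain ⟨u', hu', z', hz', s₀', hs₀', hT', hw⟩ := hex.choose_spec
    rw [hw]
    refine EqvGen.rel _ _ (VRel.wd (L.sh_pos hu' hz') (L.sh_pos hu hz) ?_)
    exact L.newE_eqw hu' hu hz' hz hs₀' hs₀ (hT'.symm.trans hT)

private theorem Nent_mono {x y : (𝔽.G.X ⊕ Tm T D) ⊕ Wd 𝔽.G} (h : VRel 𝔽 E ∅ x y) :
    VRel 𝔽 (L.newE l') 𝔽.G.P x y := by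
  have hsub : E ⊆ L.newE l' := Set.subset_union_left
  cases h with
  | gl h => exact .gl (h.mono le_rfl (Set.empty_subset _))
  | wd h1 h2 h3 => exact .wd h1 h2 (h3.mono hsub)
  | root h1 h2 => exact .root h1 h2
  | base h1 h2 => exact .base h1 h2

private theorem Nent_ty (hv : Valid 𝔽 E B) (hmu : 𝔽.mu ≤ l') {s s' : Tm T D} (h : Teq 𝔠.t0 l' s s') :
    EqvGen (VRel 𝔽 (L.newE l') 𝔽.G.P) (Nent_g L l' (.inr s)) (Nent_g L l' (.inr s')) := by
  by_cases hex : ∃ w, Nent_pos L l' s w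
  · obtain ⟨w, hw⟩ := hex
    have h1 := Nent_key L hv hw
    have hw' : Nent_pos L l' s' w := by
      obtain ⟨u, hu, z, hz, s₀, hs₀, hT, hw⟩ := hw
      exact ⟨u, hu, z, hz, s₀, hs₀, h.symm.trans hT, hw⟩
    exact EqvGen.trans _ _ _ h1 (EqvGen.symm _ _ (Nent_key L hv hw'))
  · have hex' : ¬ ∃ w, Nent_pos L l' s' w := by
      rintro ⟨w, u, hu, z, hz, s₀, hs₀, hT, hw⟩
      exact hex ⟨w, u, hu, z, hz, s₀, hs₀, Veq.trans h hT, hw⟩
    cases s with
    | c d =>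
      have h1 := Veq.cst 𝔠.tab h
      simp only [Option.some.injEq] at h1
      rw [h1]
      exact EqvGen.refl _
    | f r a =>
      obtain ⟨a', ha'⟩ := Veq.rule 𝔠.tab h
      simp only [Option.some.injEq] at ha'
      subst ha'
      have hg : Nent_g L l' (.inr (.f r a)) = .inl (.inr (.f r a)) := by
        simp only [Nent_g]
        exact dif_neg hex
      have hg' : Nent_g L l' (.inr (.f r a')) = .inl (.inr (.f r a')) := by
        simp only [Nent_g]
        exact dif_neg hex'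
      rw [hg, hg']
      exact EqvGen.rel _ _ (.gl (.ty (Veq.mono h hmu)))

theorem newE_entV (hv : Valid 𝔽 E B) (hmu : 𝔽.mu ≤ l')
    {F : Set (Atom ar ((𝔽.G.X ⊕ Tm T D) ⊕ Wd 𝔽.G))}
    {P : Set ((((𝔽.G.X ⊕ Tm T D) ⊕ Wd 𝔽.G) ⊕ Tm T D) × (((𝔽.G.X ⊕ Tm T D) ⊕ Wd 𝔽.G) ⊕ Tm T D))}
    (hF : F ⊆ L.F1) (hP : ∀ p ∈ P, L.Cl (l' + 3 * bN T 𝔠.K) p.1 p.2)
    (S : Finset (Tm T D × Pth T)) (ru : Tm T D → Wd 𝔽.G) (rp : Tm T D → Fin (mm T))
    (hS : ∀ x ∈ S, x.2.length + 1 ≤ 𝔠.K ∧ (∃ r a, up x.2 x.1 = some (.f r a)) ∧ ru x.1 ∈ L.Q1 ∧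
      ∃ t', up (rp x.1 :: L.cp (ru x.1)) L.b = some t' ∧ Teq 𝔠.t0 (l' + 3 * bN T 𝔠.K) x.1 t')
    (hb : 𝔠.Bd L.R1 L.cD1 l' F {t | ∃ x ∈ S, up x.2 x.1 = some t} P) :
    EntV 𝔽 (L.newE l') ((↑L.W \ L.Q1) ∪ {w | ∃ x ∈ S, w = ext (ru x.1) (x.2 ++ [rp x.1])}) := by
  have hbN : 𝔠.K + 2 ≤ bN T 𝔠.K := by unfold bN; omega
  refine EntG.map hb (Nent_g L l') ?_ (fun d => EqvGen.refl _) ?_
  · intro x y hxy
    cases hxy with
    | nd h => exact EqvGen.rel _ _ (Nent_mono L h)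
    | ty h => exact Nent_ty L hv hmu h
    | cst d => exact EqvGen.refl _
    | id h =>
      refine eqvGen_map (Nent_g L l') ?_ (hP _ h)
      intro x y hxy
      cases hxy with
      | nd h => exact EqvGen.rel _ _ (Nent_mono L h)
      | ty h => exact Nent_ty L hv hmu (Veq.mono h (Nat.le_add_right _ _))
      | cst d => exact EqvGen.refl _
      | id h =>
        cases h with
        | old h => exact EqvGen.rel _ _ (.gl (.id h))
        | @pos u p t hu ha ht =>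
          refine Nent_key L hv ⟨u, hu, [p], ?_, t, ht, Veq.refl _ _, rfl⟩
          simp
  · rintro α (⟨β, hβ, rfl⟩ | hα)
    · refine ⟨β.2, ?_, fun p => EqvGen.refl _⟩
      rcases hF hβ with h | h
      · exact Or.inl h
      · exact Or.inr (vcells_mono Set.subset_union_left h)
    · obtain ⟨r, a, ⟨x, hx, hxa⟩, rfl⟩ := hα
      obtain ⟨hlen, -, hu, t', ht', hT⟩ := hS x hx
      -- the position
      have hval : up ((x.2 ++ [rp x.1]) ++ L.cp (ru x.1)) L.b = up x.2 t' := by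
        rw [List.append_assoc, up_append]
        change (up (rp x.1 :: L.cp (ru x.1)) L.b).bind (up x.2) = _
        rw [ht']
        rfl
      have h1 : Veq 𝔠.t0 (l' + 1) (some (.f r a)) (up x.2 t') := by
        have h2 := Veq.bind hT x.2 (l' := l' + 1) (by omega)
        rw [Option.bind_some, Option.bind_some, hxa] at h2
        exact h2
      obtain ⟨a', ha'⟩ := Veq.rule 𝔠.tab h1
      rw [ha'] at h1 hval
      have hz : (x.2 ++ [rp x.1]).length ≤ 𝔠.K + 2 := by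
        simp only [List.length_append, List.length_cons, List.length_nil]
        omega
      obtain ⟨a'', ha''⟩ : ∃ a'', val (ext (ru x.1) (x.2 ++ [rp x.1])) = some (.f r a'') := by
        have h2 := L.pos_veq hv hu hz
        rw [hval] at h2
        exact Veq.rule 𝔠.tab h2.symm
      have htop : EqvGen (VRel 𝔽 (L.newE l') 𝔽.G.P) (Nent_g L l' (.inr (.f r a)))
          (.inr (ext (ru x.1) (x.2 ++ [rp x.1]))) :=
        Nent_key L hv ⟨ru x.1, hu, x.2 ++ [rp x.1], hz, _, hval, Veq.mono h1 (Nat.le_succ _), rfl⟩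
      have harg : ∀ p, EqvGen (VRel 𝔽 (L.newE l') 𝔽.G.P) (Nent_g L l' (.inr (a p)))
          (.inr (ext (ext (ru x.1) (x.2 ++ [rp x.1])) [p])) := by
        intro p
        refine Nent_key L hv ⟨ru x.1, hu, p :: (x.2 ++ [rp x.1]), ?_, a' p, ?_, Veq.arg h1 p, ?_⟩
        · simp only [List.length_append, List.length_cons, List.length_nil]
          omega
        · exact up_cons_f hval
        · exact ext_cons _ _ _
      refine ⟨(cell r (.inr (ext (ru x.1) (x.2 ++ [rp x.1])))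
        (fun p => .inr (ext (ext (ru x.1) (x.2 ++ [rp x.1])) [p]))).2, ?_, ?_⟩
      · exact Or.inr ⟨_, Or.inr ⟨x, hx, rfl⟩, r, a'', ha'', rfl⟩
      · intro i
        rcases h : headOf r i with _ | y
        · rw [cell_snd_none h, cell_snd_none h]
          exact htop
        · rw [cell_snd_some h, cell_snd_some h]
          exact harg _

end Low

end Pool.Agent.BF
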