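import Pool.Agent.BF.LowA

set_option autoImplicit false

/-!
# Phi: from the lower patterns to the pattern (sections 5.4 and 5.7 of the notes)
-/

namespace Pool.Agent.BF

open Pool.Agent.H56 Relation
open Pool.Agent.WFC (Atom amap EntG Small ElimSys AncA)

variable {k : ℕ} {ar : Fin k → ℕ} {T : List (Rule ar)} {D : Type} {𝔠 : Ctx T D} {𝔽 : Fr 𝔠} {E : St 𝔽} {B Mk : ℕ}

/-! ### Identifications -/

section

variable {C : Type} {t0 : Tm T D → C} {X : Type} {R : X → X → Prop} {cD : D → X}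

/-- Costly identifications which are available already. -/
theorem phi_glOf {l : ℕ} {P P' : Set ((X ⊕ Tm T D) × (X ⊕ Tm T D))}
    (hP : ∀ p ∈ P, EqvGen (Gl t0 R cD l P') p.1 p.2) {a b : X ⊕ Tm T D} (h : EqvGen (Gl t0 R cD l P) a b) :
    EqvGen (Gl t0 R cD l P') a b := by
  refine eqvGen_mono (fun x y hxy => ?_) h
  cases hxy with
  | nd h => exact EqvGen.rel _ _ (Gl.nd h)
  | ty h => exact EqvGen.rel _ _ (Gl.ty h)
  | cst d => exact EqvGen.rel _ _ (Gl.cst d)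
  | id h => exact hP _ h

/-- The free class of a term which is not a constant consists of the terms of the same type. -/
theorem phi_free {N V Mx : ℕ} (ht : GoodTab t0 N V Mx) {l : ℕ} {t : Tm T D} (hnc : ∀ d, t ≠ .c d)
    {a : X ⊕ Tm T D} (h : EqvGen (Gl t0 R cD l ∅) (.inr t) a) : ∃ t', a = .inr t' ∧ Teq t0 l t t' := by
  -- the set of terms of the type of `t` is closed
  have key : ∀ x y : X ⊕ Tm T D, EqvGen (Gl t0 R cD l ∅) x y →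
      ((∃ t', x = .inr t' ∧ Teq t0 l t t') ↔ ∃ t', y = .inr t' ∧ Teq t0 l t t') := by
    intro x y hxy
    induction hxy with
    | rel x y h =>
      cases h with
      | nd h => simp
      | @ty s s' h =>
        constructor
        · rintro ⟨t', h1, h2⟩
          cases h1
          exact ⟨s', rfl, h2.trans h⟩
        · rintro ⟨t', h1, h2⟩
          cases h1
          exact ⟨s, rfl, h2.trans h.symm⟩
      | cst d =>
        constructor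
        · rintro ⟨t', h1, -⟩
          cases h1
        · rintro ⟨t', h1, h2⟩
          cases h1
          exact absurd (Option.some.inj (h2.symm.cst ht)) (hnc d)
      | id h => exact absurd h (Set.notMem_empty _)
    | refl x => exact Iff.rfl
    | symm x y _ ih => exact ih.symm
    | trans x y z _ _ ih1 ih2 => exact ih1.trans ih2
  exact (key _ _ h).1 ⟨t, rfl, Veq.refl _ _⟩

/-- A class which is left is left in one step. -/
theorem phi_exStep {α : Type} {r : α → α → Prop} {Q : α → Prop} {a b : α} (h : EqvGen r a b) (ha : Q a)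
    (hb : ¬ Q b) : ∃ x y, (r x y ∨ r y x) ∧ Q x ∧ ¬ Q y := by
  have key : ∀ a b, EqvGen r a b → (¬ ∃ x y, (r x y ∨ r y x) ∧ Q x ∧ ¬ Q y) → (Q a ↔ Q b) := by
    intro a b h hno
    induction h with
    | rel x y h =>
      constructor
      · intro hx
        by_contra hy
        exact hno ⟨x, y, Or.inl h, hx, hy⟩
      · intro hy
        by_contra hx
        exact hno ⟨y, x, Or.inr h, hy, hx⟩
    | refl x => exact Iff.rfl
    | symm x y _ ih => exact ih.symm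
    | trans x y z _ _ ih1 ih2 => exact ih1.trans ih2
  by_contra hno
  exact hb ((key a b h hno).1 ha)

end

/-- The class of a real term which is not a constant contains only terms of the same type, or a term of this type occurs
in a costly pair. -/
theorem real_class {C X : Type} {t0 : Tm T D → C} {N V Mx : ℕ} (ht : GoodTab t0 N V Mx) {R : X → X → Prop}
    {cD : D → X} {l : ℕ} {P : Set ((X ⊕ Tm T D) × (X ⊕ Tm T D))} {r : Fin T.length} {a : Fin (mm T) → Tm T D}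
    {y : X ⊕ Tm T D} (h : EqvGen (Gl t0 R cD l P) (.inr (.f r a)) y) :
    (∃ t', y = .inr t' ∧ Teq t0 l (.f r a) t') ∨ ∃ t', OccP P t' ∧ Teq t0 l (.f r a) t' := by
  by_cases hy : ∃ t', y = .inr t' ∧ Teq t0 l (.f r a) t'
  · exact Or.inl hy
  · obtain ⟨x, y', hxy, ⟨t', rfl, ht'⟩, hy'⟩ := phi_exStep (Q := fun x => ∃ t', x = .inr t' ∧ Teq t0 l (.f r a) t')
      h ⟨_, rfl, Veq.refl _ _⟩ hy
    refine Or.inr ⟨t', ?_, ht'⟩
    have hc : ∀ d, t' ≠ .c d := by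
      rintro d rfl
      have h1 := Veq.cst ht ht'.symm
      cases h1
    rcases hxy with h1 | h1
    · generalize hx : (Sum.inr t' : X ⊕ Tm T D) = x at h1
      cases h1 with
      | nd h2 => cases hx
      | @ty s s' h2 =>
        cases hx
        exact absurd ⟨s', rfl, ht'.trans h2⟩ hy'
      | cst d => cases hx
      | id h2 => exact ⟨_, h2, Or.inl hx.symm⟩
    · generalize hx : (Sum.inr t' : X ⊕ Tm T D) = x at h1
      cases h1 with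
      | nd h2 => cases hx
      | @ty s s' h2 =>
        cases hx
        exact absurd ⟨s, rfl, ht'.trans h2.symm⟩ hy'
      | cst d =>
        cases hx
        exact absurd rfl (hc d)
      | id h2 => exact ⟨_, h2, Or.inr hx.symm⟩

/-- Cells under maps of the nodes. -/
theorem cell_map_rel {X Y : Type} {Q : Y → Y → Prop} {f : X → Y} {r : Fin T.length} {top : X}
    {arg : Fin (mm T) → X} {top' : Y} {arg' : Fin (mm T) → Y} (h1 : Q (f top) top')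
    (h2 : ∀ p, Q (f (arg p)) (arg' p)) (i : Fin (ar (symOf r))) :
    Q (f ((cell (ar := ar) r top arg).2 i)) ((cell (ar := ar) r top' arg').2 i) := by
  rcases h : headOf r i with _ | x
  · rw [cell_snd_none h, cell_snd_none h]
    exact h1
  · rw [cell_snd_some h, cell_snd_some h]
    exact h2 _

/-! ### The map `phi` -/

namespace Low

variable (L : Low 𝔽 E Mk)

@[simp] theorem phi_ctx (d₀ : D) (α : 𝔽.G.X ⊕ Tm T D) : phi (𝔽 := 𝔽) d₀ (.inl (.inl α)) = α := rfl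

@[simp] theorem phi_tm (d₀ : D) (t : Tm T D) : phi (𝔽 := 𝔽) d₀ (.inr t) = .inr t := rfl

theorem phi_wd (d₀ : D) (w : Wd 𝔽.G) : phi (𝔽 := 𝔽) d₀ (.inl (.inr w)) = (val w).elim (.inl (𝔽.G.cD d₀)) .inr := rfl

theorem phi_wd_some (d₀ : D) {w : Wd 𝔽.G} {t : Tm T D} (h : val w = some t) :
    phi (𝔽 := 𝔽) d₀ (.inl (.inr w)) = .inr t := by
  rw [phi_wd, h]
  rfl

/-- Words with the same type of level `l` have free related images. -/
theorem phi_veq (d₀ : D) {P : Set ((𝔽.G.X ⊕ Tm T D) × (𝔽.G.X ⊕ Tm T D))} {l : ℕ} {x y : Wd 𝔽.G}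
    (h : Veq 𝔠.t0 l (val x) (val y)) :
    EqvGen (Gl 𝔠.t0 𝔽.G.R 𝔽.G.cD l P) (phi (𝔽 := 𝔽) d₀ (.inl (.inr x))) (phi (𝔽 := 𝔽) d₀ (.inl (.inr y))) := by
  rcases hx : val x with _ | s
  · rw [hx] at h
    have hy := h.none_iff.1 rfl
    rw [phi_wd, phi_wd, hx, hy]
    exact EqvGen.refl _
  · rcases hy : val y with _ | t
    · rw [hx, hy] at h
      exact absurd (h.none_iff.2 rfl) (by simp)
    · rw [hx, hy] at h
      rw [phi_wd_some (𝔽 := 𝔽) d₀ hx, phi_wd_some (𝔽 := 𝔽) d₀ hy]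
      exact EqvGen.rel _ _ (Gl.ty h)

/-- The level `mu - N = l + 2 N`. -/
theorem mu_sub : 𝔽.mu - bN T 𝔠.K = 𝔽.l + 2 * bN T 𝔠.K := by
  unfold Fr.mu
  omega

/-- The free identifications of the lower patterns are mapped to free identifications of level `l + 2 N`. -/
theorem phi_R1 (hv : Valid 𝔽 E B) (d₀ : D) {a b : L.X1} (h : L.R1 a b) :
    EqvGen (Gl 𝔠.t0 𝔽.G.R 𝔽.G.cD (𝔽.l + 2 * bN T 𝔠.K) ∅) (phi (𝔽 := 𝔽) d₀ (.inl a)) (phi (𝔽 := 𝔽) d₀ (.inl b)) := by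
  have hmu : 𝔽.l + 2 * bN T 𝔠.K ≤ 𝔽.mu := by
    unfold Fr.mu
    omega
  cases h with
  | gl h => exact EqvGen.rel _ _ (h.mono hmu subset_rfl)
  | @wd x y hx hy h =>
    refine phi_veq (𝔽 := 𝔽) d₀ ?_
    rw [← mu_sub]
    exact sh_veq hv hx hy h
  | @root o t _ h =>
    obtain ⟨s, hs⟩ : ∃ s, val (ow o) = some s := by
      rcases hs : val (ow o) with _ | s
      · rw [hs] at h
        exact absurd (h.none_iff.1 rfl) (by simp)
      · exact ⟨s, rfl⟩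
    rw [phi_wd_some (𝔽 := 𝔽) d₀ hs]
    rw [hs] at h
    exact EqvGen.rel _ _ (Gl.ty (h.mono hmu))
  | @base x d _ h =>
    rw [phi_wd_some (𝔽 := 𝔽) d₀ h]
    exact EqvGen.symm _ _ (EqvGen.rel _ _ (Gl.cst d))

/-- The copy of a word of `Q1` in the view. -/
theorem copy_veq (hv : Valid 𝔽 E B) {u : Wd 𝔽.G} (hu : u ∈ L.Q1) {z : Pth T} (hz : z.length ≤ 2 * 𝔠.K + 4)
    (hd : val (ext u z) ≠ none) :
    Veq 𝔠.t0 (𝔽.l + 2 * bN T 𝔠.K) (val (ext u z)) (up (z ++ L.cp u) L.b) := by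
  have h1 := (L.hcp u hu).2.ext z
  rw [ext_ext] at h1
  have h2 : 𝔽.sh (ext u z) := by
    have h3 := L.tok.len u hu.1
    unfold Fr.sh
    rw [ext_snd, List.length_append]
    unfold bR
    omega
  have h3 := class_veq hv h2 hd h1.symm
  rw [mu_sub, val_ext (ow L.o), L.hb] at h3
  exact h3

/-- Position links are mapped to free identifications. -/
theorem phi_pos (hv : Valid 𝔽 E B) (d₀ : D) {u : Wd 𝔽.G} {p : Fin (mm T)} {t : Tm T D} (hu : u ∈ L.Q1)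
    (ht : up (p :: L.cp u) L.b = some t) :
    EqvGen (Gl 𝔠.t0 𝔽.G.R 𝔽.G.cD (𝔽.l + 2 * bN T 𝔠.K) ∅) (.inr t) (phi (𝔽 := 𝔽) d₀ (.inl (.inr (ext u [p])))) := by
  obtain ⟨r, a, hra⟩ := L.tok.cw u hu.1
  have h1 : val (ext u [p]) = some (a p) := up_cons_f hra
  have h2 := L.copy_veq hv hu (z := [p]) (by simp) (by rw [h1]; simp)
  rw [h1, List.singleton_append, ht] at h2
  rw [phi_wd_some (𝔽 := 𝔽) d₀ h1]
  exact EqvGen.rel _ _ (Gl.ty h2.symm)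

/-- A step of the lower identifications is mapped to a free identification, or it is a costly pair of the pattern. -/
theorem phi_step (hv : Valid 𝔽 E B) (d₀ : D) {l : ℕ} {a b : L.X1 ⊕ Tm T D}
    (h : Gl 𝔠.t0 L.R1 L.cD1 l L.Eb a b) :
    EqvGen (Gl 𝔠.t0 𝔽.G.R 𝔽.G.cD (min l (𝔽.l + 2 * bN T 𝔠.K)) ∅) (phi (𝔽 := 𝔽) d₀ a) (phi (𝔽 := 𝔽) d₀ b) ∨
      ∃ α β : 𝔽.G.X ⊕ Tm T D, (α, β) ∈ 𝔽.G.P ∧ a = .inl (.inl α) ∧ b = .inl (.inl β) := by
  cases h with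
  | nd h => exact Or.inl (glE_mono (min_le_right _ _) subset_rfl (L.phi_R1 hv d₀ h))
  | ty h => exact Or.inl (EqvGen.rel _ _ (Gl.ty (h.mono (min_le_left _ _))))
  | cst d => exact Or.inl (EqvGen.rel _ _ (Gl.cst d))
  | id h =>
    cases h with
    | @old α β h => exact Or.inr ⟨α, β, h, rfl, rfl⟩
    | @pos u p t hu _ ht => exact Or.inl (glE_mono (min_le_right _ _) subset_rfl (L.phi_pos hv d₀ hu ht))

/-- The lower identifications are mapped to the identifications of the pattern. -/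
theorem phi_Cl (hv : Valid 𝔽 E B) (d₀ : D) {l : ℕ} (hl : 𝔽.l ≤ l) {a b : L.X1 ⊕ Tm T D} (h : L.Cl l a b) :
    EqvGen (Gl 𝔠.t0 𝔽.G.R 𝔽.G.cD 𝔽.l 𝔽.G.P) (phi (𝔽 := 𝔽) d₀ a) (phi (𝔽 := 𝔽) d₀ b) := by
  refine eqvGen_map (phi (𝔽 := 𝔽) d₀) (fun x y hxy => ?_) h
  rcases L.phi_step hv d₀ hxy with h1 | ⟨α, β, h1, rfl, rfl⟩
  · exact glE_mono (le_min hl (by omega)) (Set.empty_subset _) h1
  · exact EqvGen.rel _ _ (Gl.id h1)

/-- The context atoms of the pattern which are used by a lower pattern. -/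
def Fo (F : Set (Atom ar L.X1)) : Set (Atom ar 𝔽.G.X) :=
  {α | α ∈ 𝔽.G.F ∧ amap (fun n => (Sum.inl (Sum.inl n) : L.X1)) α ∈ F}

theorem Fo_sub (F : Set (Atom ar L.X1)) : L.Fo F ⊆ 𝔽.G.F := fun _ h => h.1

/-- The images of the costly pairs. -/
def Po (d₀ : D) (P : Set ((L.X1 ⊕ Tm T D) × (L.X1 ⊕ Tm T D))) :
    Set ((𝔽.G.X ⊕ Tm T D) × (𝔽.G.X ⊕ Tm T D)) := (fun p => (phi (𝔽 := 𝔽) d₀ p.1, phi (𝔽 := 𝔽) d₀ p.2)) '' P

/-- Bad lower patterns are mapped to bad sub-patterns. -/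
theorem phi_bad (hv : Valid 𝔽 E B) (d₀ : D) {l : ℕ} (hl : 𝔽.l ≤ l) {F : Set (Atom ar L.X1)}
    {V : Set (Tm T D)} {P : Set ((L.X1 ⊕ Tm T D) × (L.X1 ⊕ Tm T D))} (hF : F ⊆ L.F1)
    (hb : 𝔠.Bd L.R1 L.cD1 l F V P) {V'' : Set (Tm T D)} (hV : V ⊆ V'')
    (hk : ¬ F ⊆ fcells 𝔽 → ∀ x ∈ L.W, ∀ t, val x = some t → t ∈ V'') :
    𝔠.Bd 𝔽.G.R 𝔽.G.cD 𝔽.l (L.Fo F) V'' (L.Po d₀ P) := by
  refine EntG.map hb (phi (𝔽 := 𝔽) d₀) (fun x y hxy => ?_) (fun d => EqvGen.refl _) (fun α hα => ?_)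
  · cases hxy with
    | nd h => exact glE_mono (by omega) (Set.empty_subset _) (L.phi_R1 hv d₀ h)
    | ty h => exact EqvGen.rel _ _ (Gl.ty (h.mono hl))
    | cst d => exact EqvGen.rel _ _ (Gl.cst d)
    | id h => exact EqvGen.rel _ _ (Gl.id ⟨_, h, rfl⟩)
  · rcases hα with ⟨β, hβ, rfl⟩ | ⟨r, a, hra, rfl⟩
    · by_cases hβf : β ∈ fcells 𝔽
      · obtain ⟨γ, hγ, rfl⟩ := hβf
        exact ⟨_, Or.inl ⟨γ, ⟨hγ, hβ⟩, rfl⟩, fun p => EqvGen.refl _⟩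
      · have hk' := hk (fun h => hβf (h hβ))
        rcases hF hβ with h1 | ⟨x, hx, r, a, hxa, rfl⟩
        · exact absurd h1 hβf
        · refine ⟨(cell r (Sum.inr (Tm.f r a)) (fun p => Sum.inr (a p)) : Atom ar (𝔽.G.X ⊕ Tm T D)).2,
            Or.inr ⟨r, a, hk' x hx.1 _ hxa, rfl⟩, fun i => ?_⟩
          refine cell_map_rel (Q := EqvGen (Gl 𝔠.t0 𝔽.G.R 𝔽.G.cD 𝔽.l (L.Po d₀ P)))
            (f := fun n : L.X1 => phi (𝔽 := 𝔽) d₀ (.inl n)) (top := Sum.inr x)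
            (arg := fun p => Sum.inr (ext x [p])) (top' := Sum.inr (Tm.f r a)) (arg' := fun p => Sum.inr (a p))
            ?_ (fun p => ?_) i
          · show EqvGen _ (phi (𝔽 := 𝔽) d₀ (.inl (.inr x))) _
            rw [phi_wd_some (𝔽 := 𝔽) d₀ hxa]
            exact EqvGen.refl _
          · show EqvGen _ (phi (𝔽 := 𝔽) d₀ (.inl (.inr (ext x [p])))) _
            have h5 : val (ext x [p]) = some (a p) := up_cons_f hxa
            rw [phi_wd_some (𝔽 := 𝔽) d₀ h5]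
            exact EqvGen.refl _
    · refine ⟨(cell r (Sum.inr (Tm.f r a)) (fun p => Sum.inr (a p)) : Atom ar (𝔽.G.X ⊕ Tm T D)).2,
        Or.inr ⟨r, a, hV hra, rfl⟩, fun i => ?_⟩
      exact cell_map_rel (Q := EqvGen (Gl 𝔠.t0 𝔽.G.R 𝔽.G.cD 𝔽.l (L.Po d₀ P)))
        (f := fun n : L.X1 ⊕ Tm T D => phi (𝔽 := 𝔽) d₀ n) (top := Sum.inr (Tm.f r a))
        (arg := fun p => Sum.inr (a p)) (top' := Sum.inr (Tm.f r a)) (arg' := fun p => Sum.inr (a p))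
        (EqvGen.refl _) (fun p => EqvGen.refl _) i

/-! ### Sizes -/

theorem Po_finite (d₀ : D) {P : Set ((L.X1 ⊕ Tm T D) × (L.X1 ⊕ Tm T D))} (h : P.Finite) : (L.Po d₀ P).Finite :=
  h.image _

theorem Fo_inj : Function.Injective (amap (ar := ar)
    (fun n : 𝔽.G.X => (Sum.inl (Sum.inl n) : (𝔽.G.X ⊕ Tm T D) ⊕ Wd 𝔽.G))) := by
  rintro ⟨i, s⟩ ⟨j, s'⟩ h
  obtain ⟨rfl, h2⟩ := Sigma.mk.inj_iff.mp h
  have h3 := eq_of_heq h2
  have h4 : s = s' := by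
    funext p
    have h5 := congrFun h3 p
    simpa using h5
  rw [h4]

theorem Fo_card {F : Set (Atom ar L.X1)} (hF : F.Finite) : (L.Fo F).ncard ≤ F.ncard :=
  Set.ncard_le_ncard_of_injOn _ (fun _ h => h.2) (fun _ _ _ _ h => (Fo_inj (𝔽 := 𝔽)) h) hF

theorem Po_card (d₀ : D) {P : Set ((L.X1 ⊕ Tm T D) × (L.X1 ⊕ Tm T D))} (h : P.Finite) :
    (L.Po d₀ P).ncard ≤ P.ncard := Set.ncard_image_le h

/-- The general estimate: for all costly pairs `P'` which generate the images of the pairs of `P`. -/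
theorem size_aux (hv : Valid 𝔽 E B) (d₀ : D) {l : ℕ} (hl : 𝔽.l ≤ l)
    {F : Set (Atom ar ((𝔽.G.X ⊕ Tm T D) ⊕ Wd 𝔽.G))} {V : Set (Tm T D)}
    {P : Set ((((𝔽.G.X ⊕ Tm T D) ⊕ Wd 𝔽.G) ⊕ Tm T D) × (((𝔽.G.X ⊕ Tm T D) ⊕ Wd 𝔽.G) ⊕ Tm T D))}
    (h : L.BC l F V P) {P' : Set ((𝔽.G.X ⊕ Tm T D) × (𝔽.G.X ⊕ Tm T D))} (hfin : P'.Finite)
    (h1 : ∀ p ∈ P', EqvGen (Gl 𝔠.t0 𝔽.G.R 𝔽.G.cD 𝔽.l 𝔽.G.P) p.1 p.2)
    (h2 : ∀ p ∈ L.Po d₀ P, EqvGen (Gl 𝔠.t0 𝔽.G.R 𝔽.G.cD 𝔽.l P') p.1 p.2) :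
    𝔽.s ≤ (L.Fo F).ncard + P'.ncard := by
  classical
  have hWf : {t : Tm T D | ∃ x ∈ L.W, val x = some t}.Finite := by
    refine (L.W.finite_toSet.image (fun x => (val x).getD L.b)).subset ?_
    rintro t ⟨x, hx, ht⟩
    exact ⟨x, hx, by simp only [ht, Option.getD_some]⟩
  have hb := L.phi_bad hv d₀ hl h.hF h.bad (V'' := V ∪ {t | ∃ x ∈ L.W, val x = some t}) Set.subset_union_left
    (fun _ x hx t ht => Or.inr ⟨x, hx, ht⟩)
  have hb' := 𝔠.bd_mono (le_refl 𝔽.l) (le_refl (L.Fo F)) (le_refl (V ∪ {t | ∃ x ∈ L.W, val x = some t})) h2 hb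
  refine 𝔽.ok.tight _ _ _ (L.Fo_sub F) ?_ (h.finV.union hWf) hfin h1 hb'
  rintro t (ht | ⟨x, -, hx⟩)
  · exact sub_sub L.V1_sub (h.hV ht)
  · exact val_mem_sub hx

theorem Po_Cl (hv : Valid 𝔽 E B) (d₀ : D) {l : ℕ} (hl : 𝔽.l ≤ l)
    {F : Set (Atom ar ((𝔽.G.X ⊕ Tm T D) ⊕ Wd 𝔽.G))} {V : Set (Tm T D)}
    {P : Set ((((𝔽.G.X ⊕ Tm T D) ⊕ Wd 𝔽.G) ⊕ Tm T D) × (((𝔽.G.X ⊕ Tm T D) ⊕ Wd 𝔽.G) ⊕ Tm T D))}
    (h : L.BC l F V P) : ∀ p ∈ L.Po d₀ P, EqvGen (Gl 𝔠.t0 𝔽.G.R 𝔽.G.cD 𝔽.l 𝔽.G.P) p.1 p.2 := by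
  rintro p ⟨p', hp', rfl⟩
  exact L.phi_Cl hv d₀ hl (h.hP p' hp')

/-- (5.4) Bad lower patterns have size at least `s`, and in the case of equality all their context atoms are atoms of
the pattern and no costly pair becomes free. -/
theorem size_ge (hv : Valid 𝔽 E B) (d₀ : D) {l : ℕ} (hl : 𝔽.l ≤ l)
    {F : Set (Atom ar ((𝔽.G.X ⊕ Tm T D) ⊕ Wd 𝔽.G))} {V : Set (Tm T D)}
    {P : Set ((((𝔽.G.X ⊕ Tm T D) ⊕ Wd 𝔽.G) ⊕ Tm T D) × (((𝔽.G.X ⊕ Tm T D) ⊕ Wd 𝔽.G) ⊕ Tm T D))}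
    (h : L.BC l F V P) : 𝔽.s ≤ F.ncard + P.ncard ∧ (F.ncard + P.ncard = 𝔽.s → F ⊆ fcells 𝔽 ∧
      ∀ p ∈ P, ¬ EqvGen (Gl 𝔠.t0 𝔽.G.R 𝔽.G.cD 𝔽.l ∅) (phi (𝔽 := 𝔽) d₀ p.1) (phi (𝔽 := 𝔽) d₀ p.2)) := by
  classical
  have hFf : F.Finite := L.F1_finite.subset h.hF
  have h1 := L.size_aux hv d₀ hl h (L.Po_finite d₀ h.finP) (L.Po_Cl hv d₀ hl h)
    (fun p hp => EqvGen.rel _ _ (Gl.id hp))
  have h2 := L.Fo_card hFf
  have h3 := L.Po_card d₀ h.finP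
  refine ⟨by omega, fun heq => ⟨?_, ?_⟩⟩
  · have h4 : F.ncard ≤ ((amap (fun n => (Sum.inl (Sum.inl n) : L.X1))) '' (L.Fo F)).ncard := by
      rw [Set.ncard_image_of_injective _ (Fo_inj (𝔽 := 𝔽))]
      omega
    have h5 : (amap (fun n => (Sum.inl (Sum.inl n) : L.X1))) '' (L.Fo F) ⊆ F := by
      rintro _ ⟨α, hα, rfl⟩
      exact hα.2
    have h6 := Set.eq_of_subset_of_ncard_le h5 h4 hFf
    rw [← h6]
    rintro _ ⟨α, hα, rfl⟩
    exact ⟨α, hα.1, rfl⟩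
  · intro p hp hfree
    have h4 := L.size_aux hv d₀ hl h (P' := L.Po d₀ (P \ {p})) (L.Po_finite d₀ (h.finP.subset Set.sdiff_subset))
      (fun p' hp' => L.Po_Cl hv d₀ hl h p' (Set.image_mono Set.sdiff_subset hp')) (by
        rintro _ ⟨p', hp', rfl⟩
        by_cases hpp : p' = p
        · subst hpp
          exact glE_mono (le_refl _) (Set.empty_subset _) hfree
        · exact EqvGen.rel _ _ (Gl.id ⟨p', ⟨hp', hpp⟩, rfl⟩))
    have h5 := L.Po_card d₀ (h.finP.subset (Set.sdiff_subset (t := {p})))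
    have h6 : (P \ {p}).ncard < P.ncard := Set.ncard_sdiff_singleton_lt_of_mem hp h.finP
    omega

/-! ### The case of equality (5.7) -/

/-- Every term which occurs in a costly pair of a lower pattern of size `s` has the type of a term which occurs in a
costly pair of the pattern. -/
theorem root_term (hv : Valid 𝔽 E B) (d₀ : D) {l : ℕ} (hl : 𝔽.mu ≤ l)
    {F : Set (Atom ar ((𝔽.G.X ⊕ Tm T D) ⊕ Wd 𝔽.G))} {V : Set (Tm T D)}
    {P : Set ((((𝔽.G.X ⊕ Tm T D) ⊕ Wd 𝔽.G) ⊕ Tm T D) × (((𝔽.G.X ⊕ Tm T D) ⊕ Wd 𝔽.G) ⊕ Tm T D))}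
    (h : L.BC l F V P) (hs : F.ncard + P.ncard = 𝔽.s) {t : Tm T D} (ht : OccP P t) (hnc : ∃ r a, t = .f r a) :
    ∃ t', OccP 𝔽.G.P t' ∧ Teq 𝔠.t0 (𝔽.l + 2 * bN T 𝔠.K) t t' := by
  have hll : 𝔽.l ≤ l := le_trans (by unfold Fr.mu; omega) hl
  have hmin : min l (𝔽.l + 2 * bN T 𝔠.K) = 𝔽.l + 2 * bN T 𝔠.K := by
    apply min_eq_right
    refine le_trans ?_ hl
    unfold Fr.mu
    omega
  have hfree := ((L.size_ge hv d₀ hll h).2 hs).2
  obtain ⟨r, a, rfl⟩ := hnc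
  -- the partner of `t`
  obtain ⟨b, hb1, hb2⟩ : ∃ b, L.Cl l (.inr (.f r a)) b ∧
      ¬ EqvGen (Gl 𝔠.t0 𝔽.G.R 𝔽.G.cD 𝔽.l ∅) (.inr (.f r a)) (phi (𝔽 := 𝔽) d₀ b) := by
    obtain ⟨p, hp, h1 | h1⟩ := ht
    · refine ⟨p.2, ?_, ?_⟩
      · rw [← h1]
        exact h.hP p hp
      · have h2 := hfree p hp
        rw [h1] at h2
        exact h2
    · refine ⟨p.1, ?_, ?_⟩
      · rw [← h1]
        exact EqvGen.symm _ _ (h.hP p hp)
      · have h2 := hfree p hp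
        rw [h1] at h2
        exact fun h3 => h2 (EqvGen.symm _ _ h3)
  let Q : L.X1 ⊕ Tm T D → Prop := fun x =>
    EqvGen (Gl 𝔠.t0 𝔽.G.R 𝔽.G.cD (𝔽.l + 2 * bN T 𝔠.K) ∅) (.inr (.f r a)) (phi (𝔽 := 𝔽) d₀ x)
  have hQa : Q (.inr (.f r a)) := EqvGen.refl _
  have hQb : ¬ Q b := fun h1 => hb2 (glE_mono (by omega) (le_refl _) h1)
  obtain ⟨x, y, hxy, hx, hy⟩ := phi_exStep hb1 hQa hQb
  -- the step is a costly pair of the pattern
  have key : ∀ α β : 𝔽.G.X ⊕ Tm T D, ((α, β) ∈ 𝔽.G.P ∨ (β, α) ∈ 𝔽.G.P) → x = .inl (.inl α) →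
      ∃ t', OccP 𝔽.G.P t' ∧ Teq 𝔠.t0 (𝔽.l + 2 * bN T 𝔠.K) (.f r a) t' := by
    rintro α β hP rfl
    obtain ⟨t', h1, h2⟩ := phi_free 𝔠.tab (t := .f r a) (by intro d h; cases h) hx
    have h3 : α = .inr t' := h1
    subst h3
    rcases hP with hP | hP
    · exact ⟨t', ⟨_, hP, Or.inl rfl⟩, h2⟩
    · exact ⟨t', ⟨_, hP, Or.inr rfl⟩, h2⟩
  rcases hxy with h1 | h1
  · rcases L.phi_step hv d₀ h1 with h2 | ⟨α, β, h2, h3, -⟩
    · rw [hmin] at h2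
      exact absurd (EqvGen.trans _ _ _ hx h2) hy
    · exact key α β (Or.inl h2) h3
  · rcases L.phi_step hv d₀ h1 with h2 | ⟨α, β, h2, -, h3⟩
    · rw [hmin] at h2
      exact absurd (EqvGen.trans _ _ _ hx (EqvGen.symm _ _ h2)) hy
    · exact key β α (Or.inr h2) h3

/-- (5.7) The case of a lower pattern of the same size. -/
theorem case_eq (hv : Valid 𝔽 E B) (d₀ : D) {l : ℕ} (hl : 𝔽.mu ≤ l)
    {F : Set (Atom ar ((𝔽.G.X ⊕ Tm T D) ⊕ Wd 𝔽.G))} {V : Set (Tm T D)}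
    {P : Set ((((𝔽.G.X ⊕ Tm T D) ⊕ Wd 𝔽.G) ⊕ Tm T D) × (((𝔽.G.X ⊕ Tm T D) ⊕ Wd 𝔽.G) ⊕ Tm T D))}
    (h : L.BC l F V P) (hF : F.ncard ≤ 𝔠.K) (hV : V.ncard ≤ 𝔠.K) (hnc : ∀ t ∈ V, ∃ r a, t = .f r a)
    (hs : F.ncard + P.ncard = 𝔽.s) (IH : 𝔠.PP (dep L.b) 𝔽.s 𝔽.l) : 𝔠.Cert 𝔽.G 𝔽.l := by
  classical
  have hll : 𝔽.l ≤ l := le_trans (by unfold Fr.mu; omega) hl
  have hKN : 𝔠.K + 2 ≤ bN T 𝔠.K := by unfold bN; omega
  have hbc : L.BC (𝔽.l + 3 * bN T 𝔠.K) F V P := Low.bc_mono h hl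
  have hpok := Low.pok hbc hF hV hnc hs.le (fun F'' V'' P'' h'' => (L.size_ge hv d₀ (le_refl _) h'').1)
  obtain ⟨S, hcard, hS, hbad⟩ := IH _ hpok
  have hFf := ((L.size_ge hv d₀ hll h).2 hs).1
  -- the renaming of the roots
  let ψ : Tm T D → Tm T D := fun t =>
    if ht : ∃ t', OccP 𝔽.G.P t' ∧ Teq 𝔠.t0 (𝔽.l + 2 * bN T 𝔠.K) t t' then ht.choose else t
  have hψ : ∀ x ∈ S, OccP 𝔽.G.P (ψ x.1) ∧ Teq 𝔠.t0 (𝔽.l + 2 * bN T 𝔠.K) x.1 (ψ x.1) := by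
    intro x hx
    obtain ⟨h1, -, ⟨r, a, h2⟩, -⟩ := hS x hx
    have h3 : ∃ r a, x.1 = .f r a := by
      cases hx1 : x.1 with
      | c d =>
        rw [hx1] at h2
        by_cases h4 : x.2 = []
        · rw [h4] at h2
          cases h2
        · rw [up_c h4] at h2
          cases h2
      | f r a => exact ⟨r, a, rfl⟩
    have h4 := L.root_term hv d₀ hl h hs h1 h3
    have h5 : ψ x.1 = h4.choose := dif_pos h4
    rw [h5]
    exact h4.choose_spec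
  have hval : ∀ x ∈ S, Veq 𝔠.t0 (𝔽.l + 1) (up x.2 x.1) (up x.2 (ψ x.1)) := by
    intro x hx
    have h1 := (hψ x hx).2.bind x.2 (l' := 𝔽.l + 1) (by
      have := (hS x hx).2.1
      omega)
    exact h1
  refine ⟨S.image (fun x => (ψ x.1, x.2)), Finset.card_image_le.trans hcard, ?_, ?_⟩
  · intro y hy
    obtain ⟨x, hx, rfl⟩ := Finset.mem_image.1 hy
    obtain ⟨-, h2, ⟨r, a, h3⟩, h4⟩ := hS x hx
    refine ⟨(hψ x hx).1, h2, ?_, ?_⟩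
    · have h5 := hval x hx
      rw [h3] at h5
      obtain ⟨a', ha'⟩ := h5.rule 𝔠.tab
      exact ⟨r, a', ha'⟩
    · intro p z hz
      exact Finset.mem_image.2 ⟨(x.1, z), h4 p z hz, rfl⟩
  · have hb := L.phi_bad hv d₀ (le_refl 𝔽.l) h.hF hbad (V'' := {t | ∃ x ∈ S, up x.2 x.1 = some t}) (le_refl _)
      (fun hno => absurd hFf hno)
    refine EntG.map hb _root_.id (fun x y hxy => ?_) (fun d => EqvGen.refl _) (fun α hα => ?_)
    · exact phi_glOf (L.Po_Cl hv d₀ hll h) (EqvGen.rel _ _ hxy)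
    · rcases hα with ⟨β, hβ, rfl⟩ | ⟨r, a, ⟨x, hx, hxa⟩, rfl⟩
      · exact ⟨_, Or.inl ⟨β, hβ.1, rfl⟩, fun p => EqvGen.refl _⟩
      · have h1 := hval x hx
        rw [hxa] at h1
        obtain ⟨a', ha'⟩ := h1.rule 𝔠.tab
        rw [ha'] at h1
        refine ⟨(cell r (Sum.inr (Tm.f r a')) (fun p => Sum.inr (a' p)) : Atom ar (𝔽.G.X ⊕ Tm T D)).2,
          Or.inr ⟨r, a', ⟨_, Finset.mem_image.2 ⟨x, hx, rfl⟩, ha'⟩, rfl⟩, fun i => ?_⟩
        exact cell_rel (Q := EqvGen (Gl 𝔠.t0 𝔽.G.R 𝔽.G.cD 𝔽.l 𝔽.G.P)) (EqvGen.rel _ _ (Gl.ty (h1.mono (by omega))))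
          (fun p => EqvGen.rel _ _ (Gl.ty (h1.arg p))) i

end Low

end Pool.Agent.BF
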