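import Pool.Agent.BF.LowL
import Pool.Agent.BF.Phi
import Pool.Agent.BF.Nent

set_option autoImplicit false

/-!
# LowS: the case of a larger size, and the step for one task
-/

namespace Pool.Agent.BF

open Pool.Agent.H56 Relation
open Pool.Agent.WFC (Atom amap EntG Small ElimSys AncA)

variable {k : ℕ} {ar : Fin k → ℕ} {T : List (Rule ar)} {D : Type} {𝔠 : Ctx T D} {𝔽 : Fr 𝔠} {E : St 𝔽} {B B' Mk l l' : ℕ}

/-- In a prefix-closed set the paths are short. -/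
theorem prefix_len {α β : Type} [DecidableEq α] [DecidableEq β] {S : Finset (α × List β)}
    (hS : ∀ x ∈ S, ∀ p z, x.2 = p :: z → (x.1, z) ∈ S) {x : α × List β} (hx : x ∈ S) :
    x.2.length + 1 ≤ S.card := by
  have h1 : ∀ i, (x.1, x.2.drop i) ∈ S := by
    intro i
    induction i with
    | zero => simpa using hx
    | succ i ih =>
      rcases h : x.2.drop i with _ | ⟨p, z⟩
      · have h2 : x.2.drop (i + 1) = [] := by
          rw [← List.drop_drop, h]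
          rfl
        rw [h2, ← h]
        exact ih
      · have h2 : x.2.drop (i + 1) = z := by
          rw [← List.drop_drop, h]
          rfl
        rw [h2]
        exact hS _ ih p z h
  have h2 : ((Finset.range (x.2.length + 1)).image (fun i => (x.1, x.2.drop i))) ⊆ S := by
    intro y hy
    obtain ⟨i, -, rfl⟩ := Finset.mem_image.1 hy
    exact h1 i
  have h3 : ((Finset.range (x.2.length + 1)).image (fun i => (x.1, x.2.drop i))).card = x.2.length + 1 := by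
    rw [Finset.card_image_of_injOn, Finset.card_range]
    intro i hi j hj hij
    have h4 := congrArg (fun y : α × List β => y.2.length) hij
    simp only [List.length_drop] at h4
    have hi' := Finset.mem_range.1 (Finset.mem_coe.1 hi)
    have hj' := Finset.mem_range.1 (Finset.mem_coe.1 hj)
    omega
  rw [← h3]
  exact Finset.card_le_card h2

theorem npr_lt {E E' : St 𝔽} (hE : E ⊆ E') {x y : Wd 𝔽.G} (hx : 𝔽.sh x) (hy : 𝔽.sh y) (h : Eqw 𝔽 E' x y)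
    (h' : ¬ Eqw 𝔽 E x y) : npr 𝔽 E < npr 𝔽 E' := by
  unfold npr
  apply Set.ncard_lt_ncard
  · constructor
    · rintro ⟨u, v⟩ ⟨h1, h2, h3⟩
      exact ⟨h1, h2, h3.mono hE⟩
    · intro hsub
      exact h' (hsub (show (x, y) ∈ {p : Wd 𝔽.G × Wd 𝔽.G | 𝔽.sh p.1 ∧ 𝔽.sh p.2 ∧ Eqw 𝔽 E' p.1 p.2} from
        ⟨hx, hy, h⟩)).2.2
  · refine ((finite_sh 𝔽).prod (finite_sh 𝔽)).subset ?_
    rintro ⟨u, v⟩ ⟨h1, h2, -⟩
    exact ⟨h1, h2⟩

/-- The roots of a certificate of a normalized lower pattern are allowed positions. -/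
theorem Low.roots (L : Low 𝔽 E Mk) {F : Set (Atom ar ((𝔽.G.X ⊕ Tm T D) ⊕ Wd 𝔽.G))} {V : Set (Tm T D)}
    {P : Set ((((𝔽.G.X ⊕ Tm T D) ⊕ Wd 𝔽.G) ⊕ Tm T D) × (((𝔽.G.X ⊕ Tm T D) ⊕ Wd 𝔽.G) ⊕ Tm T D))}
    (h : L.BC l F V P) (hn : ∀ p ∈ P, ¬ EqvGen (Gl 𝔠.t0 L.R1 L.cD1 l ∅) p.1 p.2) {t : Tm T D}
    (ht : OccP P t) {r : Fin T.length} {a : Fin (mm T) → Tm T D} (hr : t = .f r a) :
    ∃ u ∈ L.Q1, ∃ p, Alw 𝔽 E L.W L.M (ext u [p]) ∧ ∃ t', up (p :: L.cp u) L.b = some t' ∧ Teq 𝔠.t0 l t t' := by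
  subst hr
  have key : ∀ y, L.Cl l (.inr (.f r a)) y → ¬ EqvGen (Gl 𝔠.t0 L.R1 L.cD1 l ∅) (.inr (.f r a)) y →
      ∃ u ∈ L.Q1, ∃ p, Alw 𝔽 E L.W L.M (ext u [p]) ∧ ∃ t', up (p :: L.cp u) L.b = some t' ∧
        Teq 𝔠.t0 l (.f r a) t' := by
    intro y hy hny
    rcases real_class 𝔠.tab hy with ⟨t', rfl, h2⟩ | ⟨t', ⟨p, hp, hp'⟩, h2⟩
    · exact absurd (EqvGen.rel _ _ (.ty h2)) hny
    · cases hp with
      | old hα => rcases hp' with h3 | h3 <;> cases h3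
      | @pos u p t hu hA ht =>
        rcases hp' with h3 | h3
        · have h4 : t = t' := Sum.inr.inj h3
          subst h4
          exact ⟨u, hu, p, hA, t, ht, h2⟩
        · cases h3
  obtain ⟨p, hp, h1 | h1⟩ := ht
  · refine key p.2 ?_ ?_
    · rw [← h1]
      exact h.hP p hp
    · rw [← h1]
      exact hn p hp
  · refine key p.1 ?_ ?_
    · rw [← h1]
      exact EqvGen.symm _ _ (h.hP p hp)
    · rw [← h1]
      exact fun h2 => hn p hp (EqvGen.symm _ _ h2)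

/-- (5.6) The case of a larger size: the task is solved, or the new state has a new pair of equivalent short words. -/
theorem Low.case_gt (L : Low 𝔽 E Mk) (hv : Valid 𝔽 E B) (hB : B' ≤ B) (hmu : 𝔽.mu ≤ B') (hl : B' ≤ l')
    {F : Set (Atom ar ((𝔽.G.X ⊕ Tm T D) ⊕ Wd 𝔽.G))} {V : Set (Tm T D)}
    {P : Set ((((𝔽.G.X ⊕ Tm T D) ⊕ Wd 𝔽.G) ⊕ Tm T D) × (((𝔽.G.X ⊕ Tm T D) ⊕ Wd 𝔽.G) ⊕ Tm T D))}
    (h : L.BC (l' + 3 * bN T 𝔠.K) F V P)
    (hn : ∀ p ∈ P, ¬ EqvGen (Gl 𝔠.t0 L.R1 L.cD1 (l' + 3 * bN T 𝔠.K) ∅) p.1 p.2)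
    (hc : 𝔠.Cert (L.pat F V P) l') :
    Valid 𝔽 (L.newE l') B' ∧ (Solved 𝔽 E L.W L.M ∨ npr 𝔽 E < npr 𝔽 (L.newE l')) := by
  classical
  refine ⟨L.newE_valid hv hB hl hmu, ?_⟩
  obtain ⟨S, hSc, hS, hb⟩ := hc
  have hnc : ∀ x ∈ S, ∃ r a, x.1 = Tm.f r a := by
    intro x hx
    obtain ⟨-, -, ⟨r, a, h1⟩, -⟩ := hS x hx
    rcases hx1 : x.1 with d | ⟨r', a'⟩
    · rw [hx1] at h1
      by_cases h0 : x.2 = []
      · rw [h0, up_nil] at h1
        cases h1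
      · rw [up_c h0] at h1
        cases h1
    · exact ⟨r', a', rfl⟩
  have hlen : ∀ x ∈ S, x.2.length + 1 ≤ 𝔠.K := fun x hx =>
    (prefix_len (fun y hy => (hS y hy).2.2.2) hx).trans hSc
  obtain ⟨u₀, hu₀⟩ := L.tok.ne
  have hm0 : 0 < mm T := by unfold mm; omega
  have hch : ∀ t : Tm T D, ∃ (u : Wd 𝔽.G) (p : Fin (mm T)), (∃ x ∈ S, x.1 = t) → u ∈ L.Q1 ∧
      Alw 𝔽 E L.W L.M (ext u [p]) ∧ ∃ t', up (p :: L.cp u) L.b = some t' ∧
        Teq 𝔠.t0 (l' + 3 * bN T 𝔠.K) t t' := by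
    intro t
    by_cases ht : ∃ x ∈ S, x.1 = t
    · obtain ⟨x, hx, rfl⟩ := ht
      obtain ⟨r, a, hra⟩ := hnc x hx
      obtain ⟨u, hu, p, hA, t', h1, h2⟩ := L.roots h hn (hS x hx).1 hra
      exact ⟨u, p, fun _ => ⟨hu, hA, t', h1, h2⟩⟩
    · exact ⟨u₀, ⟨0, hm0⟩, fun h => absurd h ht⟩
  choose ru rp hrp using hch
  have hrp' : ∀ x ∈ S, ru x.1 ∈ L.Q1 ∧ Alw 𝔽 E L.W L.M (ext (ru x.1) [rp x.1]) ∧
      ∃ t', up (rp x.1 :: L.cp (ru x.1)) L.b = some t' ∧ Teq 𝔠.t0 (l' + 3 * bN T 𝔠.K) x.1 t' :=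
    fun x hx => hrp x.1 ⟨x, hx, rfl⟩
  have hent := L.newE_entV hv (hmu.trans hl) h.hF h.hP S ru rp
    (fun x hx => ⟨hlen x hx, (hS x hx).2.2.1, (hrp' x hx).1, (hrp' x hx).2.2⟩) hb
  by_cases hns : ∀ x y : Wd 𝔽.G, 𝔽.sh x → 𝔽.sh y → Eqw 𝔽 (L.newE l') x y → Eqw 𝔽 E x y
  · left
    refine ⟨S.image (fun x => ext (ru x.1) (x.2 ++ [rp x.1])), Finset.card_image_le.trans hSc, ?_, ?_⟩
    · intro s hs
      obtain ⟨x, hx, rfl⟩ := Finset.mem_image.1 hs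
      obtain ⟨hu, hA, t', ht', hte⟩ := hrp' x hx
      have hxl := hlen x hx
      refine ⟨?_, ⟨ru x.1, hu, ?_⟩, ?_⟩
      · obtain ⟨r, a, hra⟩ := (hS x hx).2.2.1
        have h1 : Veq 𝔠.t0 0 (some (.f r a)) (up x.2 t') := by
          have h2 := hte.bind x.2 (l' := 0) (by
            have : 𝔠.K + 2 ≤ bN T 𝔠.K := by unfold bN; omega
            omega)
          rw [Option.bind_some, Option.bind_some, hra] at h2
          exact h2
        obtain ⟨a', ha'⟩ := h1.rule 𝔠.tab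
        have h3 := L.pos_veq hv hu (z := x.2 ++ [rp x.1]) (by
          rw [List.length_append, List.length_singleton]
          omega)
        have h4 : up ((x.2 ++ [rp x.1]) ++ L.cp (ru x.1)) L.b = some (.f r a') := by
          rw [List.append_assoc, List.singleton_append, up_append, ht', Option.bind_some, ha']
        rw [h4] at h3
        obtain ⟨a'', ha''⟩ := h3.symm.rule 𝔠.tab
        exact ⟨r, a'', ha''⟩
      · rw [ext_snd, List.length_append, List.length_append, List.length_singleton]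
        omega
      · rcases hx2 : x.2 with _ | ⟨p, z⟩
        · left
          exact ⟨ru x.1, hu, rp x.1, rfl, hA⟩
        · right
          refine ⟨ext (ru x.1) (z ++ [rp x.1]), Finset.mem_image.2 ⟨(x.1, z), (hS x hx).2.2.2 p z hx2, rfl⟩,
            p, ?_⟩
          rw [ext_cons]
          rfl
    · refine EntG.mono hent ?_ ?_
      · intro a b hab
        cases hab with
        | gl h => exact .gl h
        | wd h1 h2 h3 => exact .wd h1 h2 (hns _ _ h1 h2 h3)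
        | root h1 h2 => exact .root h1 h2
        | base h1 h2 => exact .base h1 h2
      · refine Set.union_subset_union_right _ (vcells_mono ?_)
        refine Set.union_subset_union_right _ ?_
        rintro w ⟨x, hx, rfl⟩
        exact Finset.mem_coe.2 (Finset.mem_image.2 ⟨x, hx, rfl⟩)
  · right
    push Not at hns
    obtain ⟨x, y, hx, hy, h1, h2⟩ := hns
    exact npr_lt Set.subset_union_left hx hy h1 h2

/-- THE STEP: a task with a view in which the copies agree is solved, or there is a certificate, or the state grows. -/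
theorem low_step [Finite D] [Nonempty D] (𝔽 : Fr 𝔠)
    (IH : ∀ n' < 𝔽.n, ∀ s' l', s' ≤ bS T 𝔠.K (Nat.card D) → l' ≤ s' * bDel T 𝔠.K (Nat.card D) → 𝔠.PP n' s' l')
    {E : St 𝔽} {Mk : ℕ} (hv : Valid 𝔽 E (Mk + bN T 𝔠.K)) (h1 : 𝔽.mu + bSt T 𝔠.K (Nat.card D) ≤ Mk)
    (h2 : Mk ≤ 𝔽.l + bDel T 𝔠.K (Nat.card D)) (L : Low 𝔽 E Mk) :
    𝔠.Cert 𝔽.G 𝔽.l ∨ ∃ E', E ⊆ E' ∧ Valid 𝔽 E' (Mk - bSt T 𝔠.K (Nat.card D) + bN T 𝔠.K) ∧
      (Solved 𝔽 E L.W L.M ∨ npr 𝔽 E < npr 𝔽 E') := by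
  obtain ⟨d₀⟩ := ‹Nonempty D›
  obtain ⟨i, s', hi, hs', hH, hmin⟩ := L.ladder hv (3 * bN T 𝔠.K)
  have hmul : 3 * bN T 𝔠.K * (i + 1) ≤ 3 * bN T 𝔠.K * (bS T 𝔠.K (Nat.card D) + 1) :=
    Nat.mul_le_mul_left _ (by omega)
  have hmul1 : 3 * bN T 𝔠.K * (i + 1) = 3 * bN T 𝔠.K * i + 3 * bN T 𝔠.K := by ring
  have hst : bSt T 𝔠.K (Nat.card D) = 3 * bN T 𝔠.K * (bS T 𝔠.K (Nat.card D) + 1) + bN T 𝔠.K := rfl
  have hmu : 𝔽.mu = 𝔽.l + 3 * bN T 𝔠.K := rfl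
  obtain ⟨l', hl'⟩ : ∃ l', l' = Mk - 3 * bN T 𝔠.K * (i + 1) := ⟨_, rfl⟩
  have hli : Mk - 3 * bN T 𝔠.K * i = l' + 3 * bN T 𝔠.K := by omega
  rw [hli] at hH
  rw [← hl'] at hmin
  have hmin' : ∀ s'', L.Has (l' + 3 * bN T 𝔠.K) s'' → s' ≤ s'' := fun s'' h =>
    hmin s'' (Low.has_mono h (Nat.le_add_right _ _))
  obtain ⟨F, V, P, hBC, hsz, hF, hV, hnc, hn⟩ := L.exists_norm hH hmin'
  have hge := (L.size_ge hv d₀ (l := l' + 3 * bN T 𝔠.K) (by omega) hBC).1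
  have hdep := L.dep_b_lt
  rcases Nat.lt_or_ge 𝔽.s s' with hlt | hle
  · -- larger size
    right
    have hpok : 𝔠.POk (L.pat F V P) (dep L.b) s' l' :=
      Low.pok hBC hF hV hnc (le_of_eq hsz) (fun F'' V'' P'' h => hmin _ ⟨F'', V'', P'', h, rfl⟩)
    have hll : l' ≤ s' * bDel T 𝔠.K (Nat.card D) := by
      have h3 : (𝔽.s + 1) * bDel T 𝔠.K (Nat.card D) ≤ s' * bDel T 𝔠.K (Nat.card D) :=
        Nat.mul_le_mul_right _ hlt
      have h4 := 𝔽.hl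
      have h5 : (𝔽.s + 1) * bDel T 𝔠.K (Nat.card D) =
        𝔽.s * bDel T 𝔠.K (Nat.card D) + bDel T 𝔠.K (Nat.card D) := by ring
      omega
    have hcert := IH (dep L.b) hdep s' l' hs' hll _ hpok
    obtain ⟨h6, h7⟩ := L.case_gt (B' := Mk - bSt T 𝔠.K (Nat.card D) + bN T 𝔠.K) hv (by omega) (by omega) (by omega)
      hBC hn hcert
    exact ⟨L.newE l', Set.subset_union_left, h6, h7⟩
  · -- own size
    left
    have hs : F.ncard + P.ncard = 𝔽.s := by omega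
    exact L.case_eq hv d₀ (l := l' + 3 * bN T 𝔠.K) (by omega) hBC hF hV hnc hs
      (IH (dep L.b) hdep 𝔽.s 𝔽.l 𝔽.hs 𝔽.hl)

end Pool.Agent.BF
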