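import Pool.Agent.BF.XL

set_option autoImplicit false

/-!
# RU: the use of the recharging property
-/

namespace Pool.Agent.BF

open Pool.Agent.H56 Relation
open Pool.Agent.WFC (Atom amap EntG Small ElimSys AncA)

variable {k : ℕ} {ar : Fin k → ℕ} {T : List (Rule ar)} {D : Type} {𝔠 : Ctx T D} {𝔽 : Fr 𝔠} {E E' : St 𝔽} {B : ℕ}

/-- The recharging relation. -/
def RRel (𝔽 : Fr 𝔠) (M : Set (Oc 𝔽.G)) (Mk : ℕ) (b : M → Tm T D) (p q : M × Pth T) : Prop :=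
  (p.2 ≠ [] ∧ p.2.length < bN T 𝔠.K) ∧ (q.2 ≠ [] ∧ q.2.length < bN T 𝔠.K) ∧
    ((p.2 = q.2 ∧ Veq 𝔠.t0 𝔽.mu (val (ow p.1.1)) (val (ow q.1.1))) ∨
      Veq 𝔠.t0 Mk (up p.2 (b p.1)) (up q.2 (b q.1)))

/-- A task with a view in which all copies agree. -/
theorem exists_low {Mk : ℕ} (hv : Valid 𝔽 E (Mk + bN T 𝔠.K)) (hMk : Mk ≤ bMx T 𝔠.K (Nat.card D))
    {W : Finset (Wd 𝔽.G)} {M : Set (Oc 𝔽.G)} (tok : TOk 𝔽 E W M) : ∃ L : Low 𝔽 E Mk, L.W = W ∧ L.M = M := by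
  classical
  have hfin := finite_oc 𝔽
  have hmu := three_bN_le_mu (𝔽 := 𝔽)
  have hRN := bR_lt_bN (𝔠 := 𝔠)
  obtain ⟨u₀, hu₀⟩ := tok.ne
  have hu₀W : u₀ ∈ W := hu₀.1
  have hX₀ : XX 𝔽 E u₀ = M := hu₀.2.2.1
  have hX₀' : XX' 𝔽 E u₀ = M := hu₀.2.2.2
  have hs₀ : 𝔽.sh u₀ := by
    have := tok.len u₀ hu₀W
    have h2 : bR T 𝔠.K = bR1 T 𝔠.K + 2 * 𝔠.K + 6 := rfl
    unfold Fr.sh
    omega
  have hd₀ : val u₀ ≠ none := by
    obtain ⟨r, a, h⟩ := tok.cw u₀ hu₀W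
    rw [h]
    simp
  -- the values of the occurrences in `M`
  have hval : ∀ o ∈ M, ∃ t, val (ow o) = some t := by
    intro o ho
    rw [← hX₀] at ho
    obtain ⟨z, hz⟩ := ho
    obtain ⟨-, h2, -⟩ := class_lemma hv hs₀ hd₀ hz.symm
    exact Option.ne_none_iff_exists'.1 (val_tail_ne h2)
  have hneT : Nonempty (Tm T D) := ⟨u₀.1.1⟩
  choose! b₀ hb₀ using hval
  let b : M → Tm T D := fun o => b₀ o.1
  have hb : ∀ o : M, val (ow o.1) = some (b o) := fun o => hb₀ o.1 o.2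
  have hne : Nonempty M := by
    refine ⟨⟨(u₀.1, none), ?_⟩⟩
    rw [← hX₀']
    exact (nonvar_row hv (hX₀.trans hX₀'.symm) (Eqw.refl u₀)).2
  -- the classes
  let Y : Wd 𝔽.G → Prop := fun y => 𝔽.sh y ∧ val y ≠ none ∧ XX 𝔽 E y = M ∧ XX' 𝔽 E y = M
  let pi : M → Pth T → Pth T → Prop := fun o z z' =>
    ∃ y, Y y ∧ Eqw 𝔽 E (ext (ow o.1) z) y ∧ Eqw 𝔽 E (ext (ow o.1) z') y
  have hlen : ∀ (o : M) (z : Pth T) (y : Wd 𝔽.G), Y y → Eqw 𝔽 E (ext (ow o.1) z) y → z ≠ [] ∧ z.length < bN T 𝔠.K := by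
    rintro o z y ⟨h1, h2, h3, h4⟩ h
    constructor
    · rintro rfl
      rw [ext_nil] at h
      refine not_mem_XX' hv (o := o.1) ?_ h ?_
      · rw [hb o]
        simp
      · rw [h4]
        exact o.2
    · have h5 := (class_lemma hv h1 h2 h.symm).1
      rw [ext_snd, List.length_append] at h5
      omega
  -- the node of a word
  let nd : Wd 𝔽.G → M × Pth T := fun w => if h : ((w.1, none) : Oc 𝔽.G) ∈ M then (⟨_, h⟩, w.2) else (hne.some, w.2)
  have hnd : ∀ w y, Y y → Eqw 𝔽 E w y → ∃ h : ((w.1, none) : Oc 𝔽.G) ∈ M, nd w = (⟨_, h⟩, w.2) ∧ w.2 ≠ [] ∧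
      w.2.length < bN T 𝔠.K := by
    rintro w y ⟨h1, h2, h3, h4⟩ h
    obtain ⟨h5, h6⟩ := nonvar_row hv (h3.trans h4.symm) h
    rw [h4] at h6
    exact ⟨h6, dif_pos h6, h5, (class_lemma hv h1 h2 h.symm).1⟩
  have hndv : ∀ w y, Y y → Eqw 𝔽 E w y → up (nd w).2 (b (nd w).1) = val w := by
    intro w y hy h
    obtain ⟨h1, h2, -⟩ := hnd w y hy h
    rw [h2]
    have h3 := hb ⟨_, h1⟩
    rw [val_ow_none] at h3
    have h4 : b ⟨_, h1⟩ = w.1.1 := (Option.some.inj h3).symm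
    change up w.2 (b ⟨_, h1⟩) = val w
    rw [h4]
    rfl
  have hocc : ∀ (o : M) (z : Pth T), up z (b o) = val (ext (ow o.1) z) := by
    intro o z
    rw [val_ext, hb o, Option.bind_some]
  have hlink : ∀ (o : M) (z : Pth T) (y : Wd 𝔽.G), Y y → Eqw 𝔽 E (ext (ow o.1) z) y →
      RRel 𝔽 M Mk b (o, z) (nd (ext (ow o.1) z)) := by
    intro o z y hy h
    obtain ⟨h1, h2, h3, h4⟩ := hnd _ y hy h
    refine ⟨hlen o z y hy h, ?_, Or.inr ?_⟩
    · rw [h2]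
      exact ⟨h3, h4⟩
    · rw [hndv _ y hy h]
      exact Veq.of_eq (hocc o z)
  have hchain : ∀ w w', Eqw 𝔽 E w w' → ∀ y, Y y → (Eqw 𝔽 E w y → EqvGen (RRel 𝔽 M Mk b) (nd w) (nd w')) := by
    intro w w' h
    induction h with
    | rel w w' hst =>
      intro y hy hwy
      have hw'y : Eqw 𝔽 E w' y := (Eqw.symm (EqvGen.rel _ _ hst)).trans hwy
      obtain ⟨h1, h2, h3, h4⟩ := hnd w y hy hwy
      obtain ⟨g1, g2, g3, g4⟩ := hnd w' y hy hw'y
      obtain ⟨g, g', z, hg, rfl, rfl⟩ := hst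
      have hzl : z.length < bN T 𝔠.K := by
        rw [ext_snd, List.length_append] at h4
        omega
      -- exact steps
      have hex : Veq 𝔠.t0 Mk (val (ext g z)) (val (ext g' z)) →
          EqvGen (RRel 𝔽 M Mk b) (nd (ext g z)) (nd (ext g' z)) := by
        intro hq
        refine EqvGen.rel _ _ ⟨?_, ?_, Or.inr ?_⟩
        · rw [h2]
          exact ⟨h3, h4⟩
        · rw [g2]
          exact ⟨g3, g4⟩
        · rw [hndv _ y hy hwy, hndv _ y hy hw'y]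
          exact hq
      cases hg with
      | @tr o o' hc =>
        have ho : o ∈ M := by
          rw [← hy.2.2.1]
          exact ⟨z, hwy⟩
        have ho' : o' ∈ M := by
          rw [← hy.2.2.1]
          exact ⟨z, hw'y⟩
        have e1 := hlink ⟨o, ho⟩ z y hy hwy
        have e2 := hlink ⟨o', ho'⟩ z y hy hw'y
        refine EqvGen.trans _ _ _ (EqvGen.symm _ _ (EqvGen.rel _ _ e1))
          (EqvGen.trans _ _ _ (EqvGen.rel _ _ ?_) (EqvGen.rel _ _ e2))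
        exact ⟨e1.1, e2.1, Or.inl ⟨rfl, hc⟩⟩
      | @eq x' y' hx hy' hxy =>
        apply hex
        rw [val_ext, val_ext]
        refine hxy.bind z ?_
        unfold Ctx.lN bN'
        omega
      | @mg x' y' hxy =>
        apply hex
        rw [val_ext, val_ext]
        exact (hv.veq _ _ hxy).bind z (by omega)
    | refl w => exact fun y hy h => EqvGen.refl _
    | symm w w' hww ih => exact fun y hy h => EqvGen.symm _ _ (ih y hy (Eqw.trans hww h))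
    | trans w w' w'' h1 h2 ih1 ih2 =>
      intro y hy h
      exact EqvGen.trans _ _ _ (ih1 y hy h) (ih2 y hy ((Eqw.symm h1).trans h))
  obtain ⟨o, ho⟩ := 𝔠.tab.rech Mk hMk M ((Nat.card_le_card_of_injective (fun o : M => o.1)
      Subtype.val_injective).trans (card_oc 𝔽)) b pi
    (fun o o' => Veq 𝔠.t0 𝔽.mu (val (ow o.1)) (val (ow o'.1))) (by
      intro o o' hc
      constructor
      · intro z z'
        constructor
        · rintro ⟨y, hy, h1, h2⟩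
          exact ⟨y, hy, ((eqw_clm hc).symm.ext z).trans h1, ((eqw_clm hc).symm.ext z').trans h2⟩
        · rintro ⟨y, hy, h1, h2⟩
          exact ⟨y, hy, ((eqw_clm hc).ext z).trans h1, ((eqw_clm hc).ext z').trans h2⟩
      · have h1 := hc.lb
        rw [hb o, hb o'] at h1
        simpa using h1) (by
      rintro o z z' ⟨y, hy, h1, h2⟩
      exact ⟨hlen o z y hy h1, hlen o z' y hy h2⟩) (by
      rintro o z z' ⟨y, hy, h1, h2⟩
      have e1 := hlink o z y hy h1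
      have e2 := hlink o z' y hy h2
      exact EqvGen.trans _ _ _ (EqvGen.rel _ _ e1)
        (EqvGen.trans _ _ _ (hchain _ _ (h1.trans h2.symm) y hy h1) (EqvGen.symm _ _ (EqvGen.rel _ _ e2))))
  -- the copies
  have hcp : ∀ u ∈ P1 𝔽 E W M, ∃ z : Pth T, z ≠ [] ∧ Eqw 𝔽 E (ext (ow o.1) z) u := by
    intro u hu
    have h1 : o.1 ∈ XX' 𝔽 E u := by
      rw [hu.2.2.2]
      exact o.2
    exact h1
  choose! cp hcp using hcp
  refine ⟨⟨W, M, tok, o.1, o.2, b o, cp, hb o, hcp, ?_⟩, rfl, rfl⟩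
  intro y h1 h2 h3 h4 z z' h5 h6
  exact ho z z' ⟨y, ⟨h1, h2, h3, h4⟩, h5, h6⟩

end Pool.Agent.BF
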