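import Pool.Agent.BF.CO
import Pool.Agent.BF.LowS
import Pool.Agent.BF.RU

set_option autoImplicit false

/-!
# LP: the loop over the states, and the main induction
-/

namespace Pool.Agent.BF

open Pool.Agent.H56 Relation
open Pool.Agent.WFC (Atom amap EntG Small ElimSys AncA)

variable {k : ℕ} {ar : Fin k → ℕ} {T : List (Rule ar)} {D : Type} {𝔠 : Ctx T D}

theorem npr_le (𝔽 : Fr 𝔠) (E : St 𝔽) : npr 𝔽 E ≤ bP T 𝔠.K := by
  have h1 : {p : Wd 𝔽.G × Wd 𝔽.G | 𝔽.sh p.1 ∧ 𝔽.sh p.2 ∧ Eqw 𝔽 E p.1 p.2} ⊆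
      {x : Wd 𝔽.G | 𝔽.sh x} ×ˢ {x : Wd 𝔽.G | 𝔽.sh x} := by
    rintro p ⟨h1, h2, -⟩
    exact ⟨h1, h2⟩
  have h2 := Set.ncard_le_ncard h1 ((finite_sh 𝔽).prod (finite_sh 𝔽))
  rw [Set.ncard_prod] at h2
  have h3 := card_sh 𝔽
  unfold npr bP
  rw [sq]
  exact h2.trans (Nat.mul_le_mul h3 h3)

/-- The loop: `j` bounds the number of further changes of the state. -/
theorem loop [Finite D] [Nonempty D] (𝔽 : Fr 𝔠) (IH : ∀ n' < 𝔽.n, ∀ s' l', s' ≤ bS T 𝔠.K (Nat.card D) →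
      l' ≤ s' * bDel T 𝔠.K (Nat.card D) → 𝔠.PP n' s' l') : ∀ (j : ℕ) (E : St 𝔽) (Mk : ℕ),
    Valid 𝔽 E (Mk + bN T 𝔠.K) → 𝔽.mu + (j + 1) * bSt T 𝔠.K (Nat.card D) ≤ Mk →
    Mk ≤ 𝔽.l + bDel T 𝔠.K (Nat.card D) → bP T 𝔠.K ≤ npr 𝔽 E + j → 𝔠.Cert 𝔽.G 𝔽.l := by
  have hMx : 𝔽.l + bDel T 𝔠.K (Nat.card D) ≤ bMx T 𝔠.K (Nat.card D) := by
    have h1 := 𝔽.hl
    have h2 : (𝔽.s + 1) * bDel T 𝔠.K (Nat.card D) ≤ (bS T 𝔠.K (Nat.card D) + 1) * bDel T 𝔠.K (Nat.card D) :=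
      Nat.mul_le_mul_right _ (Nat.succ_le_succ 𝔽.hs)
    unfold bMx
    rw [Nat.succ_mul] at h2
    omega
  intro j
  induction j with
  | zero =>
    intro E Mk hv h1 h2 h3
    by_cases hsol : ∀ W M, TOk 𝔽 E W M → Solved 𝔽 E W M
    · exact comb hv hsol
    · push Not at hsol
      obtain ⟨W, M, tok, hns⟩ := hsol
      obtain ⟨L, hW, hM⟩ := exists_low hv (h2.trans hMx) tok
      rcases low_step 𝔽 IH hv (by omega) h2 L with h | ⟨E', -, hv', h | h⟩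
      · exact h
      · rw [hW, hM] at h
        exact absurd h hns
      · have h4 := npr_le 𝔽 E'
        omega
  | succ j ih =>
    intro E Mk hv h1 h2 h3
    by_cases hsol : ∀ W M, TOk 𝔽 E W M → Solved 𝔽 E W M
    · exact comb hv hsol
    · push Not at hsol
      obtain ⟨W, M, tok, hns⟩ := hsol
      obtain ⟨L, hW, hM⟩ := exists_low hv (h2.trans hMx) tok
      have h5 : (j + 1 + 1) * bSt T 𝔠.K (Nat.card D) =
          (j + 1) * bSt T 𝔠.K (Nat.card D) + bSt T 𝔠.K (Nat.card D) := Nat.succ_mul _ _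
      have h6 : 0 ≤ (j + 1) * bSt T 𝔠.K (Nat.card D) := Nat.zero_le _
      rcases low_step 𝔽 IH hv (by omega) h2 L with h | ⟨E', -, hv', h | h⟩
      · exact h
      · rw [hW, hM] at h
        exact absurd h hns
      · exact ih E' _ hv' (by omega) (by omega) (by omega)

/-- THE MAIN PROPOSITION. -/
theorem main_prop [Finite D] [Nonempty D] (𝔠 : Ctx T D) : ∀ n s l, s ≤ bS T 𝔠.K (Nat.card D) →
    l ≤ s * bDel T 𝔠.K (Nat.card D) → 𝔠.PP n s l := by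
  intro n
  induction n using Nat.strong_induction_on with
  | _ n ih =>
    intro s l hs hl G hG
    let 𝔽 : Fr 𝔠 := ⟨G, n, s, l, hG, hs, hl⟩
    refine loop 𝔽 ih (bP T 𝔠.K) ∅ (l + bDel T 𝔠.K (Nat.card D)) ⟨?_, ?_, ?_⟩ ?_ le_rfl (Nat.le_add_left _ _)
    · change l + 3 * bN T 𝔠.K ≤ _
      unfold bDel
      omega
    · intro x y h
      exact absurd h (Set.notMem_empty _)
    · intro x y h
      exact absurd h (Set.notMem_empty _)
    · change l + 3 * bN T 𝔠.K + (bP T 𝔠.K + 1) * bSt T 𝔠.K (Nat.card D) ≤ l + bDel T 𝔠.K (Nat.card D)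
      unfold bDel
      omega

end Pool.Agent.BF
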