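import Pool.Agent.BF.Base
import Pool.Agent.BF.RL.Defs

set_option autoImplicit false

/-!
# The table: existence of the recursive colouring `T0` of the terms

Abstract form: terms `Tm` with partial ancestors `up w t` along words `w` (last step first), labels, a depth.
-/

namespace Pool.Agent.BF.Tab

open Relation

variable {Tm : Type} {m : ℕ}

/-- Equality of the types of depth `M`. -/
def EqT (up : List (Fin m) → Tm → Option Tm) {C : Type} (T0 : Tm → C) (M : ℕ) (x y : Option Tm) : Prop :=
  ∀ w : List (Fin m), w.length ≤ M → (x.bind (up w)).map T0 = (y.bind (up w)).map T0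

/-- One step: a claim step (same word, claimed views) or an exact link of level `M`. -/
def Stp (up : List (Fin m) → Tm → Option Tm) {C : Type} (T0 : Tm → C) (N M : ℕ) {O : Type} (b : O → Tm)
    (cl : O → O → Prop) (p q : O × List (Fin m)) : Prop :=
  (p.2 ≠ [] ∧ p.2.length < N) ∧ (q.2 ≠ [] ∧ q.2.length < N) ∧
    ((p.2 = q.2 ∧ cl p.1 q.1) ∨ EqT up T0 M (up p.2 (b p.1)) (up q.2 (b q.1)))

/-- The requirement (RL). -/
def RLReq (up : List (Fin m) → Tm → Option Tm) {C : Type} (T0 : Tm → C) (N V M : ℕ) : Prop :=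
  ∀ (O : Type) [Finite O] [Nonempty O], Nat.card O ≤ V → ∀ (b : O → Tm)
    (π : O → List (Fin m) → List (Fin m) → Prop) (cl : O → O → Prop),
    (∀ o z z', π o z z' → (z ≠ [] ∧ z.length < N) ∧ (z' ≠ [] ∧ z'.length < N)) →
    (∀ o o', cl o o' → π o = π o' ∧ T0 (b o) = T0 (b o')) →
    (∀ o z z', π o z z' → EqvGen (Stp up T0 N M b cl) (o, z) (o, z')) →
    ∃ o, ∀ z z', π o z z' → EqT up T0 M (up z (b o)) (up z' (b o))

/-- Recursive definition of a function on terms. -/
theorem exists_rec {C : Type} (up : List (Fin m) → Tm → Option Tm) (dep : Tm → ℕ)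
    (hdep : ∀ z t t', up z t = some t' → z ≠ [] → dep t' < dep t)
    (F : Tm → (List (Fin m) → Option C) → C) :
    ∃ T0 : Tm → C, ∀ t, T0 t = F t (fun w => if w = [] then none else (up w t).map T0) := by
  classical
  let G : (t : Tm) → ((y : Tm) → dep y < dep t → C) → C := fun t ih =>
    F t (fun w => if h : w = [] then none else
      match hu : up w t with
      | none => none
      | some e => some (ih e (hdep w t e hu h)))
  let T0 : Tm → C := (measure dep).wf.fix G
  refine ⟨T0, fun t => ?_⟩
  have h1 : T0 t = G t (fun y _ => T0 y) := (measure dep).wf.fix_eq G t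
  rw [h1]
  show F t _ = F t _
  congr 1
  funext w
  by_cases h : w = []
  · simp [h]
  · simp only [h, dif_neg, if_neg, not_false_eq_true]
    split
    · rename_i hu
      rw [hu]
      rfl
    · rename_i e hu
      rw [hu]
      rfl

/-- Words of length at most `n`. -/
abbrev LW (m n : ℕ) : Type := {w : List (Fin m) // w.length ≤ n}

/-- Nonempty words of length less than `N`. -/
abbrev ZW (m N : ℕ) : Type := {w : List (Fin m) // w ≠ [] ∧ w.length < N}

instance finite_LW (n : ℕ) : Finite (LW m n) := List.finite_length_le (Fin m) n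

instance finite_ZW (N : ℕ) : Finite (ZW m N) :=
  Finite.of_injective (fun w : ZW m N => (⟨w.1, w.2.2.le⟩ : LW m N)) (by
    intro a b h
    exact Subtype.ext (congrArg (fun x : LW m N => x.1) h))

/-- Cardinalities and encodings by bits. -/
theorem exists_enc {A : Type} [Finite A] {c : ℕ} (h : Nat.card A ≤ 2 ^ c) :
    ∃ f : A → (Fin c → Bool), Function.Injective f := by
  classical
  have := Fintype.ofFinite A
  have h1 : Fintype.card A ≤ Fintype.card (Fin c → Bool) := by
    rw [← Nat.card_eq_fintype_card]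
    simpa using h
  obtain ⟨f⟩ := Function.Embedding.nonempty_of_card_le h1
  exact ⟨f, f.injective⟩

/-- The choice of the parameters. -/
theorem exists_param {E V : ℕ} (hR : RL.Recharge E V) (N Mmax : ℕ) (Λ : Type) [Finite Λ] :
    ∃ (c l b : ℕ) (R : RL.View E (Fin l → Bool) → RL.Prl E → (Fin b → Bool)),
      RL.Good E V (Fin l → Bool) (Fin b → Bool) R ∧
      Nat.card (Λ × (LW m N → Bool) × (Fin (Mmax + 1) → RL.Prl E → Fin b → Bool)) ≤ 2 ^ c ∧
      Nat.card (LW m Mmax → Option (Fin c → Bool)) ≤ 2 ^ l := by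
  classical
  set W : ℕ := Nat.card (LW m Mmax) with hW
  set WN : ℕ := Nat.card (LW m N) with hWN
  set P : ℕ := Nat.card (RL.Prl E) with hP
  set lam : ℕ := Nat.card Λ with hlam
  have hWpos : 0 < W := by
    have : Nonempty (LW m Mmax) := ⟨⟨[], Nat.zero_le _⟩⟩
    exact Nat.card_pos
  obtain ⟨l0, hl0⟩ := hR (2 * (P * (Mmax + 1)) * W)
  let c : ℕ := 2 * lam + 2 * WN + 1 + l0
  let l : ℕ := (c + 1) * W
  have hl : l0 ≤ l := by
    have : l0 ≤ (c + 1) * 1 := by simp only [c]; omega
    exact this.trans (Nat.mul_le_mul_left _ hWpos)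
  obtain ⟨b, hb, R, hgood⟩ := hl0 l hl
  refine ⟨c, l, b, R, hgood, ?_, ?_⟩
  · have hb2 : 2 * (P * (Mmax + 1) * b) ≤ c + 1 := by
      have h1 : (2 * (P * (Mmax + 1) * b)) * W ≤ (c + 1) * W := by
        calc (2 * (P * (Mmax + 1) * b)) * W = 2 * (P * (Mmax + 1)) * W * b := by ring
          _ ≤ (c + 1) * W := hb
      exact Nat.le_of_mul_le_mul_right h1 hWpos
    have h2 : Nat.card (Λ × (LW m N → Bool) × (Fin (Mmax + 1) → RL.Prl E → Fin b → Bool)) =
        lam * (2 ^ WN * 2 ^ (P * (Mmax + 1) * b)) := by
      rw [Nat.card_prod, Nat.card_prod, Nat.card_fun, Nat.card_fun, Nat.card_fun, Nat.card_fun]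
      simp only [Nat.card_eq_fintype_card (α := Bool), Fintype.card_bool, Nat.card_fin]
      rw [← pow_mul, ← pow_mul]
      congr 3
      ring
    rw [h2]
    have h3 : lam ≤ 2 ^ lam := Nat.lt_two_pow_self.le
    calc lam * (2 ^ WN * 2 ^ (P * (Mmax + 1) * b)) ≤ 2 ^ lam * (2 ^ WN * 2 ^ (P * (Mmax + 1) * b)) :=
          Nat.mul_le_mul_right _ h3
      _ = 2 ^ (lam + (WN + P * (Mmax + 1) * b)) := by rw [pow_add, pow_add]
      _ ≤ 2 ^ c := by
          apply Nat.pow_le_pow_right (by norm_num)
          simp only [c] at hb2 ⊢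
          omega
  · rw [Nat.card_fun]
    have h4 : Nat.card (Option (Fin c → Bool)) = 2 ^ c + 1 := by
      rw [Nat.card_eq_fintype_card, Fintype.card_option]
      simp
    rw [h4]
    calc (2 ^ c + 1) ^ W ≤ (2 ^ (c + 1)) ^ W := by
          apply Nat.pow_le_pow_left
          rw [pow_succ]
          have : 1 ≤ 2 ^ c := Nat.one_le_two_pow
          omega
      _ = 2 ^ l := by rw [← pow_mul]

/-- EXISTENCE OF THE TABLE. -/
theorem exists_table (hRL : ∀ E v : ℕ, RL.Recharge E v)
    (up : List (Fin m) → Tm → Option Tm)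
    (happ : ∀ w z t, up (w ++ z) t = (up z t).bind (up w))
    (dep : Tm → ℕ) (hdep : ∀ z t t', up z t = some t' → z ≠ [] → dep t' < dep t)
    {Λ : Type} [Finite Λ] (lab : Tm → Λ) (N V Mmax : ℕ) :
    ∃ (C : Type) (_ : Finite C) (T0 : Tm → C), (∀ t t', T0 t = T0 t' → lab t = lab t') ∧
      (∀ z t t', up z t = some t' → z ≠ [] → z.length ≤ N → T0 t ≠ T0 t') ∧
      ∀ M, M ≤ Mmax → RLReq up T0 N V M := by
  classical
  -- words and their numbers
  let E : ℕ := Nat.card (ZW m N)
  let ε : ZW m N ≃ Fin E := Finite.equivFin _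
  obtain ⟨c, l, b, R, hgood, hcD, hcV⟩ := exists_param (m := m) (hRL E V) N Mmax Λ
  obtain ⟨enc, henc⟩ := exists_enc hcD
  obtain ⟨vec, hvec⟩ := exists_enc hcV
  by_cases hTm : IsEmpty Tm
  · refine ⟨Unit, inferInstance, fun _ => (), fun t => (hTm.false t).elim, fun _ t => (hTm.false t).elim, ?_⟩
    intro M _ O _ hne _ bb
    exact (hTm.false (bb hne.some)).elim
  obtain ⟨t₀⟩ := not_isEmpty_iff.mp hTm
  let Dat : Type := Λ × (LW m N → Bool) × (Fin (Mmax + 1) → RL.Prl E → Fin b → Bool)
  let C : Type := Fin c → Bool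
  have : Nonempty Dat := ⟨(lab t₀, fun _ => false, fun _ _ _ => false)⟩
  let dec : C → Dat := Function.invFun enc
  have hdec : ∀ d : Dat, dec (enc d) = d := Function.leftInverse_invFun henc
  -- the code of the type of depth `M` at the word `z`
  let vw : (List (Fin m) → Option C) → ℕ → RL.View E (Fin l → Bool) := fun q M e =>
    vec (fun w => if w.1.length ≤ M then q (w.1 ++ (ε.symm e).1) else none)
  let F : Tm → (List (Fin m) → Option C) → C := fun t q =>
    enc (lab t, (fun z => match q z.1 with
      | none => false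
      | some v => ! (dec v).2.1 z), fun M π => R (vw q M.1) π)
  obtain ⟨T0, hT0⟩ := exists_rec up dep hdep F
  let q : Tm → List (Fin m) → Option C := fun t w => if w = [] then none else (up w t).map T0
  have hT0' : ∀ t, T0 t = enc (lab t, (fun z => match q t z.1 with
      | none => false
      | some v => ! (dec v).2.1 z), fun M π => R (vw (q t) M.1) π) := hT0
  have hdT : ∀ t, dec (T0 t) = (lab t, (fun z => match q t z.1 with
      | none => false
      | some v => ! (dec v).2.1 z), fun M π => R (vw (q t) M.1) π) := fun t => by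
    rw [hT0' t]
    exact hdec _
  refine ⟨C, inferInstance, T0, ?_, ?_, ?_⟩
  · intro t t' h
    have h1 := congrArg dec h
    rw [hdT, hdT] at h1
    exact congrArg Prod.fst h1
  · intro z t t' hz hne hlen h
    have h1 : (dec (T0 t)).2.1 ⟨z, hlen⟩ = ! (dec (T0 t')).2.1 ⟨z, hlen⟩ := by
      rw [hdT t]
      show (match q t z with
      | none => false
      | some v => ! (dec v).2.1 ⟨z, hlen⟩) = _
      have h2 : q t z = some (T0 t') := by
        show (if z = [] then none else (up z t).map T0) = _
        rw [if_neg hne, hz]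
        rfl
      rw [h2]
    rw [h] at h1
    revert h1
    cases (dec (T0 t')).2.1 ⟨z, hlen⟩ <;> simp
  · intro M hM O _ _ hcard bb π cl hπ hcl hconn
    have := Fintype.ofFinite O
    -- equality of views and equality of types
    have hview : ∀ (o o' : O) (z z' : ZW m N),
        (vw (q (bb o)) M (ε z) = vw (q (bb o')) M (ε z') ↔ EqT up T0 M (up z.1 (bb o)) (up z'.1 (bb o'))) := by
      intro o o' z z'
      have hq : ∀ (o : O) (z : ZW m N) w, q (bb o) (w ++ z.1) = ((up z.1 (bb o)).bind (up w)).map T0 := by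
        intro o z w
        have hne : w ++ z.1 ≠ [] := by
          intro h
          exact z.2.1 (List.append_eq_nil_iff.mp h).2
        show (if w ++ z.1 = [] then none else (up (w ++ z.1) (bb o)).map T0) = _
        rw [if_neg hne, happ]
      constructor
      · intro h w hw
        have h1 := hvec h
        have h2 := congrFun h1 ⟨w, hw.trans hM⟩
        simp only [Equiv.symm_apply_apply, hw, if_true] at h2
        rw [hq o z, hq o' z'] at h2
        exact h2
      · intro h
        show vec _ = vec _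
        congr 1
        funext w
        simp only [Equiv.symm_apply_apply]
        split_ifs with hw
        · rw [hq o z, hq o' z']
          exact h w.1 hw
        · rfl
    by_cases hZ : Nonempty (ZW m N)
    · obtain ⟨z₀⟩ := hZ
      let φ : O × List (Fin m) → O × Fin E := fun p =>
        (p.1, if h : p.2 ≠ [] ∧ p.2.length < N then ε ⟨p.2, h⟩ else ε z₀)
      have hφ : ∀ (o : O) z (h : z ≠ [] ∧ z.length < N), φ (o, z) = (o, ε ⟨z, h⟩) := by
        intro o z h
        show (o, _) = _
        rw [dif_pos h]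
      let x : O → RL.View E (Fin l → Bool) := fun o => vw (q (bb o)) M
      have hstep : ∀ p p', EqvGen (Stp up T0 N M bb cl) p p' → EqvGen (RL.Step x cl) (φ p) (φ p') := by
        intro p p' h
        induction h with
        | rel p p' h =>
          obtain ⟨hp, hp', h⟩ := h
          obtain ⟨o, z⟩ := p
          obtain ⟨o', z'⟩ := p'
          rw [hφ o z hp, hφ o' z' hp']
          apply EqvGen.rel
          rcases h with ⟨h1, h2⟩ | h3
          · left
            refine ⟨?_, h2⟩
            show ε _ = ε _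
            congr 1
            exact Subtype.ext h1
          · right
            exact (hview o o' ⟨z, hp⟩ ⟨z', hp'⟩).2 h3
        | refl p => exact EqvGen.refl _
        | symm p p' _ ih => exact EqvGen.symm _ _ ih
        | trans p p' p'' _ _ ih1 ih2 => exact EqvGen.trans _ _ _ ih1 ih2
      have hR0 := hgood O x (fun o e e' => π o (ε.symm e).1 (ε.symm e').1) cl Finset.univ Finset.univ_nonempty
        (by rw [Finset.card_univ, ← Nat.card_eq_fintype_card]; exact hcard)
        (fun _ _ _ => by simp) (fun o o' h _ => by rw [(hcl o o' h).1])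
        (fun o o' h _ => by
          have h1 := congrArg dec (hcl o o' h).2
          rw [hdT, hdT] at h1
          have h2 := congrArg (fun d : Dat => d.2.2 ⟨M, Nat.lt_succ_of_le hM⟩
            (fun e e' => π o (ε.symm e).1 (ε.symm e').1)) h1
          have h3 : R (vw (q (bb o)) M) (fun e e' => π o (ε.symm e).1 (ε.symm e').1) =
              R (vw (q (bb o')) M) (fun e e' => π o (ε.symm e).1 (ε.symm e').1) := h2
          rw [← (hcl o o' h).1]
          exact h3)
        (fun o o' _ h => absurd (Finset.mem_univ o) h)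
        (fun o _ e e' h => by
          have h1 := hstep _ _ (hconn o _ _ h)
          rw [hφ o _ (ε.symm e).2, hφ o _ (ε.symm e').2] at h1
          simpa using h1)
      obtain ⟨o, -, ho⟩ := hR0
      refine ⟨o, fun z z' h => ?_⟩
      obtain ⟨hz, hz'⟩ := hπ o z z' h
      have h1 := ho (ε ⟨z, hz⟩) (ε ⟨z', hz'⟩) (by simpa using h)
      exact (hview o o ⟨z, hz⟩ ⟨z', hz'⟩).1 h1
    · obtain ⟨o⟩ := ‹Nonempty O›
      refine ⟨o, fun z z' h => ?_⟩
      exact absurd ⟨⟨z, (hπ o z z' h).1⟩⟩ hZ

end Pool.Agent.BF.Tab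

namespace Pool.Agent.BF

open Pool.Agent.H56 Relation

variable {k : ℕ} {ar : Fin k → ℕ}

/-- Good tables exist. -/
theorem exists_tab (hRL : ∀ E v : ℕ, RL.Recharge E v) (T : List (Rule ar)) (D : Type) [Finite D] (N V Mx : ℕ) :
    ∃ (C : Type) (t0 : Tm T D → C), Finite C ∧ GoodTab t0 N V Mx := by
  obtain ⟨C, hC, t0, h1, h2, h3⟩ := Tab.exists_table hRL (up (T := T) (D := D)) (fun w z t => up_append w z t)
    dep (fun z t t' h hz => dep_up_lt hz h) lab N V Mx
  refine ⟨C, t0, hC, ⟨h1, fun z s t hz hl h => h2 z s t h hz hl, ?_⟩⟩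
  intro M hM O _ _ hcard b pi cl hcl hpi hconn
  exact h3 M hM O hcard b pi cl hpi
    (fun o o' h => ⟨funext fun z => funext fun z' => propext ((hcl o o' h).1 z z'), (hcl o o' h).2⟩) hconn

end Pool.Agent.BF
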