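import Pool.Agent.BF.Fin
import Pool.Agent.BF.LP
import Pool.Agent.BF.Tab
import Pool.Agent.BF.RL.Ind

set_option autoImplicit false

/-!
# Finite controllability for rewritable queries

If the conjunctive query `q` is rewritable with respect to the theory `T` and `T, J ⊭ q`, then there is a finite model
of `T` which contains a homomorphic image of `J` and does not satisfy `q`.
-/

namespace Pool.Agent.BF

open Pool.Agent.H56

variable {k : ℕ} {ar : Fin k → ℕ}

/-- FINITE CONTROLLABILITY for a single rewritable query. -/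
theorem finite_model (T : List (Rule ar)) (q : CQ ar) (hq : Rewritable T q) (D : Type) [Finite D] (J : Inst ar D)
    (h : ¬ Entails T J q) : ∃ M : Type, Finite M ∧ ∃ I : Inst ar M, IsModel T I ∧ (∃ f : D → M, IsHom J I f) ∧
      ¬ Sat I q := by
  obtain ⟨M, hM, I, h1, h2, h3⟩ := fc_all (T := T) (q := q) (fun D hD hD' 𝔠 => main_prop 𝔠)
    (fun D hD N V Mx => by
      obtain ⟨C, t0, hC, ht⟩ := exists_tab RL.recharge_v T D N V Mx
      exact ⟨C, hC, t0, ht⟩) hq D J h
  exact ⟨M, hM, I, h1, h2, h3⟩

end Pool.Agent.BF
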