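import Pool.Agent.BF.XL
import Pool.Agent.BF.Ent

set_option autoImplicit false

/-!
# Full: the full lower pattern is bad at the level `Mk` (5.3), and there is one of bounded size
-/

namespace Pool.Agent.BF

open Pool.Agent.H56 Relation
open Pool.Agent.WFC (Atom amap EntG Small ElimSys AncA)

variable {k : ℕ} {ar : Fin k → ℕ} {T : List (Rule ar)} {D : Type} {𝔠 : Ctx T D} {𝔽 : Fr 𝔠} {E : St 𝔽}
  {B Mk : ℕ}

private theorem Full_sh_app {x : Wd 𝔽.G} (h : x.2.length + 1 ≤ bR T 𝔠.K) (p : Fin (mm T)) :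
    𝔽.sh (ext x [p]) := by
  unfold Fr.sh
  rw [ext_snd, List.length_append, List.length_singleton]
  omega

private theorem Full_vcells_finite {V : Set (Wd 𝔽.G)} (hV : V.Finite) : (vcells 𝔽 V).Finite := by
  classical
  let f : Wd 𝔽.G → Set (Atom ar ((𝔽.G.X ⊕ Tm T D) ⊕ Wd 𝔽.G)) := fun x => match val x with
    | some (.f r _) => {cell r (.inr x) (fun p => .inr (ext x [p]))}
    | _ => ∅
  have hf : ∀ x, (f x).Finite := by
    intro x
    simp only [f]
    split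
    · exact Set.finite_singleton _
    · exact Set.finite_empty
  refine (hV.biUnion (fun x _ => hf x)).subset ?_
  rintro α ⟨x, hx, r, a, h1, rfl⟩
  refine Set.mem_biUnion hx ?_
  simp only [f, h1]
  exact Set.mem_singleton _

namespace Low

variable (L : Low 𝔽 E Mk)

/-- The classes which are moved to the copies in the view. -/
def Mv (w : Wd 𝔽.G) : Prop :=
  ∃ u ∈ L.Q1, Eqw 𝔽 E w u ∨ ∃ p, Eqw 𝔽 E w (ext u [p]) ∧ ¬ Alw 𝔽 E L.W L.M (ext u [p]) ∧ ∀ d, val w ≠ some (.c d)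

/-- Copies of a word in the view. -/
def Cpy (w : Wd 𝔽.G) (t : Tm T D) : Prop := ∃ z, Eqw 𝔽 E (ext (ow L.o) z) w ∧ up z L.b = some t

theorem val_copy (z : Pth T) : val (ext (ow L.o) z) = up z L.b := by
  rw [val_ext, L.hb, Option.bind_some]

theorem q1_cw {u : Wd 𝔽.G} (hu : u ∈ L.Q1) : ∃ r a, val u = some (.f r a) := L.tok.cw u hu.1

theorem q1_sh1 {u : Wd 𝔽.G} (hu : u ∈ L.Q1) : u.2.length + 1 ≤ bR T 𝔠.K := by
  have h1 := L.tok.len u hu.1
  have h2 : bR1 T 𝔠.K + 2 * 𝔠.K + 6 = bR T 𝔠.K := rfl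
  omega

theorem q1_sh {u : Wd 𝔽.G} (hu : u ∈ L.Q1) : 𝔽.sh u := by
  have h1 := L.q1_sh1 hu
  unfold Fr.sh
  omega

theorem w_sh1 {u : Wd 𝔽.G} (hu : u ∈ L.W) : u.2.length + 1 ≤ bR T 𝔠.K := by
  have h1 := L.tok.len u hu
  have h2 : bR1 T 𝔠.K + 2 * 𝔠.K + 6 = bR T 𝔠.K := rfl
  omega

variable {L}

/-- A moved class is seen exactly by `M`, and its values are defined terms which are not constants. -/
theorem Mv.spec (hv : Valid 𝔽 E B) {w : Wd 𝔽.G} (h : L.Mv w) :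
    XX 𝔽 E w = L.M ∧ XX' 𝔽 E w = L.M ∧ val w ≠ none ∧ (∀ d, val w ≠ some (.c d)) ∧
      ¬ (∃ t, rtw 𝔽 t ∧ Eqw 𝔽 E w t) ∧
      ∀ y ∈ L.W, y ∉ L.Q1 → ¬ Eqw 𝔽 E w y ∧ ∀ p', ¬ Eqw 𝔽 E w (ext y [p']) := by
  obtain ⟨u, hu, h | ⟨p, h, hal, hnc⟩⟩ := h
  · obtain ⟨r, a, hr⟩ := L.q1_cw hu
    obtain ⟨a', ha'⟩ := class_rule hv (L.q1_sh hu) hr h.symm
    refine ⟨(XX_eqw h).trans hu.2.2.1, (XX'_eqw h).trans hu.2.2.2, ?_, ?_, ?_, ?_⟩
    · rw [ha']
      simp
    · intro d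
      rw [ha']
      simp
    · rintro ⟨t, ht, he⟩
      exact hu.2.1 (AncA.root ht (h.symm.trans he))
    · intro y hy hy1
      have h1 := L.tok.unt u hu y hy hy1
      exact ⟨fun h2 => h1.1 (h.symm.trans h2), fun p' h2 => h1.2 p' (h.symm.trans h2)⟩
  · obtain ⟨r, a, hr⟩ := L.q1_cw hu
    have hd : val (ext u [p]) ≠ none := by
      rw [val_ext, hr]
      simp [up_single]
    unfold Alw at hal
    push Not at hal
    obtain ⟨h1, h2, h3⟩ := hal
    have hX' : XX' 𝔽 E (ext u [p]) = L.M := by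
      apply Set.Subset.antisymm
      · rw [← h1]
        exact XX'_sub _
      · rw [← hu.2.2.1]
        exact XX_app u p
    refine ⟨(XX_eqw h).trans h1, (XX'_eqw h).trans hX', ?_, hnc, ?_, ?_⟩
    · exact (class_lemma hv (Full_sh_app (L.q1_sh1 hu) p) hd h.symm).2.1
    · rintro ⟨t, ht, he⟩
      exact h2 t ht (h.symm.trans he)
    · intro y hy hy1
      have h4 := h3 y hy hy1
      exact ⟨fun h5 => h4.1 (h.symm.trans h5), fun p' h5 => h4.2 p' (h.symm.trans h5)⟩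

/-- Moved classes are classes. -/
theorem Mv.eqw (hv : Valid 𝔽 E B) {w w' : Wd 𝔽.G} (h : L.Mv w) (hw : 𝔽.sh w) (he : Eqw 𝔽 E w w') : L.Mv w' := by
  obtain ⟨-, -, hd, hnc, -, -⟩ := h.spec hv
  have hnc' : ∀ d, val w' ≠ some (.c d) := by
    rcases hval : val w with _ | t
    · exact absurd hval hd
    · cases t with
      | c d => exact absurd hval (hnc d)
      | f r a =>
        obtain ⟨a', ha'⟩ := class_rule hv hw hval he
        intro d
        rw [ha']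
        simp
  obtain ⟨u, hu, h | ⟨p, h, hal, -⟩⟩ := h
  · exact ⟨u, hu, Or.inl (he.symm.trans h)⟩
  · exact ⟨u, hu, Or.inr ⟨p, he.symm.trans h, hal, hnc'⟩⟩

/-- Two copies of a moved short word have the same type of level `Mk`. -/
theorem Mv.veq (hv : Valid 𝔽 E B) {w : Wd 𝔽.G} (h : L.Mv w) (hw : 𝔽.sh w) {t t' : Tm T D} (ht : L.Cpy w t)
    (ht' : L.Cpy w t') : Teq 𝔠.t0 Mk t t' := by
  obtain ⟨h1, h2, hd, -, -, -⟩ := h.spec hv
  obtain ⟨z, hz, hz'⟩ := ht
  obtain ⟨z', hzz, hzz'⟩ := ht'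
  have h3 := L.non w hw hd h1 h2 z z' hz hzz
  rwa [hz', hzz'] at h3

theorem Cpy.eqw {w w' : Wd 𝔽.G} {t : Tm T D} (h : L.Cpy w t) (he : Eqw 𝔽 E w w') : L.Cpy w' t := by
  obtain ⟨z, hz, hz'⟩ := h
  exact ⟨z, hz.trans he, hz'⟩

variable (L)

open Classical in
/-- The map of the nodes: the moved classes go to their copies. -/
noncomputable def psi : (𝔽.G.X ⊕ Tm T D) ⊕ Wd 𝔽.G → ((𝔽.G.X ⊕ Tm T D) ⊕ Wd 𝔽.G) ⊕ Tm T D
  | .inl α => .inl (.inl α)
  | .inr w => if h : L.Mv w ∧ ∃ t, L.Cpy w t then .inr h.2.choose else .inl (.inr w)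

theorem psi_mv {w : Wd 𝔽.G} (h : L.Mv w) (h' : ∃ t, L.Cpy w t) : ∃ t, L.Cpy w t ∧ L.psi (.inr w) = .inr t := by
  refine ⟨(⟨h, h'⟩ : L.Mv w ∧ ∃ t, L.Cpy w t).2.choose, h'.choose_spec, ?_⟩
  exact dif_pos ⟨h, h'⟩

theorem psi_not {w : Wd 𝔽.G} (h : ¬ (L.Mv w ∧ ∃ t, L.Cpy w t)) : L.psi (.inr w) = .inl (.inr w) := dif_neg h

/-- The full lower pattern is bad at the level `Mk`. -/
theorem full_bad (hv : Valid 𝔽 E B) : 𝔠.Bd L.R1 L.cD1 Mk L.F1 L.V1 L.Eb := by
  classical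
  have hid : ∀ {a b : (𝔽.G.X ⊕ Tm T D) ⊕ Wd 𝔽.G}, L.R1 a b →
      EqvGen (Gl 𝔠.t0 L.R1 L.cD1 Mk L.Eb) (.inl a) (.inl b) := fun h => EqvGen.rel _ _ (.nd h)
  refine Pool.Agent.WFC.EntG.map L.tok.ent L.psi ?_ (fun d => EqvGen.refl _) ?_
  · intro x y hxy
    cases hxy with
    | gl h =>
      cases h with
      | nd h => exact hid (.gl (.nd h))
      | ty h => exact hid (.gl (.ty h))
      | cst d => exact hid (.gl (.cst d))
      | id h => exact EqvGen.rel _ _ (.id (.old h))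
    | @wd x y hx hy he =>
      by_cases h : L.Mv x ∧ ∃ t, L.Cpy x t
      · have h' : L.Mv y ∧ ∃ t, L.Cpy y t := ⟨h.1.eqw hv hx he, h.2.imp fun t ht => ht.eqw he⟩
        obtain ⟨t, ht, ht1⟩ := L.psi_mv h.1 h.2
        obtain ⟨t', ht', ht1'⟩ := L.psi_mv h'.1 h'.2
        rw [ht1, ht1']
        exact EqvGen.rel _ _ (.ty (h'.1.veq hv hy (ht.eqw he) ht'))
      · have h' : ¬ (L.Mv y ∧ ∃ t, L.Cpy y t) := fun h' =>
          h ⟨h'.1.eqw hv hy he.symm, h'.2.imp fun t ht => ht.eqw he.symm⟩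
        rw [L.psi_not h, L.psi_not h']
        exact hid (.wd hx hy he)
    | @root o t h1 h2 =>
      have h : ¬ (L.Mv (ow o) ∧ ∃ t, L.Cpy (ow o) t) := by
        rintro ⟨h, -⟩
        exact (h.spec hv).2.2.2.2.1 ⟨ow o, ⟨o, ⟨t, h1, h2⟩, rfl⟩, Eqw.refl _⟩
      rw [L.psi_not h]
      exact hid (.root h1 h2)
    | @base x d h1 h2 =>
      have h : ¬ (L.Mv x ∧ ∃ t, L.Cpy x t) := by
        rintro ⟨h, -⟩
        exact (h.spec hv).2.2.2.1 d h2
      rw [L.psi_not h]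
      exact hid (.base h1 h2)
  · rintro α (hα | ⟨x, hx, r, a, hr, rfl⟩)
    · refine ⟨fun p => .inl (α.2 p), Or.inl ⟨α, Or.inl hα, rfl⟩, ?_⟩
      obtain ⟨β, hβ, rfl⟩ := hα
      intro p
      exact EqvGen.refl _
    · by_cases hx1 : x ∈ L.Q1
      · -- a moved cell
        have hcp := L.hcp x hx1
        obtain ⟨a', ha'⟩ := class_rule hv (L.q1_sh hx1) hr hcp.2.symm
        rw [L.val_copy] at ha'
        have hMx : L.Mv x := ⟨x, hx1, Or.inl (Eqw.refl _)⟩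
        have hCx : L.Cpy x (.f r a') := ⟨L.cp x, hcp.2, ha'⟩
        refine ⟨(cell r (.inr (.f r a')) (fun p => .inr (a' p)) :
          Atom ar (((𝔽.G.X ⊕ Tm T D) ⊕ Wd 𝔽.G) ⊕ Tm T D)).2, Or.inr ⟨r, a', ⟨x, hx1, ha'⟩, rfl⟩, ?_⟩
        intro i
        have htop : EqvGen (Gl 𝔠.t0 L.R1 L.cD1 Mk L.Eb) (L.psi (.inr x)) (.inr (.f r a')) := by
          obtain ⟨t, ht, ht1⟩ := L.psi_mv hMx ⟨_, hCx⟩
          rw [ht1]
          exact EqvGen.rel _ _ (.ty (hMx.veq hv (L.q1_sh hx1) ht hCx))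
        have harg : ∀ p, EqvGen (Gl 𝔠.t0 L.R1 L.cD1 Mk L.Eb) (L.psi (.inr (ext x [p]))) (.inr (a' p)) := by
          intro p
          have hup : up (p :: L.cp x) L.b = some (a' p) := up_cons_f ha'
          have hC : L.Cpy (ext x [p]) (a' p) := by
            refine ⟨p :: L.cp x, ?_, hup⟩
            have h1 := hcp.2.ext [p]
            rwa [ext_cons] at h1
          have hs : 𝔽.sh (ext x [p]) := Full_sh_app (L.q1_sh1 hx1) p
          by_cases h : L.Mv (ext x [p])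
          · obtain ⟨t, ht, ht1⟩ := L.psi_mv h ⟨_, hC⟩
            rw [ht1]
            exact EqvGen.rel _ _ (.ty (h.veq hv hs ht hC))
          · rw [L.psi_not (fun h' => h h'.1)]
            by_cases hal : Alw 𝔽 E L.W L.M (ext x [p])
            · exact EqvGen.symm _ _ (EqvGen.rel _ _ (.id (.pos hx1 hal hup)))
            · have hc : ∃ d, val (ext x [p]) = some (.c d) := by
                by_contra hno
                push Not at hno
                exact h ⟨x, hx1, Or.inr ⟨p, Eqw.refl _, hal, hno⟩⟩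
              obtain ⟨d, hd⟩ := hc
              have h2 : a' p = .c d := by
                obtain ⟨z, hz, hz'⟩ := hC
                have h3 := (class_lemma hv hs (by rw [hd]; simp) hz.symm).2.2.1
                rw [hd, L.val_copy, hz'] at h3
                have h4 := h3.cst 𝔠.tab
                exact Option.some.inj h4
              rw [h2]
              exact EqvGen.trans _ _ _ (hid (.base hs hd)) (EqvGen.rel _ _ (.cst d))
        rcases h : headOf r i with _ | y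
        · have h3 : (cell (ar := ar) r (Sum.inr x : (𝔽.G.X ⊕ Tm T D) ⊕ Wd 𝔽.G) (fun p => .inr (ext x [p]))).2 i =
            .inr x := cell_snd_none h
          rw [h3, cell_snd_none h]
          exact htop
        · have h3 : (cell (ar := ar) r (Sum.inr x : (𝔽.G.X ⊕ Tm T D) ⊕ Wd 𝔽.G) (fun p => .inr (ext x [p]))).2 i =
            .inr (ext x [vl r y]) := cell_snd_some h
          rw [h3, cell_snd_some h]
          exact harg _
      · -- a kept cell
        refine ⟨fun p => .inl ((cell r (.inr x) (fun p => .inr (ext x [p])) :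
          Atom ar ((𝔽.G.X ⊕ Tm T D) ⊕ Wd 𝔽.G)).2 p), Or.inl ⟨_, Or.inr ⟨x, ⟨hx, hx1⟩, r, a, hr, rfl⟩, rfl⟩, ?_⟩
        intro i
        have hn1 : L.psi (.inr x) = .inl (.inr x) := L.psi_not (fun h =>
          ((h.1.spec hv).2.2.2.2.2 x hx hx1).1 (Eqw.refl _))
        have hn2 : ∀ p, L.psi (.inr (ext x [p])) = .inl (.inr (ext x [p])) := fun p => L.psi_not (fun h =>
          ((h.1.spec hv).2.2.2.2.2 x hx hx1).2 p (Eqw.refl _))
        have key : ∀ n : (𝔽.G.X ⊕ Tm T D) ⊕ Wd 𝔽.G, (n = .inr x ∨ ∃ p, n = .inr (ext x [p])) →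
            EqvGen (Gl 𝔠.t0 L.R1 L.cD1 Mk L.Eb) (L.psi n) (.inl n) := by
          rintro n (rfl | ⟨p, rfl⟩)
          · rw [hn1]
            exact EqvGen.refl _
          · rw [hn2]
            exact EqvGen.refl _
        refine key _ ?_
        rcases h : headOf r i with _ | y
        · exact Or.inl (cell_snd_none h)
        · exact Or.inr ⟨vl r y, cell_snd_some h⟩

private theorem Full_q1_finite : (L.Q1).Finite := L.W.finite_toSet.subset (fun _ h => h.1)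

private theorem Full_F1_finite : L.F1.Finite :=
  (𝔽.ok.finF.image _).union (Full_vcells_finite (L.W.finite_toSet.subset Set.sdiff_subset))

private theorem Full_V1_finite : L.V1.Finite := by
  classical
  have h : L.V1 ⊆ ((fun u => (up (L.cp u) L.b).getD L.b) '' L.Q1) := by
    rintro t ⟨u, hu, h⟩
    refine ⟨u, hu, ?_⟩
    simp only [h, Option.getD_some]
  exact (L.Full_q1_finite.image _).subset h

/-- (5.3) There is a bad lower pattern of level `Mk` of size at most `bS`. -/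
theorem has_full [Finite D] (hv : Valid 𝔽 E B) : ∃ s ≤ bS T 𝔠.K (Nat.card D), L.Has Mk s := by
  classical
  have hfin0 : ((amap Sum.inl) '' L.F1 ∪ tcells (ar := ar) Sum.inr L.V1 :
      Set (Atom ar (((𝔽.G.X ⊕ Tm T D) ⊕ Wd 𝔽.G) ⊕ Tm T D))).Finite :=
    (L.Full_F1_finite.image _).union (tcells_finite _ L.Full_V1_finite)
  obtain ⟨F', hF', hcard, hent⟩ := 𝔠.sm _ _ _ _ hfin0 (L.full_bad hv)
  have hfinF' : F'.Finite := hfin0.subset hF'
  -- the nodes
  let Nd : Set (((𝔽.G.X ⊕ Tm T D) ⊕ Wd 𝔽.G) ⊕ Tm T D) :=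
    (⋃ α ∈ F', Set.range α.2) ∪ Set.range (fun d : D => (Sum.inl (L.cD1 d) : ((𝔽.G.X ⊕ Tm T D) ⊕ Wd 𝔽.G) ⊕ Tm T D))
  have hfinNd : Nd.Finite := by
    refine Set.Finite.union (hfinF'.biUnion fun α _ => Set.finite_range _) (Set.finite_range _)
  have hcardNd : Nd.ncard ≤ 𝔠.K * Finset.univ.sup ar + Nat.card D := by
    refine (Set.ncard_union_le _ _).trans (Nat.add_le_add ?_ ?_)
    · have h1 : (⋃ α ∈ F', Set.range α.2) = ⋃ α ∈ hfinF'.toFinset, Set.range α.2 := by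
        ext x
        simp
      rw [h1]
      have h2 : (⋃ α ∈ hfinF'.toFinset, Set.range α.2).ncard ≤
          ∑ α ∈ hfinF'.toFinset, (Set.range α.2).ncard := by
        generalize hfinF'.toFinset = A
        induction A using Finset.induction_on with
        | empty => simp
        | insert α A hα ih =>
          rw [Finset.set_biUnion_insert, Finset.sum_insert hα]
          exact (Set.ncard_union_le _ _).trans (Nat.add_le_add_left ih _)
      refine h2.trans ?_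
      have h3 : ∀ α ∈ hfinF'.toFinset, (Set.range α.2).ncard ≤ Finset.univ.sup ar := by
        intro α _
        have h4 : (Set.range α.2).ncard ≤ ar α.1 := by
          rw [← Set.image_univ]
          refine (Set.ncard_image_le Set.finite_univ).trans ?_
          rw [Set.ncard_univ, Nat.card_eq_fintype_card, Fintype.card_fin]
        exact h4.trans (Finset.le_sup (Finset.mem_univ α.1))
      refine (Finset.sum_le_card_nsmul _ _ _ h3).trans ?_
      rw [smul_eq_mul, ← Set.ncard_eq_toFinset_card _ hfinF']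
      exact Nat.mul_le_mul_right _ hcard
    · rw [← Set.image_univ]
      refine (Set.ncard_image_le Set.finite_univ).trans ?_
      rw [Set.ncard_univ]
  have hr := Pool.Agent.WFC.EntG.restrict hent Nd (fun d => Or.inr ⟨d, rfl⟩)
    (fun α hα p => Or.inl (Set.mem_biUnion hα ⟨p, rfl⟩))
  let P : Set ((((𝔽.G.X ⊕ Tm T D) ⊕ Wd 𝔽.G) ⊕ Tm T D) × (((𝔽.G.X ⊕ Tm T D) ⊕ Wd 𝔽.G) ⊕ Tm T D)) :=
    {p | EqvGen (Gl 𝔠.t0 L.R1 L.cD1 Mk L.Eb) p.1 p.2 ∧ p.1 ∈ Nd ∧ p.2 ∈ Nd}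
  have hPs : P ⊆ Nd ×ˢ Nd := fun p hp => ⟨hp.2.1, hp.2.2⟩
  have hfinP : P.Finite := (hfinNd.prod hfinNd).subset hPs
  have hcardP : P.ncard ≤ (𝔠.K * Finset.univ.sup ar + Nat.card D) ^ 2 := by
    refine (Set.ncard_le_ncard hPs (hfinNd.prod hfinNd)).trans ?_
    rw [Set.ncard_prod, sq]
    exact Nat.mul_le_mul hcardNd hcardNd
  let F'' : Set (Atom ar ((𝔽.G.X ⊕ Tm T D) ⊕ Wd 𝔽.G)) := {α | α ∈ L.F1 ∧ amap Sum.inl α ∈ F'}
  let V'' : Set (Tm T D) := {t | t ∈ L.V1 ∧ ∃ r a, t = .f r a ∧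
    (cell r (.inr (.f r a)) (fun p => .inr (a p)) : Atom ar (((𝔽.G.X ⊕ Tm T D) ⊕ Wd 𝔽.G) ⊕ Tm T D)) ∈ F'}
  have hcardF : F''.ncard ≤ 𝔠.K := by
    refine le_trans ?_ hcard
    refine Set.ncard_le_ncard_of_injOn (amap Sum.inl) (fun α hα => hα.2) ?_ hfinF'
    intro α _ β _ h
    obtain ⟨i, s⟩ := α
    obtain ⟨j, s'⟩ := β
    unfold amap at h
    rw [Sigma.mk.injEq] at h
    obtain ⟨h1, h2⟩ := h
    subst h1
    rw [heq_eq_eq] at h2
    congr 1
    funext p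
    exact Sum.inl_injective (congrFun h2 p)
  refine ⟨F''.ncard + P.ncard, Nat.add_le_add hcardF hcardP, F'', V'', P, ?_, rfl⟩
  refine ⟨fun α h => h.1, fun t h => sub_self h.1, L.Full_V1_finite.subset (fun t h => h.1), hfinP,
    fun p hp => hp.1, ?_⟩
  refine Pool.Agent.WFC.EntG.mono hr (fun x y h => .id h) ?_
  intro α hα
  rcases hF' hα with ⟨β, hβ, rfl⟩ | ⟨r, a, ht, rfl⟩
  · exact Or.inl ⟨β, ⟨hβ, hα⟩, rfl⟩
  · exact Or.inr ⟨r, a, ⟨ht, r, a, rfl, hα⟩, rfl⟩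

end Low

end Pool.Agent.BF
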