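import Pool.Agent.BF.Defs
import Pool.Agent.BF.Ent

set_option autoImplicit false

/-!
# HM: the finite model of legal terms
-/

namespace Pool.Agent.BF

open Pool.Agent.H56 Relation
open Pool.Agent.WFC (Atom amap EntG Small)

variable {k : ℕ} {ar : Fin k → ℕ} {T : List (Rule ar)} {D : Type}

theorem lg_up_nil (t : Tm T D) : up [] t = some t := rfl

theorem lg_teq_iff {C : Type} {t0 : Tm T D → C} {l : ℕ} {s t : Tm T D} :
    Teq t0 l s t ↔ ∀ w : Pth T, w.length ≤ l → (up w s).map t0 = (up w t).map t0 := Iff.rfl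

theorem lg_teq_refl {C : Type} (t0 : Tm T D → C) (l : ℕ) (t : Tm T D) : Teq t0 l t t := fun _ _ => rfl

theorem lg_teq_symm {C : Type} {t0 : Tm T D → C} {l : ℕ} {s t : Tm T D} (h : Teq t0 l s t) : Teq t0 l t s :=
  fun w hw => (h w hw).symm

theorem lg_teq_trans {C : Type} {t0 : Tm T D → C} {l : ℕ} {s t u : Tm T D} (h : Teq t0 l s t) (h' : Teq t0 l t u) :
    Teq t0 l s u :=
  fun w hw => (h w hw).trans (h' w hw)

theorem lg_teq_mono {C : Type} {t0 : Tm T D → C} {l l' : ℕ} (hl : l' ≤ l) {s t : Tm T D} (h : Teq t0 l s t) :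
    Teq t0 l' s t :=
  fun w hw => h w (hw.trans hl)

theorem lg_teq_zero {C : Type} {t0 : Tm T D → C} {l : ℕ} {s t : Tm T D} (h : Teq t0 l s t) : t0 s = t0 t := by
  have h1 := h [] (Nat.zero_le _)
  simpa [up] using h1

/-- Terms of the same type have the same rule or constant. -/
theorem lg_teq_lab {C : Type} {t0 : Tm T D → C} (hlab : ∀ s t, t0 s = t0 t → lab s = lab t) {l : ℕ} {s t : Tm T D}
    (h : Teq t0 l s t) : lab s = lab t := hlab _ _ (lg_teq_zero h)

theorem lg_teq_c {C : Type} {t0 : Tm T D → C} (hlab : ∀ s t, t0 s = t0 t → lab s = lab t) {l : ℕ} {d : D}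
    {t : Tm T D} (h : Teq t0 l (.c d) t) : t = .c d := by
  have h1 := lg_teq_lab hlab h
  cases t with
  | c d' =>
    have h2 : d = d' := Sum.inl_injective h1
    rw [h2]
  | f r a => exact absurd h1 (by simp [lab])

section model

variable {C : Type} (t0 : Tm T D → C) (J : Inst ar D) (N' : ℕ)

/-- Legal terms. -/
abbrev LTm : Type := {t : Tm T D // Leg t0 J N' t}

/-- The equality of types of legal terms. -/
def lgSetoid : Setoid (LTm t0 J N') where
  r s t := Teq t0 N' s.1 t.1
  iseqv := ⟨fun s => lg_teq_refl t0 N' s.1, fun h => lg_teq_symm h, fun h h' => lg_teq_trans h h'⟩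

/-- The domain of the finite model: the types of the legal terms. -/
def LgH : Type := Quotient (lgSetoid t0 J N')

/-- The class of a legal term. -/
def lgMk (t : Tm T D) (h : Leg t0 J N' t) : LgH t0 J N' := Quotient.mk (lgSetoid t0 J N') ⟨t, h⟩

variable {t0 J N'}

theorem lgMk_eq {s t : Tm T D} {hs : Leg t0 J N' s} {ht : Leg t0 J N' t} (h : lgMk t0 J N' s hs = lgMk t0 J N' t ht) :
    Teq t0 N' s t := Quotient.exact h

theorem lgMk_sound {s t : Tm T D} {hs : Leg t0 J N' s} {ht : Leg t0 J N' t} (h : Teq t0 N' s t) :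
    lgMk t0 J N' s hs = lgMk t0 J N' t ht := Quotient.sound h

theorem lgMk_surj (x : LgH t0 J N') : ∃ t h, x = lgMk t0 J N' t h := by
  obtain ⟨⟨t, h⟩, rfl⟩ := Quotient.exists_rep x
  exact ⟨t, h, rfl⟩

instance lgH_finite [Finite C] : Finite (LgH t0 J N') := by
  classical
  have hfin : Finite {w : Pth T // w.length ≤ N'} := by
    have h1 : {w : Pth T | w.length ≤ N'}.Finite := List.finite_length_le _ _
    exact h1
  let F : LTm t0 J N' → ({w : Pth T // w.length ≤ N'} → Option C) := fun t w => (up w.1 t.1).map t0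
  have hF : ∀ s t : LTm t0 J N', (lgSetoid t0 J N').r s t → F s = F t := by
    intro s t h
    funext w
    exact h w.1 w.2
  let G : LgH t0 J N' → ({w : Pth T // w.length ≤ N'} → Option C) := Quotient.lift F hF
  have hG : Function.Injective G := by
    intro x y hxy
    obtain ⟨s, rfl⟩ := Quotient.exists_rep x
    obtain ⟨t, rfl⟩ := Quotient.exists_rep y
    apply Quotient.sound
    intro w hw
    exact congrFun hxy ⟨w, hw⟩
  exact Finite.of_injective G hG

theorem lg_args {r : Fin T.length} {a : Fin (mm T) → Tm T D} (h : Leg t0 J N' (.f r a)) (p : Fin (mm T)) :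
    Leg t0 J N' (a p) := by
  cases h with
  | f _ _ h1 _ => exact h1 p

theorem lg_body {r : Fin T.length} {a : Fin (mm T) → Tm T D} (h : Leg t0 J N' (.f r a))
    (j : Fin (bd r).length) : BodyOk t0 J N' r a j := by
  cases h with
  | f _ _ _ h2 => exact h2 j

variable (t0 J N')

/-- The cell of a legal term, over the domain of the model. -/
def lgCell (r : Fin T.length) (a : Fin (mm T) → Tm T D) (h : Leg t0 J N' (.f r a)) : Atom ar (LgH t0 J N') :=
  cell r (lgMk t0 J N' (.f r a) h) (fun p => lgMk t0 J N' (a p) (lg_args h p))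

/-- The facts of the finite model. -/
def lgI : Inst ar (LgH t0 J N') := fun i t =>
  (∃ s : Fin (ar i) → D, J i s ∧ t = fun p => lgMk t0 J N' (.c (s p)) (.c (s p))) ∨
  (∃ r a, ∃ h : Leg t0 J N' (.f r a), (⟨i, t⟩ : Atom ar (LgH t0 J N')) = lgCell t0 J N' r a h)

variable {t0 J N'}

theorem lg_isHom : IsHom J (lgI t0 J N') (fun d => lgMk t0 J N' (.c d) (.c d)) :=
  fun _ t ht => Or.inl ⟨t, ht, rfl⟩

/-- The pullback of a cell: if the atom `(i, t)` is the cell of a legal term, then there are terms `s` with the classes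
`t`. -/
theorem lg_pull {i : Fin k} {t : Fin (ar i) → LgH t0 J N'} {r : Fin T.length} {a : Fin (mm T) → Tm T D}
    {h : Leg t0 J N' (.f r a)} (he : (⟨i, t⟩ : Atom ar (LgH t0 J N')) = lgCell t0 J N' r a h) :
    ∃ s : Fin (ar i) → Tm T D, cell r (.f r a) a = (⟨i, s⟩ : Atom ar (Tm T D)) ∧
      ∀ p, ∃ hs : Leg t0 J N' (s p), t p = lgMk t0 J N' (s p) hs := by
  have h1 : i = symOf r := congrArg Sigma.fst he
  subst h1
  have h2 : t = fun p => match headOf r p with
      | none => lgMk t0 J N' (.f r a) h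
      | some x => lgMk t0 J N' (a (vl r x)) (lg_args h _) := eq_of_heq (Sigma.mk.inj_iff.mp he).2
  refine ⟨fun p => match headOf r p with
      | none => .f r a
      | some x => a (vl r x), rfl, ?_⟩
  intro p
  rw [h2]
  dsimp only
  cases headOf r p with
  | none => exact ⟨h, rfl⟩
  | some x => exact ⟨lg_args h _, rfl⟩

/-- The types of the legal terms are a model. -/
theorem lg_isModel [Nonempty D] (hlab : ∀ s t, t0 s = t0 t → lab s = lab t) : IsModel T (lgI t0 J N') := by
  classical
  obtain ⟨d₀⟩ := ‹Nonempty D›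
  intro r₀ hr₀ v hv
  obtain ⟨r, rfl⟩ := List.get_of_mem hr₀
  -- representatives
  choose rep hrep hrepv using fun x => lgMk_surj (v x)
  -- the terms for the body atoms
  have hch : ∀ j : Fin (bd r).length, ∃ u : Tm T D, Leg t0 J N' u ∧
      ((∃ s : Fin (ar ((bd r).get j).1) → D, J ((bd r).get j).1 s ∧ ∀ i, rep (((bd r).get j).2 i) = .c (s i)) ∨
      (∃ (r' : Fin T.length) (a' : Fin (mm T) → Tm T D) (s : Fin (ar ((bd r).get j).1) → Tm T D),
        u = .f r' a' ∧ cell r' (.f r' a') a' = (⟨((bd r).get j).1, s⟩ : Atom ar (Tm T D)) ∧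
        ∀ i, Teq t0 N' (s i) (rep (((bd r).get j).2 i)))) := by
    intro j
    rcases hv _ (List.get_mem (bd r) j) with ⟨s, hs, hvs⟩ | ⟨r', a', h', he⟩
    · refine ⟨.c d₀, .c d₀, Or.inl ⟨s, hs, fun i => ?_⟩⟩
      have h1 : v (((bd r).get j).2 i) = lgMk t0 J N' (.c (s i)) (.c (s i)) := congrFun hvs i
      rw [hrepv] at h1
      exact lg_teq_c hlab (lg_teq_symm (lgMk_eq h1))
    · obtain ⟨s, hs, hs'⟩ := lg_pull he
      refine ⟨.f r' a', h', Or.inr ⟨r', a', s, rfl, hs, fun i => ?_⟩⟩
      obtain ⟨hsl, h1⟩ := hs' i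
      have h2 : v (((bd r).get j).2 i) = lgMk t0 J N' (s i) hsl := h1
      rw [hrepv] at h2
      exact lg_teq_symm (lgMk_eq h2)
  choose U hU hU' using hch
  let a : Fin (mm T) → Tm T D := fun p =>
    if h : p.1 < nv r then rep ⟨p.1, h⟩
    else if h2 : p.1 - nv r < (bd r).length then U ⟨p.1 - nv r, h2⟩ else .c d₀
  have hal : ∀ p, Leg t0 J N' (a p) := by
    intro p
    by_cases h : p.1 < nv r
    · have : a p = rep ⟨p.1, h⟩ := dif_pos h
      rw [this]
      exact hrep _
    · by_cases h2 : p.1 - nv r < (bd r).length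
      · have : a p = U ⟨p.1 - nv r, h2⟩ := by
          simp only [a]
          rw [dif_neg h, dif_pos h2]
        rw [this]
        exact hU _
      · have : a p = .c d₀ := by
          simp only [a]
          rw [dif_neg h, dif_neg h2]
        rw [this]
        exact .c _
  have hav : ∀ x, a (vl r x) = rep x := by
    intro x
    have h : (vl r x).1 < nv r := x.2
    have : a (vl r x) = rep ⟨(vl r x).1, h⟩ := dif_pos h
    rw [this]
    rfl
  have hab : ∀ j, a (bl r j) = U j := by
    intro j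
    have h : ¬ (bl r j).1 < nv r := by
      have : (bl r j).1 = nv r + j.1 := rfl
      omega
    have h3 : (bl r j).1 - nv r = j.1 := by
      have : (bl r j).1 = nv r + j.1 := rfl
      omega
    have h2 : (bl r j).1 - nv r < (bd r).length := by
      rw [h3]
      exact j.2
    have : a (bl r j) = U ⟨(bl r j).1 - nv r, h2⟩ := by
      simp only [a]
      rw [dif_neg h, dif_pos h2]
    rw [this]
    congr 1
    exact Fin.ext h3
  have hleg : Leg t0 J N' (.f r a) := by
    refine .f r a hal fun j => ?_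
    rcases hU' j with ⟨s, hs, hs'⟩ | ⟨r', a', s, h1, h2, h3⟩
    · exact Or.inl ⟨s, hs, fun i => by rw [hav]; exact hs' i⟩
    · exact Or.inr ⟨r', a', s, by rw [hab]; exact h1, h2, fun i => by rw [hav]; exact h3 i⟩
  refine ⟨fun p => match headOf r p with
      | none => lgMk t0 J N' (.f r a) hleg
      | some x => lgMk t0 J N' (a (vl r x)) (lg_args hleg _), ?_, ?_, ?_⟩
  · intro j x hj
    have hj' : headOf r j = some x := hj
    dsimp only
    rw [hj']
    dsimp only
    rw [hrepv x]
    apply lgMk_sound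
    rw [hav]
    exact lg_teq_refl _ _ _
  · intro j j' hj hj'
    have h1 : headOf r j = none := hj
    have h2 : headOf r j' = none := hj'
    dsimp only
    rw [h1, h2]
  · exact Or.inr ⟨r, a, hleg, rfl⟩

end model

/-- The badness of higher levels implies the badness of lower levels. -/
theorem lg_bad_mono {C : Type} {t0 : Tm T D → C} {J : Inst ar D} {q : CQ ar} {X : Type} {R : X → X → Prop}
    {cD : D → X} {l l' : ℕ} (hl : l' ≤ l) {F : Set (Atom ar X)} {V : Set (Tm T D)}
    {P : Set ((X ⊕ Tm T D) × (X ⊕ Tm T D))} (h : Bad t0 J q R cD l F V P) : Bad t0 J q R cD l' F V P := by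
  refine Pool.Agent.WFC.EntG.mono h ?_ (le_refl _)
  intro x y hxy
  cases hxy with
  | nd h => exact .nd h
  | ty h => exact .ty (lg_teq_mono hl h)
  | cst d => exact .cst d
  | id h => exact .id h

/-- A match of `q` in the finite model gives at most `|q|` legal terms whose cells, identified at the level `N'`, entail
`q`. -/
theorem lg_match {C : Type} {t0 : Tm T D → C} {J : Inst ar D} {N' : ℕ} (hlab : ∀ s t, t0 s = t0 t → lab s = lab t)
    {q : CQ ar} (h : Sat (lgI t0 J N') q) :
    ∃ V : Finset (Tm T D), V.card ≤ q.2.length ∧ (∀ t ∈ V, Leg t0 J N' t ∧ ∃ r a, t = .f r a) ∧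
      Bad t0 J q (fun _ _ : D => False) (fun d : D => d) N' ∅ ↑V ∅ := by
  classical
  obtain ⟨v, hv⟩ := h
  choose rep hrep hrepv using fun x => lgMk_surj (v x)
  have hch : ∀ α : Σ i : Fin k, Fin (ar i) → Fin q.1, α ∈ q.2 →
      ∃ o : Option (Tm T D), (∀ t, o = some t → Leg t0 J N' t ∧ ∃ r a, t = .f r a) ∧
        ((∃ s : Fin (ar α.1) → D, J α.1 s ∧ ∀ i, rep (α.2 i) = .c (s i)) ∨
        (∃ (r' : Fin T.length) (a' : Fin (mm T) → Tm T D) (s : Fin (ar α.1) → Tm T D),
          o = some (.f r' a') ∧ cell r' (.f r' a') a' = (⟨α.1, s⟩ : Atom ar (Tm T D)) ∧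
          ∀ i, Teq t0 N' (s i) (rep (α.2 i)))) := by
    intro α hα
    rcases hv α hα with ⟨s, hs, hvs⟩ | ⟨r', a', h', he⟩
    · refine ⟨none, by simp, Or.inl ⟨s, hs, fun i => ?_⟩⟩
      have h1 : v (α.2 i) = lgMk t0 J N' (.c (s i)) (.c (s i)) := congrFun hvs i
      rw [hrepv] at h1
      exact lg_teq_c hlab (lg_teq_symm (lgMk_eq h1))
    · obtain ⟨s, hs, hs'⟩ := lg_pull he
      refine ⟨some (.f r' a'), ?_, Or.inr ⟨r', a', s, rfl, hs, fun i => ?_⟩⟩
      · intro t ht
        cases ht
        exact ⟨h', r', a', rfl⟩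
      obtain ⟨hsl, h1⟩ := hs' i
      have h2 : v (α.2 i) = lgMk t0 J N' (s i) hsl := h1
      rw [hrepv] at h2
      exact lg_teq_symm (lgMk_eq h2)
  choose! own hown1 hown2 using hch
  refine ⟨(q.2.filterMap own).toFinset, ?_, ?_, ?_⟩
  · exact (List.toFinset_card_le _).trans (List.length_filterMap_le _ _)
  · intro t ht
    obtain ⟨α, hα, hαt⟩ := List.mem_filterMap.mp (List.mem_toFinset.mp ht)
    exact hown1 α hα t hαt
  · intro N I hI h hR hJ hF
    refine ⟨fun x => h (.inr (rep x)), ?_⟩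
    intro α hα
    rcases hown2 α hα with ⟨s, hs, hs'⟩ | ⟨r', a', s, h1, h2, h3⟩
    · have h4 : (fun x => h (.inr (rep x))) ∘ α.2 = (fun d => h (.inl d)) ∘ s := by
        funext i
        have h5 : h (.inl (s i)) = h (.inr (.c (s i))) := hR _ _ (Gl.cst (s i))
        simp only [Function.comp]
        rw [hs' i, h5]
      rw [h4]
      exact hJ α.1 s hs
    · have hmem : (.f r' a' : Tm T D) ∈ (q.2.filterMap own).toFinset :=
        List.mem_toFinset.mpr (List.mem_filterMap.mpr ⟨α, hα, h1⟩)
      have h4 := hF (cell r' (Sum.inr (.f r' a')) (fun p => Sum.inr (a' p)))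
        (Or.inr ⟨r', a', hmem, rfl⟩)
      have h5 : (⟨α.1, fun p => (Sum.inr (s p) : D ⊕ Tm T D)⟩ : Atom ar (D ⊕ Tm T D)) =
          cell r' (Sum.inr (.f r' a')) (fun p => Sum.inr (a' p)) := by
        have h6 := congrArg (amap (Sum.inr : Tm T D → D ⊕ Tm T D)) h2
        refine h6.symm.trans ?_
        unfold amap cell
        congr 1
        funext p
        simp only [Function.comp]
        cases headOf r' p with
        | none => rfl
        | some x => rfl
      have h7 : I α.1 (fun p => h (.inr (s p))) := by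
        have h8 : I (⟨α.1, fun p => (Sum.inr (s p) : D ⊕ Tm T D)⟩ : Atom ar (D ⊕ Tm T D)).1
            (fun p => h ((⟨α.1, fun p => (Sum.inr (s p) : D ⊕ Tm T D)⟩ : Atom ar (D ⊕ Tm T D)).2 p)) := by
          rw [h5]
          exact h4
        exact h8
      have h9 : (fun x => h (.inr (rep x))) ∘ α.2 = fun p => h (.inr (s p)) := by
        funext i
        exact (hR _ _ (Gl.ty (h3 i))).symm
      rw [h9]
      exact h7

/-- The certificate of the empty pattern. -/
theorem lg_cert {C : Type} {t0 : Tm T D → C} {J : Inst ar D} (hlab : ∀ s t, t0 s = t0 t → lab s = lab t)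
    [Nonempty D] {q : CQ ar} (h : Bad t0 J q (fun _ _ : D => False) (fun d : D => d) 0 ∅ ∅ ∅) : Entails T J q := by
  classical
  rintro N I hI ⟨f, hf⟩
  have d₀ : D := Classical.choice ‹Nonempty D›
  refine h N I hI (fun x => match x with
    | .inl d => f d
    | .inr t => (lab t).elim f (fun _ => f d₀)) ?_ hf ?_
  · intro x y hxy
    cases hxy with
    | nd h => exact h.elim
    | ty h =>
      dsimp only
      rw [lg_teq_lab hlab h]
    | cst d => rfl
    | id h => exact absurd h (Set.notMem_empty _)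
  · rintro α (⟨β, hβ, -⟩ | ⟨r, a, hra, -⟩)
    · exact absurd hβ (Set.notMem_empty _)
    · exact absurd hra (Set.notMem_empty _)

end Pool.Agent.BF
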