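import Pool.Agent.BF.EV

set_option autoImplicit false

/-!
# LowA: elementary facts on the lower problem
-/

namespace Pool.Agent.BF

open Pool.Agent.H56 Relation
open Pool.Agent.WFC (Atom amap EntG Small ElimSys AncA)

variable {k : ℕ} {ar : Fin k → ℕ} {T : List (Rule ar)} {D : Type} {𝔠 : Ctx T D} {𝔽 : Fr 𝔠} {E : St 𝔽} {B Mk l l' : ℕ}

/-- The identifications of a level are monotone in the level and the costly pairs. -/
theorem Gl.mono {C X : Type} {t0 : Tm T D → C} {R : X → X → Prop} {cD : D → X} {l l' : ℕ}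
    {P P' : Set ((X ⊕ Tm T D) × (X ⊕ Tm T D))} (hl : l' ≤ l) (hP : P ⊆ P') {x y : X ⊕ Tm T D}
    (h : Gl t0 R cD l P x y) : Gl t0 R cD l' P' x y := by
  cases h with
  | nd h => exact .nd h
  | ty h => exact .ty (Veq.mono h hl)
  | cst d => exact .cst d
  | id h => exact .id (hP h)

theorem glE_mono {C X : Type} {t0 : Tm T D → C} {R : X → X → Prop} {cD : D → X} {l l' : ℕ}
    {P P' : Set ((X ⊕ Tm T D) × (X ⊕ Tm T D))} (hl : l' ≤ l) (hP : P ⊆ P') {x y : X ⊕ Tm T D}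
    (h : EqvGen (Gl t0 R cD l P) x y) : EqvGen (Gl t0 R cD l' P') x y :=
  eqvGen_mono (fun _ _ h => EqvGen.rel _ _ (h.mono hl hP)) h

/-- Entailment of a level is monotone in the level (downwards), the atoms, the terms and the pairs. -/
theorem Ctx.bd_mono (𝔠 : Ctx T D) {X : Type} {R : X → X → Prop} {cD : D → X} {l l' : ℕ} {F F' : Set (Atom ar X)}
    {V V' : Set (Tm T D)} {P P' : Set ((X ⊕ Tm T D) × (X ⊕ Tm T D))} (hl : l' ≤ l) (hF : F ⊆ F') (hV : V ⊆ V')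
    (hP : ∀ p ∈ P, EqvGen (Gl 𝔠.t0 R cD l' P') p.1 p.2) (h : 𝔠.Bd R cD l F V P) : 𝔠.Bd R cD l' F' V' P' := by
  refine EntG.map h id ?_ (fun d => EqvGen.refl _) ?_
  · intro x y hxy
    cases hxy with
    | nd h => exact EqvGen.rel _ _ (.nd h)
    | ty h => exact EqvGen.rel _ _ (.ty (Veq.mono h hl))
    | cst d => exact EqvGen.rel _ _ (.cst d)
    | id h => exact hP _ h
  · rintro α (⟨β, hβ, rfl⟩ | hα)
    · exact ⟨_, Or.inl ⟨β, hF hβ, rfl⟩, fun p => EqvGen.refl _⟩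
    · exact ⟨α.2, Or.inr (tcells_mono _ hV hα), fun p => EqvGen.refl _⟩

namespace Low

variable (L : Low 𝔽 E Mk)

theorem Q1_sub : L.Q1 ⊆ ↑L.W := fun _ h => h.1

theorem Q1_finite : L.Q1.Finite := L.W.finite_toSet.subset L.Q1_sub

theorem F1_finite : L.F1.Finite :=
  (fcells_finite 𝔽).union (vcells_finite (L.W.finite_toSet.subset Set.sdiff_subset))

theorem V1_finite : L.V1.Finite := by
  classical
  refine (L.Q1_finite.image (fun u => (up (L.cp u) L.b).getD L.b)).subset ?_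
  rintro t ⟨u, hu, h⟩
  exact ⟨u, hu, by simp only [h, Option.getD_some]⟩

/-- Words of `P1` are short. -/
theorem Q1_len {u : Wd 𝔽.G} (hu : u ∈ L.Q1) : u.2.length ≤ bR1 T 𝔠.K := L.tok.len u hu.1

theorem sh_pos {u : Wd 𝔽.G} (hu : u ∈ L.Q1) {z : Pth T} (hz : z.length ≤ 𝔠.K + 2) : 𝔽.sh (ext u z) := by
  have h := L.Q1_len hu
  unfold Fr.sh bR
  rw [ext_snd, List.length_append]
  omega

theorem sh_Q1 {u : Wd 𝔽.G} (hu : u ∈ L.Q1) : 𝔽.sh u := L.sh_pos (z := []) hu (Nat.zero_le _)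

theorem val_pos (z : Pth T) : val (ext (ow L.o) z) = up z L.b := by
  rw [val_ext, L.hb, Option.bind_some]

/-- The position `z` below the copy of `u` is a copy of the word `ext u z`. -/
theorem pos_eqw {u : Wd 𝔽.G} (hu : u ∈ L.Q1) (z : Pth T) :
    Eqw 𝔽 E (ext (ow L.o) (z ++ L.cp u)) (ext u z) := by
  have h := (L.hcp u hu).2.ext z
  rw [ext_ext] at h
  exact h

/-- Values of copies. -/
theorem pos_veq (hv : Valid 𝔽 E B) {u : Wd 𝔽.G} (hu : u ∈ L.Q1) {z : Pth T} (hz : z.length ≤ 𝔠.K + 2) :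
    Veq 𝔠.t0 (𝔽.mu - bN T 𝔠.K) (val (ext u z)) (up (z ++ L.cp u) L.b) := by
  rw [← L.val_pos]
  by_cases hd : val (ext u z) = none
  · -- both are undefined
    have hQ := L.tok.cw u hu.1
    obtain ⟨r, a, hr⟩ := hQ
    have h1 := class_veq hv (L.sh_Q1 hu) (by rw [hr]; simp) (L.hcp u hu).2.symm
    have h2 := h1.bind z (l' := 𝔽.mu - bN T 𝔠.K - z.length) (by
      have h3 := three_bN_le_mu (𝔽 := 𝔽)
      have h4 : 𝔠.K + 2 ≤ bN T 𝔠.K := by unfold bN; omega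
      omega)
    rw [← val_ext, ← val_ext, ext_ext] at h2
    rw [hd]
    have h5 := h2.none_iff.1 hd
    rw [h5]
    exact Veq.refl _ _
  · exact class_veq hv (L.sh_pos hu hz) hd (L.pos_eqw hu z).symm

theorem dep_b : dep L.b ≤ dep L.o.1.1 := by
  have h := L.hb
  have h1 : up (ow L.o).2 (ow L.o).1.1 = some L.b := h
  have h2 := dep_up h1
  rw [ow_fst] at h2
  omega

theorem dep_b_lt : dep L.b < 𝔽.n := lt_of_le_of_lt L.dep_b (𝔽.ok.dep _ L.o.1.2)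

theorem b_sub : L.b ∈ Sub 𝔽.G.V := val_mem_sub L.hb

theorem V1_sub : L.V1 ⊆ Sub 𝔽.G.V := by
  rintro t ⟨u, hu, h⟩
  exact mem_sub_of_up L.b_sub h

theorem V1_dep {t : Tm T D} (ht : t ∈ Sub L.V1) : dep t < dep L.b := by
  obtain ⟨s, ⟨u, hu, h⟩, w, hw⟩ := ht
  have h1 := dep_up_lt (L.hcp u hu).1 h
  have h2 := dep_up hw
  omega

end Low

variable {L : Low 𝔽 E Mk}

/-- Bad lower patterns stay bad at lower levels. -/
theorem Low.bc_mono {F : Set (Atom ar ((𝔽.G.X ⊕ Tm T D) ⊕ Wd 𝔽.G))} {V : Set (Tm T D)}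
    {P : Set ((((𝔽.G.X ⊕ Tm T D) ⊕ Wd 𝔽.G) ⊕ Tm T D) × (((𝔽.G.X ⊕ Tm T D) ⊕ Wd 𝔽.G) ⊕ Tm T D))}
    (h : L.BC l F V P) (hl : l' ≤ l) : L.BC l' F V P where
  hF := h.hF
  hV := h.hV
  finV := h.finV
  finP := h.finP
  hP := fun p hp => glE_mono hl subset_rfl (h.hP p hp)
  bad := 𝔠.bd_mono hl subset_rfl subset_rfl (fun _ hp => EqvGen.rel _ _ (.id hp)) h.bad

/-- A bad lower pattern of least size satisfies the requirements of the induction statement. -/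
theorem Low.pok {F : Set (Atom ar ((𝔽.G.X ⊕ Tm T D) ⊕ Wd 𝔽.G))} {V : Set (Tm T D)}
    {P : Set ((((𝔽.G.X ⊕ Tm T D) ⊕ Wd 𝔽.G) ⊕ Tm T D) × (((𝔽.G.X ⊕ Tm T D) ⊕ Wd 𝔽.G) ⊕ Tm T D))} {s' : ℕ}
    (h : L.BC (l' + 3 * bN T 𝔠.K) F V P) (hF : F.ncard ≤ 𝔠.K) (hV : V.ncard ≤ 𝔠.K)
    (hnc : ∀ t ∈ V, ∃ r a, t = .f r a) (hs : F.ncard + P.ncard ≤ s')
    (ht : ∀ F'' V'' P'', L.BC l' F'' V'' P'' → s' ≤ F''.ncard + P''.ncard) :
    𝔠.POk (L.pat F V P) (dep L.b) s' l' where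
  finF := L.F1_finite.subset h.hF
  finV := h.finV
  finP := h.finP
  cardF := hF
  cardV := hV
  leg := fun t htV => Leg.sub 𝔽.ok.leg (sub_sub L.V1_sub (h.hV htV))
  nc := hnc
  dep := fun t htV => L.V1_dep (h.hV htV)
  size := hs
  bad := h.bad
  tight := by
    intro F'' V'' P'' hF'' hV'' hfV hfP hP'' hb
    refine ht F'' V'' P'' ⟨hF''.trans h.hF, hV''.trans (sub_sub h.hV), hfV, hfP, ?_, hb⟩
    intro p hp
    refine eqvGen_mono ?_ (hP'' p hp)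
    intro x y hxy
    cases hxy with
    | nd h => exact EqvGen.rel _ _ (.nd h)
    | ty h => exact EqvGen.rel _ _ (.ty h)
    | cst d => exact EqvGen.rel _ _ (.cst d)
    | id h' => exact glE_mono (Nat.le_add_right _ _) subset_rfl (h.hP _ h')

end Pool.Agent.BF
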