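import Pool.Agent.BF.LowA

set_option autoImplicit false

/-!
# LowB: small supports of bad patterns, finitely many identifications
-/

namespace Pool.Agent.BF

open Pool.Agent.H56 Relation
open Pool.Agent.WFC (Atom amap EntG Small ElimSys AncA)

variable {k : ℕ} {ar : Fin k → ℕ} {T : List (Rule ar)} {D : Type}

theorem amap_injective {X Y : Type} {g : X → Y} (hg : Function.Injective g) :
    Function.Injective (amap (ar := ar) g) := by
  rintro ⟨i, s⟩ ⟨i', s'⟩ hst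
  have h1 : i = i' := congrArg (fun x => x.1) hst
  subst h1
  have h2 : (g ∘ s : Fin (ar i) → Y) = g ∘ s' := by
    simpa [amap] using hst
  congr 1
  funext p
  exact hg (congrFun h2 p)

/-- (B2) Small supports. -/
theorem small_FV (𝔠 : Ctx T D) {X : Type} {R : X → X → Prop} {cD : D → X} {l : ℕ} {F : Set (Atom ar X)}
    {V : Set (Tm T D)} {P : Set ((X ⊕ Tm T D) × (X ⊕ Tm T D))} (hF : F.Finite) (hV : V.Finite)
    (h : 𝔠.Bd R cD l F V P) :
    ∃ F' ⊆ F, ∃ V' ⊆ V, F'.ncard + V'.ncard ≤ 𝔠.K ∧ (∀ t ∈ V', ∃ r a, t = .f r a) ∧ 𝔠.Bd R cD l F' V' P := by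
  classical
  have hfin : ((amap Sum.inl) '' F ∪ tcells (ar := ar) (Sum.inr : Tm T D → X ⊕ Tm T D) V).Finite :=
    (hF.image _).union (tcells_finite _ hV)
  obtain ⟨G, hG, hGc, hGE⟩ := 𝔠.sm _ _ _ _ hfin h
  have hGf : G.Finite := hfin.subset hG
  let A : Set (Atom ar (X ⊕ Tm T D)) := (amap Sum.inl) '' F
  let F' : Set (Atom ar X) := {α | α ∈ F ∧ amap Sum.inl α ∈ G}
  have hinj : Function.Injective (amap (ar := ar) (Sum.inl : X → X ⊕ Tm T D)) := amap_injective Sum.inl_injective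
  -- choose a term for every cell in `G \ A`
  have hch : ∀ α : {α // α ∈ G \ A}, ∃ t : Tm T D, ∃ r a, t = .f r a ∧ t ∈ V ∧
      α.1 = cell r (.inr (.f r a)) (fun p => .inr (a p)) := by
    rintro ⟨α, hα⟩
    rcases hG hα.1 with h1 | ⟨r, a, h1, h2⟩
    · exact absurd h1 hα.2
    · exact ⟨.f r a, r, a, rfl, h1, h2⟩
  choose g hg using hch
  have hGA : (G \ A).Finite := hGf.subset Set.sdiff_subset
  have hfs : Finite {α // α ∈ G \ A} := hGA
  have hVc : (Set.range g).ncard ≤ (G \ A).ncard := by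
    rw [← Set.image_univ]
    refine (Set.ncard_image_le (Set.finite_univ)).trans ?_
    rw [Set.ncard_univ]
    exact le_of_eq (Nat.card_coe_set_eq _)
  have hFc : F'.ncard ≤ (G ∩ A).ncard := by
    rw [← Set.ncard_image_of_injective F' hinj]
    refine Set.ncard_le_ncard ?_ (hGf.subset Set.inter_subset_left)
    rintro β ⟨α, ⟨h1, h2⟩, rfl⟩
    exact ⟨h2, α, h1, rfl⟩
  have hsum : (G ∩ A).ncard + (G \ A).ncard = G.ncard := Set.ncard_inter_add_ncard_sdiff_eq_ncard G A hGf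
  refine ⟨F', fun α h => h.1, Set.range g, ?_, by omega, ?_, ?_⟩
  · rintro t ⟨α, rfl⟩
    obtain ⟨r, a, h1, h2, h3⟩ := hg α
    exact h2
  · rintro t ⟨α, rfl⟩
    obtain ⟨r, a, h1, h2, h3⟩ := hg α
    exact ⟨r, a, h1⟩
  · refine EntG.mono hGE (fun _ _ h => h) ?_
    intro α hα
    by_cases hA : α ∈ A
    · obtain ⟨β, hβ, rfl⟩ := hA
      exact Or.inl ⟨β, ⟨hβ, hα⟩, rfl⟩
    · obtain ⟨r, a, h1, h2, h3⟩ := hg ⟨α, hα, hA⟩
      exact Or.inr ⟨r, a, ⟨⟨α, hα, hA⟩, h1⟩, h3⟩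

theorem amap_ncard {X : Type} {F : Set (Atom ar X)} {Y : Type} {g : X → Y} (hg : Function.Injective g) :
    ((amap g) '' F).ncard = F.ncard := Set.ncard_image_of_injective F (amap_injective hg)

theorem tcells_ncard {X : Type} (g : Tm T D → X) {V : Set (Tm T D)} (h : V.Finite) :
    (tcells (ar := ar) g V).ncard ≤ V.ncard := by
  classical
  let f : Atom ar X → Option (Tm T D) := fun α =>
    if hα : ∃ r a, Tm.f r a ∈ V ∧ α = cell r (g (.f r a)) (fun p => g (a p)) then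
      some (.f hα.choose hα.choose_spec.choose) else none
  have hf : ∀ α ∈ tcells (ar := ar) g V, ∃ r a, f α = some (.f r a) ∧ Tm.f r a ∈ V ∧
      α = cell r (g (.f r a)) (fun p => g (a p)) := by
    intro α hα
    have hα' : ∃ r a, Tm.f r a ∈ V ∧ α = cell r (g (.f r a)) (fun p => g (a p)) := hα
    refine ⟨hα'.choose, hα'.choose_spec.choose, dif_pos hα', hα'.choose_spec.choose_spec.1,
      hα'.choose_spec.choose_spec.2⟩
  have hinj : Set.InjOn f (tcells (ar := ar) g V) := by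
    intro α hα β hβ hαβ
    obtain ⟨r, a, h1, -, h3⟩ := hf α hα
    obtain ⟨r', a', h1', -, h3'⟩ := hf β hβ
    rw [h1, h1'] at hαβ
    have h4 : Tm.f r a = Tm.f r' a' := Option.some.inj hαβ
    injection h4 with h5 h6
    subst h5
    subst h6
    rw [h3, h3']
  rw [← hinj.ncard_image]
  have h2 : f '' tcells (ar := ar) g V ⊆ some '' V := by
    rintro _ ⟨α, hα, rfl⟩
    obtain ⟨r, a, h1, h2, -⟩ := hf α hα
    exact ⟨_, h2, h1.symm⟩
  refine (Set.ncard_le_ncard h2 (h.image _)).trans ?_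
  exact Set.ncard_image_le h

/-- The nodes of finitely many atoms. -/
theorem nodes_ncard {X : Type} {F : Set (Atom ar X)} (hF : F.Finite) :
    {x | ∃ α ∈ F, ∃ p, x = α.2 p}.Finite ∧
      {x | ∃ α ∈ F, ∃ p, x = α.2 p}.ncard ≤ F.ncard * Finset.univ.sup ar := by
  classical
  induction F, hF using Set.Finite.induction_on with
  | empty => simp
  | @insert α F hα hF ih =>
    have h1 : {x | ∃ β ∈ insert α F, ∃ p, x = β.2 p} = Set.range α.2 ∪ {x | ∃ β ∈ F, ∃ p, x = β.2 p} := by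
      ext x
      constructor
      · rintro ⟨β, rfl | hβ, p, rfl⟩
        · exact Or.inl ⟨p, rfl⟩
        · exact Or.inr ⟨β, hβ, p, rfl⟩
      · rintro (⟨p, rfl⟩ | ⟨β, hβ, p, rfl⟩)
        · exact ⟨α, Or.inl rfl, p, rfl⟩
        · exact ⟨β, Or.inr hβ, p, rfl⟩
    have h2 : (Set.range α.2).ncard ≤ Finset.univ.sup ar := by
      rw [← Set.image_univ]
      refine (Set.ncard_image_le Set.finite_univ).trans ?_
      rw [Set.ncard_univ, Nat.card_eq_fintype_card, Fintype.card_fin]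
      exact Finset.le_sup (f := ar) (Finset.mem_univ α.1)
    rw [h1]
    refine ⟨(Set.finite_range _).union ih.1, (Set.ncard_union_le _ _).trans ?_⟩
    rw [Set.ncard_insert_of_notMem hα hF, Nat.add_mul, Nat.one_mul]
    have := ih.2
    omega

/-- (B2) and (B4): a bad pattern has a bad sub-pattern with at most `K` atoms and at most `bS` atoms and costly pairs. -/
theorem fin_sub (𝔠 : Ctx T D) [Finite D] {X : Type} {R : X → X → Prop} {cD : D → X} {l : ℕ} {F : Set (Atom ar X)}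
    {V : Set (Tm T D)} {P : Set ((X ⊕ Tm T D) × (X ⊕ Tm T D))} (hF : F.Finite) (hV : V.Finite)
    (h : 𝔠.Bd R cD l F V P) :
    ∃ F' ⊆ F, ∃ V' ⊆ V, ∃ P' : Set ((X ⊕ Tm T D) × (X ⊕ Tm T D)), P'.Finite ∧
      (∀ p ∈ P', EqvGen (Gl 𝔠.t0 R cD l P) p.1 p.2) ∧ F'.ncard + P'.ncard ≤ bS T 𝔠.K (Nat.card D) ∧
      𝔠.Bd R cD l F' V' P' := by
  classical
  obtain ⟨F', hF', V', hV', hc, -, hE⟩ := small_FV 𝔠 hF hV h
  have hF'f := hF.subset hF'
  have hV'f := hV.subset hV'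
  let G : Set (Atom ar (X ⊕ Tm T D)) := (amap Sum.inl) '' F' ∪ tcells (ar := ar) Sum.inr V'
  have hGf : G.Finite := (hF'f.image _).union (tcells_finite _ hV'f)
  have hGc : G.ncard ≤ 𝔠.K := by
    refine (Set.ncard_union_le _ _).trans ?_
    have h1 := tcells_ncard (ar := ar) (Sum.inr : Tm T D → X ⊕ Tm T D) hV'f
    have h2 := amap_ncard (ar := ar) (F := F') (g := (Sum.inl : X → X ⊕ Tm T D)) Sum.inl_injective
    omega
  obtain ⟨hN1, hN2⟩ := nodes_ncard hGf
  let Nd : Set (X ⊕ Tm T D) := {x | ∃ α ∈ G, ∃ p, x = α.2 p} ∪ Set.range (fun d => Sum.inl (cD d))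
  have hNf : Nd.Finite := hN1.union (Set.finite_range _)
  have hNc : Nd.ncard ≤ 𝔠.K * Finset.univ.sup ar + Nat.card D := by
    refine (Set.ncard_union_le _ _).trans ?_
    have h1 : (Set.range (fun d : D => (Sum.inl (cD d) : X ⊕ Tm T D))).ncard ≤ Nat.card D := by
      rw [← Set.image_univ]
      refine (Set.ncard_image_le Set.finite_univ).trans ?_
      rw [Set.ncard_univ]
    have h2 : G.ncard * Finset.univ.sup ar ≤ 𝔠.K * Finset.univ.sup ar := Nat.mul_le_mul_right _ hGc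
    omega
  let P' : Set ((X ⊕ Tm T D) × (X ⊕ Tm T D)) :=
    {p | EqvGen (Gl 𝔠.t0 R cD l P) p.1 p.2 ∧ p.1 ∈ Nd ∧ p.2 ∈ Nd}
  have hsub : P' ⊆ Nd ×ˢ Nd := fun p hp => ⟨hp.2.1, hp.2.2⟩
  have hP'c : P'.ncard ≤ (𝔠.K * Finset.univ.sup ar + Nat.card D) ^ 2 := by
    refine (Set.ncard_le_ncard hsub (hNf.prod hNf)).trans ?_
    rw [Set.ncard_prod, sq]
    exact Nat.mul_le_mul hNc hNc
  refine ⟨F', hF', V', hV', P', (hNf.prod hNf).subset hsub, fun p hp => hp.1, ?_, ?_⟩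
  · unfold bS
    have h3 : F'.ncard ≤ 𝔠.K := by omega
    omega
  · have h1 := EntG.restrict hE Nd (fun d => Or.inr ⟨d, rfl⟩) (fun α hα p => Or.inl ⟨α, hα, p, rfl⟩)
    exact EntG.mono h1 (fun x y hxy => Gl.id hxy) subset_rfl

end Pool.Agent.BF
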