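import Pool.Agent.BF.LowB
import Pool.Agent.BF.Full

set_option autoImplicit false

/-!
# LowL: the ladder, minimal bad lower patterns
-/

namespace Pool.Agent.BF

open Pool.Agent.H56 Relation
open Pool.Agent.WFC (Atom amap EntG Small ElimSys AncA)

variable {k : ℕ} {ar : Fin k → ℕ} {T : List (Rule ar)} {D : Type} {𝔠 : Ctx T D} {𝔽 : Fr 𝔠} {E : St 𝔽} {B Mk l l' : ℕ}

/-- (5.3) There is a small bad lower pattern of the first level. -/
theorem Low.has_le [Finite D] (L : Low 𝔽 E Mk) (hv : Valid 𝔽 E B) :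
    ∃ s ≤ bS T 𝔠.K (Nat.card D), L.Has Mk s := by
  obtain ⟨F, hF, V, hV, P, hP, hPc, hs, hb⟩ := fin_sub 𝔠 L.F1_finite L.V1_finite (L.full_bad hv)
  exact ⟨_, hs, F, V, P, ⟨hF, hV.trans sub_self, L.V1_finite.subset hV, hP, hPc, hb⟩, rfl⟩

theorem Low.has_mono {L : Low 𝔽 E Mk} {s : ℕ} (h : L.Has l s) (hl : l' ≤ l) : L.Has l' s := by
  obtain ⟨F, V, P, hBC, hs⟩ := h
  exact ⟨F, V, P, Low.bc_mono hBC hl, hs⟩

/-- (5.5) The ladder: a level at which the minimal size is stationary. -/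
theorem Low.ladder [Finite D] (L : Low 𝔽 E Mk) (hv : Valid 𝔽 E B) (st : ℕ) :
    ∃ i s', i ≤ bS T 𝔠.K (Nat.card D) ∧ s' ≤ bS T 𝔠.K (Nat.card D) ∧ L.Has (Mk - st * i) s' ∧
      ∀ s'', L.Has (Mk - st * (i + 1)) s'' → s' ≤ s'' := by
  classical
  obtain ⟨s₀, hs₀, hH⟩ := L.has_le hv
  let f : ℕ → ℕ := fun i => sInf {s | L.Has (Mk - st * i) s}
  have hne : ∀ i, {s | L.Has (Mk - st * i) s}.Nonempty := fun i => ⟨s₀, Low.has_mono hH (Nat.sub_le _ _)⟩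
  have hf : ∀ i, L.Has (Mk - st * i) (f i) := fun i => Nat.sInf_mem (hne i)
  have hmin : ∀ i s, L.Has (Mk - st * i) s → f i ≤ s := fun i s h => Nat.sInf_le h
  have hanti : ∀ i, f (i + 1) ≤ f i := fun i => hmin _ _ (Low.has_mono (hf i) (by
    have : st * i ≤ st * (i + 1) := Nat.mul_le_mul_left _ (Nat.le_succ _)
    omega))
  have h0 : f 0 ≤ bS T 𝔠.K (Nat.card D) := (hmin 0 s₀ (Low.has_mono hH (Nat.sub_le _ _))).trans hs₀
  have hle0 : ∀ i, f i ≤ f 0 := by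
    intro i
    induction i with
    | zero => exact le_rfl
    | succ i ih => exact (hanti i).trans ih
  by_contra hno
  push Not at hno
  have hlt : ∀ i ≤ bS T 𝔠.K (Nat.card D), f (i + 1) < f i := by
    intro i hi
    rcases lt_or_eq_of_le (hanti i) with h | h
    · exact h
    · obtain ⟨s'', h1, h2⟩ := hno i (f i) hi ((hle0 i).trans h0) (hf i)
      have h3 := hmin (i + 1) s'' h1
      omega
  have hdec : ∀ i ≤ bS T 𝔠.K (Nat.card D) + 1, f i + i ≤ f 0 := by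
    intro i
    induction i with
    | zero => intro _; omega
    | succ i ih =>
      intro hi
      have h1 := ih (by omega)
      have h2 := hlt i (by omega)
      omega
  have := hdec (bS T 𝔠.K (Nat.card D) + 1) le_rfl
  omega

/-- A minimal bad lower pattern can be chosen with at most `K` atoms and without pairs which are free. -/
theorem Low.exists_norm (L : Low 𝔽 E Mk) {s' : ℕ} (h : L.Has l s') (hmin : ∀ s'', L.Has l s'' → s' ≤ s'') :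
    ∃ F V P, L.BC l F V P ∧ F.ncard + P.ncard = s' ∧ F.ncard ≤ 𝔠.K ∧ V.ncard ≤ 𝔠.K ∧
      (∀ t ∈ V, ∃ r a, t = .f r a) ∧ ∀ p ∈ P, ¬ EqvGen (Gl 𝔠.t0 L.R1 L.cD1 l ∅) p.1 p.2 := by
  classical
  obtain ⟨F, V, P, hBC, hs⟩ := h
  obtain ⟨F', hF', V', hV', hc, hnc, hb⟩ := small_FV 𝔠 (L.F1_finite.subset hBC.hF) hBC.finV hBC.bad
  let P' : Set ((((𝔽.G.X ⊕ Tm T D) ⊕ Wd 𝔽.G) ⊕ Tm T D) × (((𝔽.G.X ⊕ Tm T D) ⊕ Wd 𝔽.G) ⊕ Tm T D)) :=
    {p | p ∈ P ∧ ¬ EqvGen (Gl 𝔠.t0 L.R1 L.cD1 l ∅) p.1 p.2}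
  have hP' : P' ⊆ P := fun p hp => hp.1
  have hBC' : L.BC l F' V' P' := by
    refine ⟨hF'.trans hBC.hF, hV'.trans hBC.hV, hBC.finV.subset hV', hBC.finP.subset hP',
      fun p hp => hBC.hP p hp.1, ?_⟩
    refine 𝔠.bd_mono le_rfl subset_rfl subset_rfl ?_ hb
    intro p hp
    by_cases hfree : EqvGen (Gl 𝔠.t0 L.R1 L.cD1 l ∅) p.1 p.2
    · exact glE_mono le_rfl (Set.empty_subset _) hfree
    · exact EqvGen.rel _ _ (.id ⟨hp, hfree⟩)
  have hF'c : F'.ncard ≤ F.ncard := Set.ncard_le_ncard hF' (L.F1_finite.subset hBC.hF)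
  have hP'c : P'.ncard ≤ P.ncard := Set.ncard_le_ncard hP' hBC.finP
  have h1 := hmin _ ⟨F', V', P', hBC', rfl⟩
  exact ⟨F', V', P', hBC', by omega, by omega, by omega, hnc, fun p hp => hp.2⟩

end Pool.Agent.BF
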