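import Pool.Agent.BF.LowA

set_option autoImplicit false

/-!
# LowN: the new state
-/

namespace Pool.Agent.BF

open Pool.Agent.H56 Relation
open Pool.Agent.WFC (Atom amap EntG Small ElimSys AncA)

variable {k : ℕ} {ar : Fin k → ℕ} {T : List (Rule ar)} {D : Type} {𝔠 : Ctx T D} {𝔽 : Fr 𝔠} {E : St 𝔽} {B B' Mk l' : ℕ}

namespace Low

variable (L : Low 𝔽 E Mk)

/-- The new pairs: positions in the view with values of the same type of level `l'`. -/
def newP (l' : ℕ) : St 𝔽 := {p | ∃ u ∈ L.Q1, ∃ u' ∈ L.Q1, ∃ z z' : Pth T, z.length ≤ 𝔠.K + 2 ∧ z'.length ≤ 𝔠.K + 2 ∧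
  p = (ext (ow L.o) (z ++ L.cp u), ext (ow L.o) (z' ++ L.cp u')) ∧ val p.1 ≠ none ∧ val p.2 ≠ none ∧
  Veq 𝔠.t0 l' (val p.1) (val p.2)}

/-- The new state. -/
def newE (l' : ℕ) : St 𝔽 := E ∪ L.newP l'

/-- Positions of the same type are equivalent words in the new state. -/
theorem newE_eqw {u u' : Wd 𝔽.G} (hu : u ∈ L.Q1) (hu' : u' ∈ L.Q1) {z z' : Pth T} (hz : z.length ≤ 𝔠.K + 2)
    (hz' : z'.length ≤ 𝔠.K + 2) {s s' : Tm T D} (hs : up (z ++ L.cp u) L.b = some s)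
    (hs' : up (z' ++ L.cp u') L.b = some s') (h : Teq 𝔠.t0 l' s s') :
    Eqw 𝔽 (L.newE l') (ext u z) (ext u' z') := by
  have hsub : E ⊆ L.newE l' := Set.subset_union_left
  have h1 : Eqw 𝔽 (L.newE l') (ext (ow L.o) (z ++ L.cp u)) (ext (ow L.o) (z' ++ L.cp u')) := by
    refine EqvGen.rel _ _ ⟨_, _, [], Gen.mg (Or.inr ⟨u, hu, u', hu', z, z', hz, hz', rfl, ?_, ?_, ?_⟩), rfl, rfl⟩
    · simp only [L.val_pos, hs]
      simp
    · simp only [L.val_pos, hs']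
      simp
    · simp only [L.val_pos, hs, hs']
      exact h
  exact ((L.pos_eqw hu z).symm.mono hsub).trans (h1.trans ((L.pos_eqw hu' z').mono hsub))

/-- The new state is valid. -/
theorem newE_valid (hv : Valid 𝔽 E B) (hB : B' ≤ B) (hl : B' ≤ l') (hmu : 𝔽.mu ≤ B') : Valid 𝔽 (L.newE l') B' := by
  have hsub : E ⊆ L.newE l' := Set.subset_union_left
  have hW : ∀ w : Wd 𝔽.G, WOk 𝔽 E w → WOk 𝔽 (L.newE l') w := by
    intro w h
    refine ⟨h.len, h.dom, fun w' hw' => ?_⟩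
    obtain ⟨x, hx, hx'⟩ := h.tails w' hw'
    exact ⟨x, hx, hx'.monoE hsub⟩
  have hpos : ∀ u ∈ L.Q1, ∀ z : Pth T, z.length ≤ 𝔠.K + 2 → val (ext (ow L.o) (z ++ L.cp u)) ≠ none →
      WOk 𝔽 E (ext (ow L.o) (z ++ L.cp u)) := by
    intro u hu z hz hd
    have h1 := L.pos_veq hv hu hz
    rw [L.val_pos] at hd
    have h2 : val (ext u z) ≠ none := fun h => hd (h1.none_iff.1 h)
    obtain ⟨h3, h4, h5, h6⟩ := class_lemma hv (L.sh_pos hu hz) h2 (L.pos_eqw hu z).symm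
    exact ⟨h3, h4, h6⟩
  refine ⟨hmu, ?_, ?_⟩
  · rintro x y (h | ⟨u, hu, u', hu', z, z', hz, hz', hp, h1, h2, h3⟩)
    · exact ⟨hW _ (hv.wok x y h).1, hW _ (hv.wok x y h).2⟩
    · obtain ⟨rfl, rfl⟩ := Prod.mk.inj hp
      exact ⟨hW _ (hpos u hu z hz h1), hW _ (hpos u' hu' z' hz' h2)⟩
  · rintro x y (h | ⟨u, hu, u', hu', z, z', hz, hz', hp, h1, h2, h3⟩)
    · exact (hv.veq x y h).mono hB
    · exact Veq.mono h3 hl

/-- If no two short words become equivalent then nothing changes. -/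
theorem newE_stable (hns : ∀ x y : Wd 𝔽.G, 𝔽.sh x → 𝔽.sh y → Eqw 𝔽 (L.newE l') x y → Eqw 𝔽 E x y)
    {x y : Wd 𝔽.G} (h : Eqw 𝔽 (L.newE l') x y) : Eqw 𝔽 E x y := by
  have hgen : ∀ g g' : Wd 𝔽.G, Gen 𝔽 (L.newE l') g g' → Eqw 𝔽 E g g' := by
    intro g g' hg
    cases hg with
    | tr h => exact Eqw.of_gen (.tr h)
    | eq h1 h2 h3 => exact Eqw.of_gen (.eq h1 h2 h3)
    | mg h =>
      rcases h with h | ⟨u, hu, u', hu', z, z', hz, hz', hp, h1, h2, h3⟩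
      · exact Eqw.of_gen (.mg h)
      · obtain ⟨rfl, rfl⟩ := Prod.mk.inj hp
        obtain ⟨s, hs⟩ := Option.ne_none_iff_exists'.mp h1
        obtain ⟨s', hs'⟩ := Option.ne_none_iff_exists'.mp h2
        simp only [hs, hs'] at h3
        have h4 := L.newE_eqw hu hu' hz hz' ((L.val_pos _).symm.trans hs) ((L.val_pos _).symm.trans hs') h3
        exact ((L.pos_eqw hu z).trans (hns _ _ (L.sh_pos hu hz) (L.sh_pos hu' hz') h4)).trans
          (L.pos_eqw hu' z').symm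
  induction h with
  | rel x y h =>
    obtain ⟨g, g', z, hg, rfl, rfl⟩ := h
    exact (hgen g g' hg).ext z
  | refl x => exact Eqw.refl x
  | symm x y _ ih => exact ih.symm
  | trans x y z _ _ ih1 ih2 => exact ih1.trans ih2

end Low

end Pool.Agent.BF
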