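import Pool.Agent.BF.CL

set_option autoImplicit false

/-!
# XL: visibility sets and ranks
-/

namespace Pool.Agent.BF

open Pool.Agent.H56 Relation
open Pool.Agent.WFC (Atom amap EntG Small ElimSys AncA)

variable {k : ℕ} {ar : Fin k → ℕ} {T : List (Rule ar)} {D : Type} {𝔠 : Ctx T D} {𝔽 : Fr 𝔠} {E E' : St 𝔽} {B : ℕ}

theorem XX_eqw {x y : Wd 𝔽.G} (h : Eqw 𝔽 E x y) : XX 𝔽 E x = XX 𝔽 E y := by
  ext o
  constructor
  · rintro ⟨z, hz⟩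
    exact ⟨z, hz.trans h⟩
  · rintro ⟨z, hz⟩
    exact ⟨z, hz.trans h.symm⟩

theorem XX'_eqw {x y : Wd 𝔽.G} (h : Eqw 𝔽 E x y) : XX' 𝔽 E x = XX' 𝔽 E y := by
  ext o
  constructor
  · rintro ⟨z, h0, hz⟩
    exact ⟨z, h0, hz.trans h⟩
  · rintro ⟨z, h0, hz⟩
    exact ⟨z, h0, hz.trans h.symm⟩

theorem XX'_sub (x : Wd 𝔽.G) : XX' 𝔽 E x ⊆ XX 𝔽 E x := by
  rintro o ⟨z, -, hz⟩
  exact ⟨z, hz⟩

theorem XX_app (x : Wd 𝔽.G) (p : Fin (mm T)) : XX 𝔽 E x ⊆ XX' 𝔽 E (ext x [p]) := by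
  rintro o ⟨z, hz⟩
  refine ⟨p :: z, by simp, ?_⟩
  have h := hz.ext [p]
  rwa [ext_cons] at h

theorem XX_ext (x : Wd 𝔽.G) (z' : Pth T) : XX 𝔽 E x ⊆ XX 𝔽 E (ext x z') := by
  rintro o ⟨z, hz⟩
  refine ⟨z' ++ z, ?_⟩
  have h := hz.ext z'
  rwa [ext_ext] at h

/-- The visibility sets are closed under claims. -/
theorem XX_clm {x : Wd 𝔽.G} {o o' : Oc 𝔽.G} (ho : o ∈ XX 𝔽 E x)
    (h : Veq 𝔠.t0 𝔽.mu (val (ow o)) (val (ow o'))) : o' ∈ XX 𝔽 E x := by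
  obtain ⟨z, hz⟩ := ho
  exact ⟨z, ((eqw_clm h).symm.ext z).trans hz⟩

theorem XX'_clm {x : Wd 𝔽.G} {o o' : Oc 𝔽.G} (ho : o ∈ XX' 𝔽 E x)
    (h : Veq 𝔠.t0 𝔽.mu (val (ow o)) (val (ow o'))) : o' ∈ XX' 𝔽 E x := by
  obtain ⟨z, hz0, hz⟩ := ho
  exact ⟨z, hz0, ((eqw_clm h).symm.ext z).trans hz⟩

/-- `o ∈ X(x) \ X'(x)` gives `ow o ~ x`. -/
theorem eqw_of_mem_XX {x : Wd 𝔽.G} {o : Oc 𝔽.G} (h : o ∈ XX 𝔽 E x) (h' : o ∉ XX' 𝔽 E x) :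
    Eqw 𝔽 E (ow o) x := by
  obtain ⟨z, hz⟩ := h
  by_cases h0 : z = []
  · subst h0
    exact hz
  · exact absurd ⟨z, h0, hz⟩ h'

/-- Acyclicity: an occurrence does not see its own class properly (if it is defined). -/
theorem not_mem_XX' (hv : Valid 𝔽 E B) {x : Wd 𝔽.G} {o : Oc 𝔽.G} (hd : val (ow o) ≠ none)
    (h : Eqw 𝔽 E (ow o) x) : o ∉ XX' 𝔽 E x := by
  rintro ⟨z, hz0, hz⟩
  have he : Eqw 𝔽 E (ow o) (ext (ow o) z) := h.trans hz.symm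
  obtain ⟨h1, h2, h3, -⟩ := class_lemma hv (sh_ow o) hd he
  rw [ext_snd, List.length_append] at h1
  obtain ⟨e, hve⟩ := Option.ne_none_iff_exists'.1 hd
  obtain ⟨e', hve'⟩ := Option.ne_none_iff_exists'.1 h2
  rw [hve, hve'] at h3
  rw [val_ext, hve, Option.bind_some] at hve'
  have h4 := h3.lb
  simp only [Option.map_some, Option.some.injEq] at h4
  exact 𝔠.tab.acyc z e e' hz0 (by omega) hve' h4

/-- If an occurrence of a row is in `X'(x)`, so is the top of the row. -/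
theorem top_mem {x : Wd 𝔽.G} {o : Oc 𝔽.G} (h : o ∈ XX' 𝔽 E x) : ((o.1, none) : Oc 𝔽.G) ∈ XX' 𝔽 E x := by
  obtain ⟨z, hz0, hz⟩ := h
  refine ⟨z ++ o.2.toList, by simp [hz0], ?_⟩
  have he : ext (ow ((o.1, none) : Oc 𝔽.G)) (z ++ o.2.toList) = ext (ow o) z := by
    rw [ow_none]
    simp [BF.ext, ow]
  rw [he]
  exact hz

/-- The word of a class with `X = X'`: all its words are nonempty, and the tops of their rows are in `X'`. -/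
theorem nonvar_row (hv : Valid 𝔽 E B) {x y : Wd 𝔽.G} (hX : XX 𝔽 E x = XX' 𝔽 E x) (h : Eqw 𝔽 E y x) :
    y.2 ≠ [] ∧ ((y.1, none) : Oc 𝔽.G) ∈ XX' 𝔽 E x := by
  have hy : y = BF.ext (ow ((y.1, none) : Oc 𝔽.G)) y.2 := by
    rw [ow_none]
    simp [BF.ext]
  have hmem : ((y.1, none) : Oc 𝔽.G) ∈ XX 𝔽 E x := by
    refine ⟨y.2, ?_⟩
    rw [← hy]
    exact h
  rw [hX] at hmem
  refine ⟨fun h0 => ?_, hmem⟩
  refine not_mem_XX' hv (o := (y.1, none)) ?_ ?_ hmem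
  · rw [val_ow_none]
    simp
  · rw [hy, h0, ext_nil] at h
    exact h

/-! ### Ranks -/

theorem rkw_eqw {x y : Wd 𝔽.G} (h : Eqw 𝔽 E x y) : rkw 𝔽 E x = rkw 𝔽 E y := by
  unfold rkw
  congr 1
  ext n
  constructor
  · rintro ⟨z, e, h1, h2⟩
    exact ⟨z, e, h.symm.trans h1, h2⟩
  · rintro ⟨z, e, h1, h2⟩
    exact ⟨z, e, h.trans h1, h2⟩

/-- The rank of an argument is smaller: a word `y ~ x` whose value has the least depth is a cell word, and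
`ext y [p] ~ ext x [p]`. -/
theorem rkw_app (hv : Valid 𝔽 E B) {x : Wd 𝔽.G} (hx : 𝔽.sh x) (hc : 𝔽.cw x) (p : Fin (mm T)) :
    rkw 𝔽 E (ext x [p]) < rkw 𝔽 E x := by
  obtain ⟨r, a, hr⟩ := hc
  have hne : {n | ∃ y e, Eqw 𝔽 E x y ∧ val y = some e ∧ dep e = n}.Nonempty :=
    ⟨dep (.f r a), x, .f r a, Eqw.refl x, hr, rfl⟩
  obtain ⟨y, e, h1, h2, h3⟩ := Nat.sInf_mem hne
  obtain ⟨a', ha'⟩ := class_rule hv hx hr h1
  rw [h2] at ha'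
  cases ha'
  have h4 : rkw 𝔽 E (ext x [p]) ≤ dep (a' p) := by
    refine Nat.sInf_le ⟨ext y [p], a' p, h1.ext [p], ?_, rfl⟩
    rw [val_ext, h2, Option.bind_some]
    rfl
  have h5 := dep_arg r a' p
  have h6 : rkw 𝔽 E x = dep (.f r a') := h3.symm
  omega

/-! ### The number of occurrences -/

theorem finite_oc (𝔽 : Fr 𝔠) : Finite (Oc 𝔽.G) := by
  haveI := finite_rw 𝔽
  exact inferInstanceAs (Finite (Rw 𝔽.G × Option (Fin (mm T))))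

theorem card_oc (𝔽 : Fr 𝔠) : Nat.card (Oc 𝔽.G) ≤ bω T 𝔠.K := by
  haveI := finite_rw 𝔽
  have h1 : Nat.card (Oc 𝔽.G) = Nat.card (Rw 𝔽.G) * (mm T + 1) := by
    rw [Nat.card_prod, Nat.card_eq_fintype_card (α := Option (Fin (mm T))), Fintype.card_option, Fintype.card_fin]
  rw [h1]
  exact Nat.mul_le_mul_right _ (card_rw 𝔽)

end Pool.Agent.BF
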